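import Pool.Agent.helper529_fat.Main
import Pool.Agent.Helper715.Sal6

set_option autoImplicit false
set_option linter.unusedSectionVars false
set_option linter.unusedVariables false

/-!
# The main inequality, for polytopes
-/

namespace Pool.Agent.helper529_fat

open Finset Pool.Agent.Helper715

/-- `F` is a nonempty face of dimension `k` of the convex set `Q` (faces are exposed faces; for
polytopes this is the usual notion, the polytope itself being the face of top dimension). -/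
def IsFace {E : Type*} [NormedAddCommGroup E] [NormedSpace ℝ E] (Q : Set E) (k : ℕ) (F : Set E) :
    Prop :=
  IsExposed ℝ Q F ∧ F.Nonempty ∧ Module.finrank ℝ (affineSpan ℝ F).direction = k

/-- the number of `k`-dimensional faces of `Q` -/
noncomputable def fv {E : Type*} [NormedAddCommGroup E] [NormedSpace ℝ E] (Q : Set E) (k : ℕ) : ℕ :=
  Set.ncard {F : Set E | IsFace Q k F}

/-- the number of vertices of `Q` that lie in `F` -/
noncomputable def nv {E : Type*} [NormedAddCommGroup E] [NormedSpace ℝ E] (Q F : Set E) : ℕ :=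
  Set.ncard {v : Set E | IsFace Q 0 v ∧ v ⊆ F}

/-- every vertex of `Q` lies in exactly `n` edges -/
def Simple {E : Type*} [NormedAddCommGroup E] [NormedSpace ℝ E] (Q : Set E) (n : ℕ) : Prop :=
  ∀ v : Set E, IsFace Q 0 v → Set.ncard {e : Set E | IsFace Q 1 e ∧ v ⊆ e} = n

/-- the triangular 2-faces `t` of `Q` whose image is not a 2-face of the image of `Q` -/
def LostTri {E : Type*} [NormedAddCommGroup E] [NormedSpace ℝ E] {E' : Type*}
    [NormedAddCommGroup E'] [NormedSpace ℝ E'] (Q : Set E) (π : E →ₗ[ℝ] E') : Set (Set E) :=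
  {t : Set E | IsFace Q 2 t ∧ nv Q t = 3 ∧ ¬ IsFace (π '' Q) 2 (π '' t)}

section one

variable {E : Type*} [NormedAddCommGroup E] [InnerProductSpace ℝ E] [FiniteDimensional ℝ E]
variable {C : CP (WithLp 2 (E × ℝ))} {S : Finset E}
variable (hC : (C.V : Set (WithLp 2 (E × ℝ))) = hm '' (S : Set E))

theorem IsFace.isF {Q : Set E} {k : ℕ} {F : Set E} (h : IsFace Q k F) : IsF Q k F :=
  ⟨h.2.1, h.1, by rw [← direction_affineSpan]; exact h.2.2⟩

theorem isFace_of {Q : Set E} {k : ℕ} {F : Set E} (h : IsF Q k F) : IsFace Q k F :=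
  ⟨h.2.1, h.1, by rw [direction_affineSpan]; exact h.2.2⟩

include hC

theorem mem_fs_toA {k : ℕ} {F : Set E} (h : IsFace (convexHull ℝ (S : Set E)) k F) :
    toA C F ∈ C.fs C.bot C.V (k + 1) :=
  CP.fs_atom (IsF.cl hC h.isF) (IsF.cl hC h.isF).sub (IsF.dm hC h.isF)

theorem isFace_toF {k : ℕ} {A : Finset (WithLp 2 (E × ℝ))} (hA : A ∈ C.fs C.bot C.V (k + 1)) :
    IsFace (convexHull ℝ (S : Set E)) k (toF C S A) :=
  isFace_of (isF_toF hC (CP.fs_cl hA) (CP.fs_dm hA))

open scoped Classical in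
theorem ncard_faces (k : ℕ) (q : Set E → Prop) :
    Set.ncard {F : Set E | IsFace (convexHull ℝ (S : Set E)) k F ∧ q F} =
      ((C.fs C.bot C.V (k + 1)).filter (fun A => q (toF C S A))).card := by
  have h1 : {F : Set E | IsFace (convexHull ℝ (S : Set E)) k F ∧ q F} =
      (((C.fs C.bot C.V (k + 1)).filter (fun A => q (toF C S A))).image (toF C S) : Set (Set E)) := by
    ext F
    rw [Finset.mem_coe, Finset.mem_image]
    constructor
    · rintro ⟨hF, hq⟩
      have h2 := toF_toA hC hF.1 hF.2.1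
      exact ⟨toA C F, Finset.mem_filter.2 ⟨mem_fs_toA hC hF, by rw [h2]; exact hq⟩, h2⟩
    · rintro ⟨A, hA, rfl⟩
      rw [Finset.mem_filter] at hA
      exact ⟨isFace_toF hC hA.1, hA.2⟩
  rw [h1, Set.ncard_coe_finset, Finset.card_image_of_injOn]
  intro A hA B hB hAB
  have hA : A ∈ (C.fs C.bot C.V (k + 1)).filter (fun A => q (toF C S A)) := hA
  have hB : B ∈ (C.fs C.bot C.V (k + 1)).filter (fun A => q (toF C S A)) := hB
  rw [Finset.mem_filter] at hA hB
  rw [← toA_toF hC (CP.fs_cl hA.1), ← toA_toF hC (CP.fs_cl hB.1)]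
  rw [show toF C S A = toF C S B from hAB]

theorem fv_eq (k : ℕ) : fv (convexHull ℝ (S : Set E)) k = (C.fs C.bot C.V (k + 1)).card := by
  classical
  have h := ncard_faces hC k (fun _ => True)
  simp only [and_true, Finset.filter_true] at h
  exact h

theorem ncard_above (k j : ℕ) {v : Set E} (hv : IsFace (convexHull ℝ (S : Set E)) j v) :
    Set.ncard {e : Set E | IsFace (convexHull ℝ (S : Set E)) k e ∧ v ⊆ e} =
      (C.fs (toA C v) C.V (k + 1)).card := by
  classical
  rw [ncard_faces hC k (fun e => v ⊆ e)]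
  congr 1
  ext A
  rw [Finset.mem_filter]
  constructor
  · rintro ⟨h1, h2⟩
    have h3 := isFace_toF hC h1
    rw [← sub_iff hC hv.1 hv.2.1 h3.1 h3.2.1, toA_toF hC (CP.fs_cl h1)] at h2
    exact CP.fs_top (CP.fs_cl h1) h2 (CP.fs_dm h1)
  · intro h1
    have h2 := CP.fs_atom (CP.fs_cl h1) (CP.fs_cl h1).sub (CP.fs_dm h1)
    have h3 := isFace_toF hC h2
    refine ⟨h2, ?_⟩
    rw [← sub_iff hC hv.1 hv.2.1 h3.1 h3.2.1, toA_toF hC (CP.fs_cl h1)]
    exact CP.fs_le h1

theorem nv_eq {k : ℕ} {F : Set E} (hF : IsFace (convexHull ℝ (S : Set E)) k F) :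
    nv (convexHull ℝ (S : Set E)) F = (C.fs C.bot (toA C F) 1).card := by
  classical
  rw [nv, ncard_faces hC 0 (fun v => v ⊆ F)]
  congr 1
  ext A
  rw [Finset.mem_filter]
  constructor
  · rintro ⟨h1, h2⟩
    have h3 := isFace_toF hC h1
    rw [← sub_iff hC h3.1 h3.2.1 hF.1 hF.2.1, toA_toF hC (CP.fs_cl h1)] at h2
    exact CP.fs_atom (CP.fs_cl h1) h2 (CP.fs_dm h1)
  · intro h1
    have h2 := CP.fs_atom (CP.fs_cl h1) (CP.fs_cl h1).sub (CP.fs_dm h1)
    have h3 := isFace_toF (k := 0) hC h2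
    refine ⟨h2, ?_⟩
    rw [← sub_iff hC h3.1 h3.2.1 hF.1 hF.2.1, toA_toF hC (CP.fs_cl h1)]
    exact CP.fs_ge h1

theorem simple_smp (hs : Simple (convexHull ℝ (S : Set E)) (Module.finrank ℝ E)) : C.Smp := by
  intro v hv dv
  have hv' : v ∈ C.fs C.bot C.V (0 + 1) := CP.fs_atom hv hv.sub dv
  have h1 := isFace_toF hC hv'
  have h2 := hs _ h1
  rw [ncard_above hC 1 0 h1, toA_toF hC hv] at h2
  have h3 : (C.fs v C.V 2).card = Module.finrank ℝ E := h2
  rw [h3, finrank_hm]

theorem finite_isFace (k : ℕ) : {F : Set E | IsFace (convexHull ℝ (S : Set E)) k F}.Finite := by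
  apply Set.Finite.subset (finite_faces hC k)
  intro F hF
  exact IsFace.isF hF

end one

section two

variable {E : Type*} [NormedAddCommGroup E] [InnerProductSpace ℝ E] [FiniteDimensional ℝ E]
variable {E' : Type*} [NormedAddCommGroup E'] [InnerProductSpace ℝ E'] [FiniteDimensional ℝ E']

/-- homogenisation of a linear map -/
noncomputable def hT (π : E →ₗ[ℝ] E') : WithLp 2 (E × ℝ) →ₗ[ℝ] WithLp 2 (E' × ℝ) :=
  (WithLp.linearEquiv 2 ℝ (E' × ℝ)).symm.toLinearMap ∘ₗ
    (LinearMap.prodMap π LinearMap.id) ∘ₗ (WithLp.linearEquiv 2 ℝ (E × ℝ)).toLinearMap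

theorem hT_hm (π : E →ₗ[ℝ] E') (x : E) : hT π (hm x) = hm (π x) := rfl

theorem hm_ne_zero (x : E) : hm x ≠ 0 := by
  intro h
  have := congrArg (fun z => (WithLp.ofLp z).2) h
  simp [hm] at this

variable {C : CP (WithLp 2 (E × ℝ))} {D : CP (WithLp 2 (E' × ℝ))} {S : Finset E} {S' : Finset E'}
  {π : E →ₗ[ℝ] E'}
variable (hC : (C.V : Set (WithLp 2 (E × ℝ))) = hm '' (S : Set E))
variable (hD : (D.V : Set (WithLp 2 (E' × ℝ))) = hm '' (S' : Set E'))
variable (hS : (S' : Set E') = π '' (S : Set E))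
include hC hD hS

theorem mk_prj (h0 : fv (convexHull ℝ (S' : Set E')) 0 = fv (convexHull ℝ (S : Set E)) 0)
    (h1 : fv (convexHull ℝ (S' : Set E')) 1 = fv (convexHull ℝ (S : Set E)) 1) :
    CP.Prj C D (hT π) where
  maps := by
    intro v hv
    obtain ⟨s, hs, rfl⟩ := (mem_V hC).1 hv
    rw [hT_hm, hm_mem_V hD, ← Finset.mem_coe, hS]
    exact ⟨s, hs, rfl⟩
  surj := by
    intro w hw
    obtain ⟨s, hs, rfl⟩ := (mem_V hD).1 hw
    rw [← Finset.mem_coe, hS] at hs
    obtain ⟨x, hx, rfl⟩ := hs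
    exact ⟨hm x, (hm_mem_V hC).2 hx, hT_hm π x⟩
  nz := by
    intro w hw
    obtain ⟨s, hs, rfl⟩ := (mem_V hD).1 hw
    exact hm_ne_zero s
  c0 := by
    rw [fv_eq hC, fv_eq hD] at h0
    exact h0.symm
  c1 := by
    rw [fv_eq hC, fv_eq hD] at h1
    exact h1.symm

/-- a lost triangle in the sense of cone pairs is a lost triangle of the polytope -/
theorem lost_toF (h : CP.Prj C D (hT π)) {A : Finset (WithLp 2 (E × ℝ))}
    (hA : A ∈ CP.lostTri C D (hT π)) : toF C S A ∈ LostTri (convexHull ℝ (S : Set E)) π := by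
  classical
  rw [CP.mem_lostTri] at hA
  obtain ⟨hA1, hA2, hA3⟩ := hA
  have hf := isFace_toF (k := 2) hC hA1
  refine ⟨hf, ?_, ?_⟩
  · rw [nv_eq hC hf, toA_toF hC (CP.fs_cl hA1)]
    exact hA3
  · rw [LinearMap.image_convexHull, ← hS]
    intro hg
    have hgm := mem_fs_toA hD hg
    apply hA2 _ hgm
    have h1 : A ⊆ CP.pb C (hT π) (toA D (π '' (toF C S A))) := by
      intro v hv
      have hvV := (CP.fs_cl hA1).sub hv
      rw [CP.mem_pb]
      refine ⟨hvV, ?_⟩
      rw [← toA_toF hC (CP.fs_cl hA1), mem_toA] at hv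
      obtain ⟨_, x, hx, rfl⟩ := hv
      rw [mem_toA]
      exact ⟨h.maps _ hvV, π x, ⟨x, hx, rfl⟩, (hT_hm π x).symm⟩
    have h2 := h.two_fwd hgm
    exact (CP.eq_of_dm_le (CP.fs_cl hA1) (CP.fs_cl h2) h1
      (by rw [CP.fs_dm hA1, CP.fs_dm h2])).symm

theorem lost_le (h : CP.Prj C D (hT π)) :
    (CP.lostTri C D (hT π)).card ≤ (LostTri (convexHull ℝ (S : Set E)) π).ncard := by
  classical
  have hinj : Set.InjOn (toF C S) (CP.lostTri C D (hT π) : Set (Finset (WithLp 2 (E × ℝ)))) := by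
    intro A hA B hB hAB
    have hA : A ∈ CP.lostTri C D (hT π) := hA
    have hB : B ∈ CP.lostTri C D (hT π) := hB
    rw [CP.mem_lostTri] at hA hB
    rw [← toA_toF hC (CP.fs_cl hA.1), ← toA_toF hC (CP.fs_cl hB.1)]
    rw [show toF C S A = toF C S B from hAB]
  rw [← Finset.card_image_of_injOn hinj, ← Set.ncard_coe_finset]
  apply Set.ncard_le_ncard
  · intro F hF
    rw [Finset.mem_coe, Finset.mem_image] at hF
    obtain ⟨A, hA, rfl⟩ := hF
    exact lost_toF hC hD hS h hA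
  · exact (finite_isFace hC 2).subset (fun F hF => hF.1)

theorem lost_edge (h : CP.Prj C D (hT π)) {m : ℕ}
    (hm : ∀ e, IsFace (convexHull ℝ (S : Set E)) 1 e →
      Set.ncard {t ∈ LostTri (convexHull ℝ (S : Set E)) π | e ⊆ t} ≤ m)
    {e : Finset (WithLp 2 (E × ℝ))} (he : e ∈ C.fs C.bot C.V 2)
    {T' : Finset (Finset (WithLp 2 (E × ℝ)))} (hT' : T' ⊆ CP.lostTri C D (hT π))
    (heT : ∀ t ∈ T', e ⊆ t) : T'.card ≤ m := by
  classical
  refine le_trans ?_ (hm _ (isFace_toF (k := 1) hC he))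
  have hcl : ∀ A ∈ T', A ∈ C.fs C.bot C.V 3 := by
    intro A hA
    exact (CP.mem_lostTri.1 (hT' hA)).1
  have hinj : Set.InjOn (toF C S) (T' : Set (Finset (WithLp 2 (E × ℝ)))) := by
    intro A hA B hB hAB
    rw [← toA_toF hC (CP.fs_cl (hcl A hA)), ← toA_toF hC (CP.fs_cl (hcl B hB))]
    rw [show toF C S A = toF C S B from hAB]
  rw [← Finset.card_image_of_injOn hinj, ← Set.ncard_coe_finset]
  apply Set.ncard_le_ncard
  · intro F hF
    rw [Finset.mem_coe, Finset.mem_image] at hF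
    obtain ⟨A, hA, rfl⟩ := hF
    exact ⟨lost_toF hC hD hS h (hT' hA), toF_mono hC (heT A hA)⟩
  · exact (finite_isFace hC 2).subset (fun F hF => hF.1.1)

end two

/-- the theorem for abstract Euclidean spaces -/
theorem main {E : Type*} [NormedAddCommGroup E] [InnerProductSpace ℝ E] [FiniteDimensional ℝ E]
    {E' : Type*} [NormedAddCommGroup E'] [InnerProductSpace ℝ E'] [FiniteDimensional ℝ E']
    (hE' : Module.finrank ℝ E' = 4) (S : Finset E) (π : E →ₗ[ℝ] E')
    (hQ : (interior (convexHull ℝ (S : Set E))).Nonempty)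
    (hP : (interior (π '' convexHull ℝ (S : Set E))).Nonempty)
    (hs : Simple (convexHull ℝ (S : Set E)) (Module.finrank ℝ E))
    (h0 : fv (π '' convexHull ℝ (S : Set E)) 0 = fv (convexHull ℝ (S : Set E)) 0)
    (h1 : fv (π '' convexHull ℝ (S : Set E)) 1 = fv (convexHull ℝ (S : Set E)) 1) :
    fv (π '' convexHull ℝ (S : Set E)) 1 + (Module.finrank ℝ E) ^ 2 ≤
      4 * fv (π '' convexHull ℝ (S : Set E)) 3 + 2 * fv (π '' convexHull ℝ (S : Set E)) 0 +
        (LostTri (convexHull ℝ (S : Set E)) π).ncard ∧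
    ∀ m : ℕ, m ≤ 2 →
      (((∀ e, IsFace (convexHull ℝ (S : Set E)) 1 e →
          Set.ncard {t ∈ LostTri (convexHull ℝ (S : Set E)) π | e ⊆ t} ≤ m) ∧
        10 < fv (π '' convexHull ℝ (S : Set E)) 0 + fv (π '' convexHull ℝ (S : Set E)) 3) ∨
       (∀ F, IsFace (convexHull ℝ (S : Set E)) (m + 2) F →
          nv (convexHull ℝ (S : Set E)) F ≠ m + 3)) →
      10 < fv (π '' convexHull ℝ (S : Set E)) 0 + fv (π '' convexHull ℝ (S : Set E)) 3 ∧
      (3 - (m : ℝ)) * ((fv (π '' convexHull ℝ (S : Set E)) 1 : ℝ) +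
          fv (π '' convexHull ℝ (S : Set E)) 2 - 20) <
        (27 - (m : ℝ)) * ((fv (π '' convexHull ℝ (S : Set E)) 0 : ℝ) +
          fv (π '' convexHull ℝ (S : Set E)) 3 - 10) := by
  classical
  have hS : ((S.image π : Finset E') : Set E') = π '' (S : Set E) := Finset.coe_image
  have hconv : π '' convexHull ℝ (S : Set E) = convexHull ℝ ((S.image π : Finset E') : Set E') := by
    rw [LinearMap.image_convexHull, hS]
  rw [hconv] at hP h0 h1 ⊢
  rw [interior_convexHull_nonempty_iff_affineSpan_eq_top] at hQ hP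
  obtain ⟨C, hC⟩ := exists_CP S hQ
  obtain ⟨D, hD⟩ := exists_CP (S.image π) hP
  have hpr := mk_prj hC hD hS h0 h1
  have hsm := simple_smp hC hs
  have hU : 2 ≤ Module.finrank ℝ (WithLp 2 (E × ℝ)) := by
    have := hpr.finrank_le
    rw [finrank_hm, finrank_hm] at this
    rw [finrank_hm]
    omega
  have hW : Module.finrank ℝ (WithLp 2 (E' × ℝ)) = 5 := by rw [finrank_hm, hE']
  have hmain := hpr.main hsm hW hU
  have hlost := lost_le hC hD hS hpr
  rw [finrank_hm, Nat.add_sub_cancel] at hmain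
  simp only [fv_eq hD]
  refine ⟨?_, ?_⟩
  · exact hmain.trans (by simpa using hlost)
  · intro m hm hyp
    have hlt : ∀ t ∈ CP.lostTri C D (hT π), C.Cl t ∧ dm t = 3 ∧ (C.fs C.bot t 1).card = 3 := by
      intro t ht
      rw [CP.mem_lostTri] at ht
      exact ⟨CP.fs_cl ht.1, CP.fs_dm ht.1, ht.2.2⟩
    have key : 10 < (D.fs D.bot D.V 1).card + (D.fs D.bot D.V 4).card ∧
        3 * (CP.lostTri C D (hT π)).card ≤ m * (C.fs C.bot C.V 2).card := by
      rcases hyp with ⟨hyp, h10⟩ | hyp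
      · refine ⟨h10, CP.tri_count hlt ?_⟩
        intro e he T' hT' heT
        exact lost_edge hC hD hS hpr hyp he hT' heT
      · have hno : ∀ B, C.Cl B → dm B = m + 3 → (C.fs C.bot B 1).card ≠ m + 3 := by
          intro B hB dB
          have hB' : B ∈ C.fs C.bot C.V (m + 2 + 1) := CP.fs_atom hB hB.sub dB
          have hf := isFace_toF hC hB'
          have := hyp _ hf
          rwa [nv_eq hC hf, toA_toF hC hB] at this
        refine ⟨hpr.not_simplex hsm hW hm hno, CP.tri_count hlt ?_⟩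
        intro e he T' hT' heT
        apply hsm.no_simplex hno (CP.fs_cl he) (CP.fs_dm he)
        intro t ht
        obtain ⟨g1, g2, g3⟩ := hlt t (hT' ht)
        exact ⟨g1, g2, g3, heT t ht⟩
    refine ⟨key.1, ?_⟩
    have h2 := key.2
    rw [hpr.c1] at h2
    exact hpr.fat hsm hW hm key.1 h2

end Pool.Agent.helper529_fat
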