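import Pool.Agent.helper529_fat.Main2
import Pool.Agent.helper529_fat.Polytope

set_option autoImplicit false
set_option linter.unusedSectionVars false
set_option linter.unusedVariables false

/-!
# The general inequality, for polytopes
-/

namespace Pool.Agent.helper529_fat

open Finset Pool.Agent.Helper715

/-- the pairs of edges of `Q` which have a common vertex but do not lie in a common 2-face -/
def MissingPairs {E : Type*} [NormedAddCommGroup E] [NormedSpace ℝ E] (Q : Set E) :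
    Set (Finset (Set E)) :=
  {p : Finset (Set E) | p.card = 2 ∧ (∀ e ∈ p, IsFace Q 1 e) ∧
    (∃ v, IsFace Q 0 v ∧ ∀ e ∈ p, v ⊆ e) ∧ ¬ ∃ F, IsFace Q 2 F ∧ ∀ e ∈ p, e ⊆ F}

section one

variable {E : Type*} [NormedAddCommGroup E] [InnerProductSpace ℝ E] [FiniteDimensional ℝ E]
variable {C : CP (WithLp 2 (E × ℝ))} {S : Finset E}
variable (hC : (C.V : Set (WithLp 2 (E × ℝ))) = hm '' (S : Set E))
include hC

theorem finite_missing : (MissingPairs (convexHull ℝ (S : Set E))).Finite := by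
  classical
  apply Set.Finite.subset ((finite_isFace hC 1).toFinset.powerset).finite_toSet
  intro p hp
  rw [Finset.mem_coe, Finset.mem_powerset]
  intro e he
  rw [Set.Finite.mem_toFinset]
  exact hp.2.1 e he

theorem mu_le : CP.mu C ≤ (MissingPairs (convexHull ℝ (S : Set E))).ncard := by
  classical
  have hdisj : ((C.fs C.bot C.V 1 : Finset _) : Set _).PairwiseDisjoint
      (fun v => CP.miss C v (C.fs v C.V 2)) := by
    intro v hv w hw hvw
    have hv : v ∈ C.fs C.bot C.V 1 := hv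
    have hw : w ∈ C.fs C.bot C.V 1 := hw
    rw [Function.onFun, Finset.disjoint_left]
    intro s hs hs'
    rw [CP.mem_miss] at hs hs'
    obtain ⟨p, q, hpq, rfl⟩ := Finset.card_eq_two.1 hs.1.2
    have hp := hs.1.1 (Finset.mem_insert_self p {q})
    have hq := hs.1.1 (Finset.mem_insert_of_mem (Finset.mem_singleton_self q))
    have hp' := hs'.1.1 (Finset.mem_insert_self p {q})
    have hq' := hs'.1.1 (Finset.mem_insert_of_mem (Finset.mem_singleton_self q))
    exact hpq (CP.edge_uniq (CP.fs_cl hv) (CP.fs_dm hv) (CP.fs_cl hw) (CP.fs_dm hw) hvw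
      (CP.fs_cl hp) (CP.fs_dm hp) (CP.fs_le hp) (CP.fs_le hp') (CP.fs_cl hq) (CP.fs_dm hq)
      (CP.fs_le hq) (CP.fs_le hq'))
  rw [CP.mu, ← Finset.card_biUnion hdisj]
  set M := (C.fs C.bot C.V 1).biUnion (fun v => CP.miss C v (C.fs v C.V 2)) with hM
  have hMcl : ∀ s ∈ M, ∀ e ∈ s, C.Cl e := by
    intro s hs e he
    rw [hM, Finset.mem_biUnion] at hs
    obtain ⟨v, hv, hs⟩ := hs
    rw [CP.mem_miss] at hs
    exact CP.fs_cl (hs.1.1 he)
  have hinv : ∀ s ∈ M, (s.image (toF C S)).image (toA C) = s := by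
    intro s hs
    ext e
    rw [Finset.mem_image]
    constructor
    · rintro ⟨F, hF, rfl⟩
      rw [Finset.mem_image] at hF
      obtain ⟨e, he, rfl⟩ := hF
      rw [toA_toF hC (hMcl s hs e he)]
      exact he
    · intro he
      exact ⟨toF C S e, Finset.mem_image_of_mem _ he, toA_toF hC (hMcl s hs e he)⟩
  have hinj : Set.InjOn (fun s : Finset (Finset (WithLp 2 (E × ℝ))) => s.image (toF C S))
      (M : Set _) := by
    intro s hs s' hs' hh
    have hs : s ∈ M := hs
    have hs' : s' ∈ M := hs'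
    have hh : s.image (toF C S) = s'.image (toF C S) := hh
    rw [← hinv s hs, ← hinv s' hs', hh]
  rw [← Finset.card_image_of_injOn hinj, ← Set.ncard_coe_finset]
  apply Set.ncard_le_ncard _ (finite_missing hC)
  intro p hp
  rw [Finset.mem_coe, Finset.mem_image] at hp
  obtain ⟨s, hs, rfl⟩ := hp
  have hs0 := hs
  rw [hM, Finset.mem_biUnion] at hs
  obtain ⟨v, hv, hs⟩ := hs
  rw [CP.mem_miss] at hs
  have hsinj : Set.InjOn (toF C S) (s : Set (Finset (WithLp 2 (E × ℝ)))) := by
    intro e he e' he' hee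
    rw [← toA_toF hC (hMcl s hs0 e he), ← toA_toF hC (hMcl s hs0 e' he')]
    rw [show toF C S e = toF C S e' from hee]
  have hse : ∀ e ∈ s, e ∈ C.fs C.bot C.V 2 := fun e he =>
    CP.fs_atom (CP.fs_cl (hs.1.1 he)) (CP.fs_cl (hs.1.1 he)).sub (CP.fs_dm (hs.1.1 he))
  refine ⟨?_, ?_, ?_, ?_⟩
  · have : (s.image (toF C S)).card = 2 := by
      rw [Finset.card_image_of_injOn hsinj, hs.1.2]
    exact this
  · intro e he
    obtain ⟨e', he', rfl⟩ := Finset.mem_image.1 (show e ∈ s.image (toF C S) from he)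
    exact isFace_toF (k := 1) hC (hse e' he')
  · refine ⟨toF C S v, isFace_toF (k := 0) hC hv, ?_⟩
    intro e he
    obtain ⟨e', he', rfl⟩ := Finset.mem_image.1 (show e ∈ s.image (toF C S) from he)
    exact toF_mono hC (CP.fs_le (hs.1.1 he'))
  · rintro ⟨F, hF, hFs⟩
    have hA := mem_fs_toA hC hF
    have hsub : ∀ e ∈ s, e ⊆ toA C F := by
      intro e he
      have h1 : toF C S e ⊆ F := hFs _ (Finset.mem_image_of_mem _ he)
      have h2 := isFace_toF (k := 1) hC (hse e he)
      rw [← sub_iff hC h2.1 h2.2.1 hF.1 hF.2.1, toA_toF hC (hMcl s hs0 e he)] at h1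
      exact h1
    obtain ⟨p, q, hpq, rfl⟩ := Finset.card_eq_two.1 hs.1.2
    have hvA : v ⊆ toA C F := (CP.fs_le (hs.1.1 (Finset.mem_insert_self p {q}))).trans
      (hsub p (Finset.mem_insert_self p {q}))
    apply hs.2 (toA C F) (CP.fs_top (CP.fs_cl hA) hvA (CP.fs_dm hA))
    symm
    apply Finset.eq_of_subset_of_card_le
    · intro e he
      have h1 := hs.1.1 he
      exact CP.mem_fs.2 ⟨CP.fs_cl h1, CP.fs_le h1, hsub e he, CP.fs_dm h1⟩
    · rw [CP.card_two (CP.fs_cl hv) (CP.fs_cl hA) hvA (CP.fs_dm hv) (CP.fs_dm hA),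
        Finset.card_pair hpq]

end one

/-- the general theorem for abstract Euclidean spaces -/
theorem main2 {E : Type*} [NormedAddCommGroup E] [InnerProductSpace ℝ E] [FiniteDimensional ℝ E]
    {E' : Type*} [NormedAddCommGroup E'] [InnerProductSpace ℝ E'] [FiniteDimensional ℝ E']
    (hE : 5 ≤ Module.finrank ℝ E)
    (hE' : Module.finrank ℝ E' = 4) (S : Finset E) (π : E →ₗ[ℝ] E')
    (hQ : (interior (convexHull ℝ (S : Set E))).Nonempty)
    (hP : (interior (π '' convexHull ℝ (S : Set E))).Nonempty)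
    (h0 : fv (π '' convexHull ℝ (S : Set E)) 0 = fv (convexHull ℝ (S : Set E)) 0)
    (h1 : fv (π '' convexHull ℝ (S : Set E)) 1 = fv (convexHull ℝ (S : Set E)) 1) :
    2 * fv (π '' convexHull ℝ (S : Set E)) 1 + 2 * (Module.finrank ℝ E) ^ 2 ≤
      8 * fv (π '' convexHull ℝ (S : Set E)) 3 + 4 * fv (π '' convexHull ℝ (S : Set E)) 0 +
        3 * (MissingPairs (convexHull ℝ (S : Set E))).ncard +
        2 * (LostTri (convexHull ℝ (S : Set E)) π).ncard ∧
    10 < fv (π '' convexHull ℝ (S : Set E)) 0 + fv (π '' convexHull ℝ (S : Set E)) 3 ∧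
    (∀ θ : ℝ, 0 ≤ θ → θ < 2 →
      3 * ((MissingPairs (convexHull ℝ (S : Set E))).ncard : ℝ) +
        2 * ((LostTri (convexHull ℝ (S : Set E)) π).ncard : ℝ) ≤
        θ * (fv (π '' convexHull ℝ (S : Set E)) 1 : ℝ) →
      (2 - θ) * ((fv (π '' convexHull ℝ (S : Set E)) 1 : ℝ) +
          fv (π '' convexHull ℝ (S : Set E)) 2 - 20) <
        (18 - θ) * ((fv (π '' convexHull ℝ (S : Set E)) 0 : ℝ) +
          fv (π '' convexHull ℝ (S : Set E)) 3 - 10)) ∧
    (∀ m : ℕ, m ≤ 2 → Simple (convexHull ℝ (S : Set E)) (Module.finrank ℝ E) →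
      (∀ F, IsFace (convexHull ℝ (S : Set E)) (m + 2) F →
        nv (convexHull ℝ (S : Set E)) F ≠ m + 3) →
      (3 - (m : ℝ)) * ((fv (π '' convexHull ℝ (S : Set E)) 1 : ℝ) +
          fv (π '' convexHull ℝ (S : Set E)) 2 - 20) <
        (27 - (m : ℝ)) * ((fv (π '' convexHull ℝ (S : Set E)) 0 : ℝ) +
          fv (π '' convexHull ℝ (S : Set E)) 3 - 10)) := by
  classical
  have hm3 := main hE' S π hQ hP
  have hS : ((S.image π : Finset E') : Set E') = π '' (S : Set E) := Finset.coe_image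
  have hconv : π '' convexHull ℝ (S : Set E) = convexHull ℝ ((S.image π : Finset E') : Set E') := by
    rw [LinearMap.image_convexHull, hS]
  have hpart4 : ∀ m : ℕ, m ≤ 2 → Simple (convexHull ℝ (S : Set E)) (Module.finrank ℝ E) →
      (∀ F, IsFace (convexHull ℝ (S : Set E)) (m + 2) F →
        nv (convexHull ℝ (S : Set E)) F ≠ m + 3) →
      (3 - (m : ℝ)) * ((fv (π '' convexHull ℝ (S : Set E)) 1 : ℝ) +
          fv (π '' convexHull ℝ (S : Set E)) 2 - 20) <
        (27 - (m : ℝ)) * ((fv (π '' convexHull ℝ (S : Set E)) 0 : ℝ) +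
          fv (π '' convexHull ℝ (S : Set E)) 3 - 10) := fun m hm hs hno =>
    ((hm3 hs h0 h1).2 m hm (Or.inr hno)).2
  refine ⟨?_, ?_, ?_, hpart4⟩ <;>
  · rw [hconv] at hP h0 h1 ⊢
    rw [interior_convexHull_nonempty_iff_affineSpan_eq_top] at hQ hP
    obtain ⟨C, hC⟩ := exists_CP S hQ
    obtain ⟨D, hD⟩ := exists_CP (S.image π) hP
    have hpr := mk_prj hC hD hS h0 h1
    have hU : 6 ≤ Module.finrank ℝ (WithLp 2 (E × ℝ)) := by
      rw [finrank_hm]
      omega
    have hW : Module.finrank ℝ (WithLp 2 (E' × ℝ)) = 5 := by rw [finrank_hm, hE']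
    have hmain := hpr.main_gen hW (by omega)
    have hfat := hpr.fat_gen hW hU
    have hlost := lost_le hC hD hS hpr
    have hmu := mu_le hC
    rw [finrank_hm, Nat.add_sub_cancel] at hmain
    simp only [fv_eq hD]
    first
    | (have h8 : 8 * (D.fs D.bot D.V (3 + 1)).card = 8 * (D.fs D.bot D.V 4).card := rfl
       have h9 : 4 * (D.fs D.bot D.V (0 + 1)).card = 4 * (D.fs D.bot D.V 1).card := rfl
       have h10 : 2 * (D.fs D.bot D.V (1 + 1)).card = 2 * (D.fs D.bot D.V 2).card := rfl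
       rw [h8, h9, h10]
       omega)
    | exact hfat.1
    | (intro θ hθ0 hθ2 hθ
       refine hfat.2 θ hθ0 hθ2 (le_trans ?_ hθ)
       have e1 : (CP.mu C : ℝ) ≤ ((MissingPairs (convexHull ℝ (S : Set E))).ncard : ℝ) := by
         exact_mod_cast hmu
       have e2 : ((CP.lostTri C D (hT π)).card : ℝ) ≤
           ((LostTri (convexHull ℝ (S : Set E)) π).ncard : ℝ) := by exact_mod_cast hlost
       linarith)

end Pool.Agent.helper529_fat
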