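import Pool.Agent.helper529_fat.Euler

set_option autoImplicit false
set_option linter.unusedSectionVars false
set_option linter.unusedVariables false

/-!
# Counting closed sets in intervals
-/

namespace Pool.Agent.Helper715

open Finset

variable {W : Type*} [NormedAddCommGroup W] [InnerProductSpace ℝ W] [FiniteDimensional ℝ W]

namespace CP

open scoped Classical in
/-- the closed sets of dimension `k` between `A` and `B` -/
noncomputable def fs (P : CP W) (A B : Finset W) (k : ℕ) : Finset (Finset W) :=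
  P.V.powerset.filter (fun X => P.Cl X ∧ A ⊆ X ∧ X ⊆ B ∧ dm X = k)

variable {P : CP W}

theorem mem_fs {A B X : Finset W} {k : ℕ} :
    X ∈ P.fs A B k ↔ P.Cl X ∧ A ⊆ X ∧ X ⊆ B ∧ dm X = k := by
  classical
  rw [fs, Finset.mem_filter, Finset.mem_powerset]
  exact ⟨fun h => h.2, fun h => ⟨h.1.sub, h⟩⟩

theorem Cl_inter {A B : Finset W} [DecidableEq W] (hA : P.Cl A) (hB : P.Cl B) : P.Cl (A ∩ B) := by
  refine Cl_filter hA (z := P.gs B) (fun v hv => gs_nonneg B (hA.sub hv)) (fun v => ?_)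
  rw [Finset.mem_inter]
  constructor
  · rintro ⟨h1, h2⟩; exact ⟨h1, gs_zero h2⟩
  · rintro ⟨h1, h2⟩
    refine ⟨h1, ?_⟩
    by_contra hcon
    have := gs_pos hB (hA.sub h1) hcon
    linarith

theorem fs_self_left {A B : Finset W} (hA : P.Cl A) (hAB : A ⊆ B) : P.fs A B (dm A) = {A} := by
  ext X
  rw [mem_fs, Finset.mem_singleton]
  constructor
  · rintro ⟨h1, h2, _, h4⟩
    exact (eq_of_dm_le hA h1 h2 h4.le).symm
  · rintro rfl
    exact ⟨hA, Finset.Subset.refl _, hAB, rfl⟩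

theorem fs_self_right {A B : Finset W} (hB : P.Cl B) (hAB : A ⊆ B) : P.fs A B (dm B) = {B} := by
  ext X
  rw [mem_fs, Finset.mem_singleton]
  constructor
  · rintro ⟨h1, _, h3, h4⟩
    exact eq_of_dm_le h1 hB h3 h4.ge
  · rintro rfl
    exact ⟨hB, hAB, Finset.Subset.refl _, rfl⟩

theorem euler_range {A B : Finset W} (hA : P.Cl A) (hB : P.Cl B) (hAB : A ⊆ B) {m : ℕ}
    (hm : dm B = dm A + (m + 1)) :
    ∑ k ∈ Finset.range (m + 2), (-1 : ℤ) ^ k * (P.fs A B (dm A + k)).card = 0 := by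
  classical
  have hne : A ≠ B := by rintro rfl; omega
  have h1 := euler hA hB hAB hne
  have h2 : P.NN A B (-(P.gs A)) = (Finset.range (m + 2)).biUnion (fun k => P.fs A B (dm A + k)) := by
    ext X
    rw [mem_NN_gs hA, Finset.mem_biUnion]
    constructor
    · rintro ⟨g1, g2, g3⟩
      have e1 := dm_mono g2
      have e2 := dm_mono g3
      refine ⟨dm X - dm A, Finset.mem_range.2 (by omega), mem_fs.2 ⟨g1, g2, g3, by omega⟩⟩
    · rintro ⟨k, _, hk⟩
      rw [mem_fs] at hk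
      exact ⟨hk.1, hk.2.1, hk.2.2.1⟩
  rw [h2, Finset.sum_biUnion] at h1
  · have h3 : ∀ k ∈ Finset.range (m + 2), ∑ X ∈ P.fs A B (dm A + k), (-1 : ℤ) ^ dm X =
        (-1) ^ dm A * ((-1 : ℤ) ^ k * (P.fs A B (dm A + k)).card) := by
      intro k _
      rw [Finset.sum_congr rfl (fun X hX => by rw [(mem_fs.1 hX).2.2.2]), Finset.sum_const, pow_add,
        nsmul_eq_mul]
      ring
    rw [Finset.sum_congr rfl h3, ← Finset.mul_sum] at h1
    rcases mul_eq_zero.1 h1 with h | h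
    · exact absurd h (pow_ne_zero _ (by norm_num))
    · exact h
  · intro k _ l _ hkl
    rw [Function.onFun, Finset.disjoint_left]
    intro X hX hX'
    rw [mem_fs] at hX hX'
    omega

theorem euler2 {A B : Finset W} (hA : P.Cl A) (hB : P.Cl B) (hAB : A ⊆ B)
    (hm : dm B = dm A + 2) : (P.fs A B (dm A + 1)).card = 2 := by
  have h := euler_range hA hB hAB (m := 1) hm
  simp only [Finset.sum_range_succ, Finset.sum_range_zero, add_zero] at h
  rw [fs_self_left hA hAB, ← hm, fs_self_right hB hAB] at h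
  simp at h
  omega

theorem euler3 {A B : Finset W} (hA : P.Cl A) (hB : P.Cl B) (hAB : A ⊆ B)
    (hm : dm B = dm A + 3) : (P.fs A B (dm A + 1)).card = (P.fs A B (dm A + 2)).card := by
  have h := euler_range hA hB hAB (m := 2) hm
  simp only [Finset.sum_range_succ, Finset.sum_range_zero, add_zero] at h
  rw [fs_self_left hA hAB, ← hm, fs_self_right hB hAB] at h
  simp at h
  omega

theorem euler4 {A B : Finset W} (hA : P.Cl A) (hB : P.Cl B) (hAB : A ⊆ B)
    (hm : dm B = dm A + 4) : (P.fs A B (dm A + 1)).card + (P.fs A B (dm A + 3)).card =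
      (P.fs A B (dm A + 2)).card + 2 := by
  have h := euler_range hA hB hAB (m := 3) hm
  simp only [Finset.sum_range_succ, Finset.sum_range_zero, add_zero] at h
  rw [fs_self_left hA hAB, ← hm, fs_self_right hB hAB] at h
  simp at h
  omega

theorem euler5 {A B : Finset W} (hA : P.Cl A) (hB : P.Cl B) (hAB : A ⊆ B)
    (hm : dm B = dm A + 5) : (P.fs A B (dm A + 1)).card + (P.fs A B (dm A + 3)).card =
      (P.fs A B (dm A + 2)).card + (P.fs A B (dm A + 4)).card := by
  have h := euler_range hA hB hAB (m := 4) hm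
  simp only [Finset.sum_range_succ, Finset.sum_range_zero, add_zero] at h
  rw [fs_self_left hA hAB, ← hm, fs_self_right hB hAB] at h
  simp at h
  omega

/-- double counting of incident pairs -/
theorem double_count {A B : Finset W} (j k : ℕ) :
    ∑ X ∈ P.fs A B j, (P.fs X B k).card = ∑ Y ∈ P.fs A B k, (P.fs A Y j).card := by
  classical
  have h := Finset.sum_card_bipartiteAbove_eq_sum_card_bipartiteBelow (s := P.fs A B j)
    (t := P.fs A B k) (fun X Y : Finset W => X ⊆ Y)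
  have e1 : ∀ X ∈ P.fs A B j, (Finset.bipartiteAbove (fun X Y : Finset W => X ⊆ Y) (P.fs A B k) X) =
      P.fs X B k := by
    intro X hX
    ext Y
    rw [Finset.mem_bipartiteAbove, mem_fs, mem_fs]
    rw [mem_fs] at hX
    constructor
    · rintro ⟨⟨h1, h2, h3, h4⟩, h5⟩; exact ⟨h1, h5, h3, h4⟩
    · rintro ⟨h1, h2, h3, h4⟩; exact ⟨⟨h1, hX.2.1.trans h2, h3, h4⟩, h2⟩
  have e2 : ∀ Y ∈ P.fs A B k, (Finset.bipartiteBelow (fun X Y : Finset W => X ⊆ Y) (P.fs A B j) Y) =
      P.fs A Y j := by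
    intro Y hY
    ext X
    rw [Finset.mem_bipartiteBelow, mem_fs, mem_fs]
    rw [mem_fs] at hY
    constructor
    · rintro ⟨⟨h1, h2, h3, h4⟩, h5⟩; exact ⟨h1, h2, h5, h4⟩
    · rintro ⟨h1, h2, h3, h4⟩; exact ⟨⟨h1, h2, h3.trans hY.2.2.1, h4⟩, h3⟩
  have g1 : ∑ X ∈ P.fs A B j, (Finset.bipartiteAbove (fun X Y : Finset W => X ⊆ Y) (P.fs A B k) X).card =
      ∑ X ∈ P.fs A B j, (P.fs X B k).card := Finset.sum_congr rfl (fun X hX => by rw [e1 X hX])
  have g2 : ∑ Y ∈ P.fs A B k, (Finset.bipartiteBelow (fun X Y : Finset W => X ⊆ Y) (P.fs A B j) Y).card =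
      ∑ Y ∈ P.fs A B k, (P.fs A Y j).card := Finset.sum_congr rfl (fun Y hY => by rw [e2 Y hY])
  rw [← g1, ← g2]
  exact h

/-- a larger closed set contains more covers -/
theorem card_cov_lt {A B C : Finset W} (hA : P.Cl A) (hB : P.Cl B) (hC : P.Cl C) (hAB : A ⊆ B)
    (hBC : B ⊆ C) (hne : B ≠ C) :
    (P.fs A B (dm A + 1)).card + 1 ≤ (P.fs A C (dm A + 1)).card := by
  classical
  obtain ⟨c, hc, hcB⟩ := exists_not_mem hB hC hBC (dm_lt hB hC hBC hne)
  obtain ⟨X, hX, hAX, hXC, hdX, x, hx, hx0⟩ := cover_up hA hC (hAB.trans hBC) (y := P.gs B)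
    (fun a ha => gs_zero (hAB ha)) ⟨c, hc, gs_pos hB (hC.sub hc) hcB⟩
  have hXB : X ∉ P.fs A B (dm A + 1) := by
    rw [mem_fs]
    rintro ⟨_, _, h3, _⟩
    rw [gs_zero (h3 hx)] at hx0
    exact lt_irrefl _ hx0
  rw [← Finset.card_insert_of_notMem hXB]
  apply Finset.card_le_card
  intro Y hY
  rw [Finset.mem_insert] at hY
  rcases hY with rfl | hY
  · exact mem_fs.2 ⟨hX, hAX, hXC, hdX⟩
  · rw [mem_fs] at hY ⊢
    exact ⟨hY.1, hY.2.1, hY.2.2.1.trans hBC, hY.2.2.2⟩

theorem card_cov_add {A B C : Finset W} (hA : P.Cl A) (hB : P.Cl B) (hC : P.Cl C) (hAB : A ⊆ B)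
    (hBC : B ⊆ C) : (P.fs A B (dm A + 1)).card + (dm C - dm B) ≤ (P.fs A C (dm A + 1)).card := by
  induction hn : dm C - dm B generalizing B with
  | zero =>
    rw [add_zero]
    apply Finset.card_le_card
    intro Y hY
    rw [mem_fs] at hY ⊢
    exact ⟨hY.1, hY.2.1, hY.2.2.1.trans hBC, hY.2.2.2⟩
  | succ n ih =>
    have hne : B ≠ C := by rintro rfl; omega
    obtain ⟨D, hD, hBD, hDC, hdD⟩ := exists_cover hB hC hBC hne
    have h1 := ih hD (hAB.trans hBD) hDC (by omega)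
    have h2 := card_cov_lt hA hB hD hAB hBD (by rintro rfl; omega)
    omega

theorem fs_empty_of_lt {A B : Finset W} {k : ℕ} (h : dm B < k) : P.fs A B k = ∅ := by
  rw [Finset.eq_empty_iff_forall_notMem]
  intro X hX
  rw [mem_fs] at hX
  have := dm_mono hX.2.2.1
  omega

theorem card_cov_ge {A B : Finset W} (hA : P.Cl A) (hB : P.Cl B) (hAB : A ⊆ B) :
    dm B - dm A ≤ (P.fs A B (dm A + 1)).card := by
  have h := card_cov_add hA hA hB (Finset.Subset.refl _) hAB
  rw [fs_empty_of_lt (by omega)] at h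
  simpa using h

/-- a closed set is determined by its atoms: it is contained in every closed set that contains its
atoms -/
theorem sub_of_atoms {X Y : Finset W} (hX : P.Cl X) (hY : P.Cl Y)
    (h : ∀ v ∈ P.fs P.bot X 1, v ⊆ Y) : X ⊆ Y := by
  by_contra hcon
  obtain ⟨x, hx, hxY⟩ := Finset.not_subset.1 hcon
  obtain ⟨C, hC, h1, h2, h3, c, hc, hc0⟩ := cover_up bot_cl hX (bot_le hX) (y := P.gs Y)
    (inner_bot _) ⟨x, hx, gs_pos hY (hX.sub hx) hxY⟩
  rw [dm_bot, zero_add] at h3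
  have := h C (mem_fs.2 ⟨hC, h1, h2, h3⟩) hc
  rw [gs_zero this] at hc0
  exact lt_irrefl _ hc0

end CP
end Pool.Agent.Helper715
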