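import Pool.Agent.Helper715.Sal2

set_option autoImplicit false
set_option linter.unusedSectionVars false
set_option linter.unusedVariables false

/-!
# Euler's relation for the intervals of the face lattice of a finitely generated cone
-/

namespace Pool.Agent.Helper715

open Finset

variable {W : Type*} [NormedAddCommGroup W] [InnerProductSpace ℝ W] [FiniteDimensional ℝ W]

namespace CP

variable {P : CP W}

/-- a small change of a functional makes the ratios on the covers distinct and keeps the signs -/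
theorem exists_perturb {A B : Finset W} (hA : P.Cl A) (hB : P.Cl B) {z : W}
    (hz : ∀ a ∈ A, inner ℝ z a = 0) (hne : ∀ Y, P.Cov A B Y → ∃ x ∈ Y, inner ℝ z x ≠ 0) :
    ∃ z' : W, ∃ r : Finset W → ℝ, (∀ a ∈ A, inner ℝ z' a = 0) ∧
      (∀ Y, P.Cov A B Y → ∀ x ∈ Y, inner ℝ z' x = r Y * inner ℝ (P.gs A) x) ∧
      (∀ Y, P.Cov A B Y → (r Y < 0 ↔ ∃ x ∈ Y, inner ℝ z x < 0)) ∧
      (∀ Y, P.Cov A B Y → r Y ≠ 0) ∧
      (∀ Y Y', P.Cov A B Y → P.Cov A B Y' → r Y = r Y' → Y = Y') := by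
  classical
  -- the finite type of covers
  let T : Type _ := {Y : Finset W // Y ∈ P.V.powerset ∧ P.Cov A B Y}
  have hTfin : Finite T := by
    apply Finite.of_injective (fun Y : T => (⟨Y.1, Y.2.1⟩ : {x // x ∈ P.V.powerset}))
    intro Y Y' h
    exact Subtype.ext (congrArg (fun x => x.1) h)
  have hmk : ∀ Y, P.Cov A B Y → Y ∈ P.V.powerset := fun Y hY => Finset.mem_powerset.2 hY.cl.sub
  set η := P.gs A with hη
  choose x hx hxA using fun Y : T => Cov.exists_nm hA Y.2.2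
  have hpos : ∀ Y : T, 0 < inner ℝ η (x Y) := fun Y => gs_pos hA (Y.2.2.cl.sub (hx Y)) (hxA Y)
  -- the difference vectors
  let w : {p : T × T // p.1 ≠ p.2} → W := fun p =>
    (inner ℝ η (x p.1.2) : ℝ) • x p.1.1 - (inner ℝ η (x p.1.1) : ℝ) • x p.1.2
  have hw : ∀ p, w p ∉ Submodule.span ℝ (A : Set W) := by
    rintro ⟨⟨Y, Y'⟩, hYY⟩ h0
    apply hYY
    simp only [w] at h0
    have h1 : x Y ∈ Y'.1 := by
      apply mem_of_mem_span Y'.2.2.cl (Y.2.2.cl.sub (hx Y))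
      have h2 : x Y = (inner ℝ η (x Y') : ℝ)⁻¹ •
          (((inner ℝ η (x Y') : ℝ) • x Y - (inner ℝ η (x Y) : ℝ) • x Y') +
            (inner ℝ η (x Y) : ℝ) • x Y') := by
        rw [sub_add_cancel, smul_smul, inv_mul_cancel₀ (hpos Y').ne', one_smul]
      rw [h2]
      apply Submodule.smul_mem
      apply Submodule.add_mem
      · exact Submodule.span_mono (by exact_mod_cast Y'.2.2.le) h0
      · exact Submodule.smul_mem _ _ (Submodule.subset_span (hx Y'))
    apply Subtype.ext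
    exact cover_eq hA Y.2.2.cl Y'.2.2.cl Y.2.2.le Y'.2.2.le Y.2.2.dim Y'.2.2.dim (hx Y) (hxA Y) h1
  set K : Submodule ℝ W := (Submodule.span ℝ (A : Set W))ᗮ with hK
  obtain ⟨u, hu⟩ := Submodule.exists_forall_notMem_of_forall_ne_top
    (fun p : {p : T × T // p.1 ≠ p.2} => (ℝ ∙ w p)ᗮ.comap K.subtype) (by
      intro p htop
      apply hw p
      rw [← Submodule.orthogonal_orthogonal (Submodule.span ℝ (A : Set W))]
      rw [Submodule.mem_orthogonal']
      intro v hv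
      have h1 : (⟨v, hv⟩ : K) ∈ (ℝ ∙ w p)ᗮ.comap K.subtype := by rw [htop]; trivial
      rw [Submodule.mem_comap, Submodule.mem_orthogonal_singleton_iff_inner_right] at h1
      exact h1)
  have huA : ∀ a ∈ A, inner ℝ (u : W) a = 0 := mem_orth.1 u.2
  have hratz : ∀ Y : T, ∃ c : ℝ, ∀ v ∈ Y.1, inner ℝ z v = c * inner ℝ η v := fun Y =>
    exists_ratio hA Y.2.2 hz
  have hratu : ∀ Y : T, ∃ c : ℝ, ∀ v ∈ Y.1, inner ℝ (u : W) v = c * inner ℝ η v := fun Y =>
    exists_ratio hA Y.2.2 huA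
  choose a ha using hratz
  choose b hb using hratu
  have ha0 : ∀ Y : T, a Y ≠ 0 := by
    intro Y h0
    obtain ⟨v, hv, hvne⟩ := hne Y.1 Y.2.2
    rw [ha Y v hv, h0, zero_mul] at hvne
    exact hvne rfl
  have hb' : ∀ Y Y' : T, Y ≠ Y' → b Y ≠ b Y' := by
    intro Y Y' hYY hbb
    apply hu ⟨(Y, Y'), hYY⟩
    rw [Submodule.mem_comap, Submodule.mem_orthogonal_singleton_iff_inner_right]
    simp only [w, Submodule.coe_subtype]
    rw [real_inner_comm, inner_sub_right, real_inner_smul_right, real_inner_smul_right, hb Y _ (hx Y),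
      hb Y' _ (hx Y'), hbb]
    ring
  -- choice of the small number
  have hev : ∀ᶠ e : ℝ in nhdsWithin 0 (Set.Ioi 0), (∀ Y : T, (a Y + e * b Y < 0 ↔ a Y < 0) ∧
      a Y + e * b Y ≠ 0) ∧ ∀ p : {p : T × T // p.1 ≠ p.2},
        a p.1.1 + e * b p.1.1 ≠ a p.1.2 + e * b p.1.2 := by
    have hcont : ∀ c d : ℝ, Filter.Tendsto (fun e : ℝ => c + e * d) (nhdsWithin 0 (Set.Ioi 0))
        (nhds c) := by
      intro c d
      have h1 : Filter.Tendsto (fun e : ℝ => c + e * d) (nhds 0) (nhds (c + 0 * d)) :=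
        (continuous_const.add (continuous_id.mul continuous_const)).tendsto 0
      rw [zero_mul, add_zero] at h1
      exact h1.mono_left nhdsWithin_le_nhds
    apply Filter.Eventually.and
    · rw [Filter.eventually_all]
      intro Y
      rcases lt_or_gt_of_ne (ha0 Y) with h | h
      · filter_upwards [(hcont (a Y) (b Y)).eventually_lt_const h] with e he
        exact ⟨⟨fun _ => h, fun _ => he⟩, he.ne⟩
      · filter_upwards [(hcont (a Y) (b Y)).eventually_const_lt h] with e he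
        exact ⟨⟨fun h' => absurd h' (not_lt.2 he.le), fun h' => absurd h' (not_lt.2 h.le)⟩, he.ne'⟩
    · rw [Filter.eventually_all]
      intro p
      by_cases haa : a p.1.1 = a p.1.2
      · filter_upwards [self_mem_nhdsWithin] with e he h
        rw [haa] at h
        have h1 : e * b p.1.1 = e * b p.1.2 := by linarith
        exact hb' _ _ p.2 (mul_left_cancel₀ (ne_of_gt he) h1)
      · have h1 := (hcont (a p.1.1 - a p.1.2) (b p.1.1 - b p.1.2)).eventually_ne (sub_ne_zero.2 haa)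
        filter_upwards [h1] with e he h
        apply he
        linear_combination h
  obtain ⟨e, he1, he2⟩ := hev.exists
  set r : Finset W → ℝ := fun Y => if h : Y ∈ P.V.powerset ∧ P.Cov A B Y then
    a ⟨Y, h⟩ + e * b ⟨Y, h⟩ else 0 with hr
  have hrv : ∀ Y (h : Y ∈ P.V.powerset ∧ P.Cov A B Y), r Y = a ⟨Y, h⟩ + e * b ⟨Y, h⟩ :=
    fun Y h => dif_pos h
  refine ⟨z + e • (u : W), r, ?_, ?_, ?_, ?_, ?_⟩
  · intro v hv
    rw [inner_add_left, real_inner_smul_left, hz v hv, huA v hv]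
    simp
  · intro Y hY v hv
    have hYT : Y ∈ P.V.powerset ∧ P.Cov A B Y := ⟨hmk Y hY, hY⟩
    rw [hrv Y hYT, inner_add_left, real_inner_smul_left, ha ⟨Y, hYT⟩ v hv, hb ⟨Y, hYT⟩ v hv]
    ring
  · intro Y hY
    have hYT : Y ∈ P.V.powerset ∧ P.Cov A B Y := ⟨hmk Y hY, hY⟩
    rw [hrv Y hYT, (he1 ⟨Y, hYT⟩).1]
    constructor
    · intro h
      refine ⟨x ⟨Y, hYT⟩, hx ⟨Y, hYT⟩, ?_⟩
      rw [ha ⟨Y, hYT⟩ _ (hx ⟨Y, hYT⟩)]
      exact mul_neg_of_neg_of_pos h (hpos _)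
    · rintro ⟨v, hv, hv0⟩
      rw [ha ⟨Y, hYT⟩ v hv] at hv0
      by_contra hcon
      push Not at hcon
      have := mul_nonneg hcon (gs_nonneg (P := P) A (hY.cl.sub hv))
      linarith
  · intro Y hY
    have hYT : Y ∈ P.V.powerset ∧ P.Cov A B Y := ⟨hmk Y hY, hY⟩
    rw [hrv Y hYT]
    exact (he1 ⟨Y, hYT⟩).2
  · intro Y Y' hY hY' h
    have hYT : Y ∈ P.V.powerset ∧ P.Cov A B Y := ⟨hmk Y hY, hY⟩
    have hYT' : Y' ∈ P.V.powerset ∧ P.Cov A B Y' := ⟨hmk Y' hY', hY'⟩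
    rw [hrv Y hYT, hrv Y' hYT'] at h
    by_contra hcon
    exact he2 ⟨(⟨Y, hYT⟩, ⟨Y', hYT'⟩), fun h' => hcon (congrArg Subtype.val h')⟩ h

open scoped Classical in
/-- the closed sets between `A` and `B` all of whose covers of `A` are negative under `z` -/
noncomputable def NN (P : CP W) (A B : Finset W) (z : W) : Finset (Finset W) :=
  P.V.powerset.filter (fun X => P.Cl X ∧ A ⊆ X ∧ X ⊆ B ∧
    ∀ Y, P.Cov A X Y → ∃ x ∈ Y, inner ℝ z x < 0)

theorem mem_NN {A B X : Finset W} {z : W} : X ∈ P.NN A B z ↔ P.Cl X ∧ A ⊆ X ∧ X ⊆ B ∧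
    ∀ Y, P.Cov A X Y → ∃ x ∈ Y, inner ℝ z x < 0 := by
  classical
  rw [NN, Finset.mem_filter, Finset.mem_powerset]
  exact ⟨fun h => h.2, fun h => ⟨h.1.sub, h⟩⟩

theorem not_cov_self {A Y : Finset W} (h : P.Cov A A Y) : False := by
  have h1 := dm_mono h.ge
  rw [h.dim] at h1
  omega

/-- a cover of a closed set inside of an interval of length two, and the other one -/
theorem other_cov {A D Y : Finset W} (hA : P.Cl A) (hD : P.Cl D) (hd : dm D = dm A + 2)
    (hY : P.Cov A D Y) : ∃ Y', P.Cov A D Y' ∧ Y' ≠ Y ∧ ∀ Z, P.Cov A D Z → Z = Y ∨ Z = Y' := by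
  obtain ⟨C1, C2, hne, h1, h2, h3⟩ := diamond hA hD (hY.le.trans hY.ge) hd
  rcases h3 Y hY.cl hY.le hY.ge hY.dim with h | h
  · refine ⟨C2, h2, ?_, fun Z hZ => ?_⟩
    · rw [h]; exact hne.symm
    · rw [h]; exact h3 Z hZ.cl hZ.le hZ.ge hZ.dim
  · refine ⟨C1, h1, ?_, fun Z hZ => ?_⟩
    · rw [h]; exact hne
    · rw [h]; exact (h3 Z hZ.cl hZ.le hZ.ge hZ.dim).symm

theorem NN_sum (m : ℕ) : ∀ (A B : Finset W) (z : W), P.Cl A → P.Cl B → A ⊆ B →
    dm B = dm A + m → (∀ a ∈ A, inner ℝ z a = 0) →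
    (∀ Y, P.Cov A B Y → ∃ x ∈ Y, inner ℝ z x ≠ 0) →
    ((∃ Y, P.Cov A B Y ∧ ∃ x ∈ Y, inner ℝ z x < 0) → ∑ X ∈ P.NN A B z, (-1 : ℤ) ^ dm X = 0) ∧
    ((¬ ∃ Y, P.Cov A B Y ∧ ∃ x ∈ Y, inner ℝ z x < 0) →
      ∑ X ∈ P.NN A B z, (-1 : ℤ) ^ dm X = (-1) ^ dm A) := by
  classical
  induction m with
  | zero =>
    intro A B z hA hB hAB hd hz hne
    have hEq : A = B := eq_of_dm_le hA hB hAB (by omega)
    subst hEq
    refine ⟨?_, fun _ => ?_⟩
    · rintro ⟨Y, hY, _⟩
      exact (not_cov_self hY).elim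
    · have h1 : P.NN A A z = {A} := by
        ext X
        rw [mem_NN, Finset.mem_singleton]
        constructor
        · rintro ⟨_, h2, h3, _⟩
          exact Finset.Subset.antisymm h3 h2
        · rintro rfl
          exact ⟨hA, Finset.Subset.refl _, Finset.Subset.refl _, fun Y hY => (not_cov_self hY).elim⟩
      rw [h1, Finset.sum_singleton]
  | succ m ih =>
    intro A B z hA hB hAB hd hz hne
    -- the closed sets which are not negative
    have hneg_of : ∀ X ∈ P.NN A B z, X ≠ A → ∃ Y, P.Cov A X Y ∧ ∃ x ∈ Y, inner ℝ z x < 0 := by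
      intro X hX hXA
      rw [mem_NN] at hX
      obtain ⟨Y, hY, hAY, hYX, hdY⟩ := exists_cover hA hX.1 hX.2.1 (Ne.symm hXA)
      exact ⟨Y, ⟨hY, hAY, hYX, hdY⟩, hX.2.2.2 Y ⟨hY, hAY, hYX, hdY⟩⟩
    have hAmem : A ∈ P.NN A B z := by
      rw [mem_NN]
      exact ⟨hA, Finset.Subset.refl _, hAB, fun Y hY => (not_cov_self hY).elim⟩
    refine ⟨fun hex => ?_, fun hex => ?_⟩
    swap
    · have h1 : P.NN A B z = {A} := by
        ext X
        rw [Finset.mem_singleton]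
        constructor
        · intro hX
          by_contra hXA
          obtain ⟨Y, hY, hYn⟩ := hneg_of X hX hXA
          exact hex ⟨Y, hY.mono (mem_NN.1 hX).2.2.1, hYn⟩
        · rintro rfl
          exact hAmem
      rw [h1, Finset.sum_singleton]
    -- perturbation
    obtain ⟨z', r, hz', hr, hrneg, hr0, hrinj⟩ := exists_perturb hA hB hz hne
    have hNN : ∀ X, X ∈ P.NN A B z ↔ P.Cl X ∧ A ⊆ X ∧ X ⊆ B ∧ ∀ Y, P.Cov A X Y → r Y < 0 := by
      intro X
      rw [mem_NN]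
      constructor
      · rintro ⟨h1, h2, h3, h4⟩
        exact ⟨h1, h2, h3, fun Y hY => (hrneg Y (hY.mono h3)).2 (h4 Y hY)⟩
      · rintro ⟨h1, h2, h3, h4⟩
        exact ⟨h1, h2, h3, fun Y hY => (hrneg Y (hY.mono h3)).1 (h4 Y hY)⟩
    -- the negative covers
    set T : Finset (Finset W) := P.V.powerset.filter (fun Y => P.Cov A B Y ∧ r Y < 0) with hT
    have memT : ∀ Y, Y ∈ T ↔ P.Cov A B Y ∧ r Y < 0 := by
      intro Y
      rw [hT, Finset.mem_filter, Finset.mem_powerset]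
      exact ⟨fun h => h.2, fun h => ⟨h.1.cl.sub, h⟩⟩
    -- the functional at a cover
    set zz : Finset W → W := fun Y => z' - r Y • P.gs A with hzz
    have zz_eval : ∀ Y Y', P.Cov A B Y' → ∀ x ∈ Y', inner ℝ (zz Y) x = (r Y' - r Y) * inner ℝ (P.gs A) x := by
      intro Y Y' hY' x hx
      rw [hzz]
      simp only
      rw [inner_sub_left, real_inner_smul_left, hr Y' hY' x hx]
      ring
    have zz_A : ∀ Y, ∀ a ∈ A, inner ℝ (zz Y) a = 0 := by
      intro Y a ha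
      rw [hzz]
      simp only
      rw [inner_sub_left, real_inner_smul_left, hz' a ha, gs_zero ha]
      simp
    have zz_self : ∀ Y, P.Cov A B Y → ∀ x ∈ Y, inner ℝ (zz Y) x = 0 := by
      intro Y hY x hx
      rw [zz_eval Y Y hY x hx, sub_self, zero_mul]
    have negcov : ∀ Y Y', P.Cov A B Y' → (r Y' < r Y ↔ ∃ x ∈ Y', inner ℝ (zz Y) x < 0) := by
      intro Y Y' hY'
      constructor
      · intro h
        obtain ⟨x, hx, hxA⟩ := hY'.exists_nm hA
        refine ⟨x, hx, ?_⟩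
        rw [zz_eval Y Y' hY' x hx]
        exact mul_neg_of_neg_of_pos (by linarith) (gs_pos hA (hY'.cl.sub hx) hxA)
      · rintro ⟨x, hx, hx0⟩
        rw [zz_eval Y Y' hY' x hx] at hx0
        by_contra hcon
        push Not at hcon
        have := mul_nonneg (sub_nonneg.2 hcon) (gs_nonneg (P := P) A (hY'.cl.sub hx))
        linarith
    have poscov : ∀ Y Y', P.Cov A B Y' → (r Y < r Y' ↔ ∃ x ∈ Y', 0 < inner ℝ (zz Y) x) := by
      intro Y Y' hY'
      constructor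
      · intro h
        obtain ⟨x, hx, hxA⟩ := hY'.exists_nm hA
        refine ⟨x, hx, ?_⟩
        rw [zz_eval Y Y' hY' x hx]
        exact mul_pos (by linarith) (gs_pos hA (hY'.cl.sub hx) hxA)
      · rintro ⟨x, hx, hx0⟩
        rw [zz_eval Y Y' hY' x hx] at hx0
        by_contra hcon
        push Not at hcon
        have := mul_nonneg (sub_nonneg.2 hcon) (gs_nonneg (P := P) A (hY'.cl.sub hx))
        linarith
    -- signs on the covers of a cover
    have sgn : ∀ Y, P.Cov A B Y → ∀ D, P.Cov Y B D → ∃ Y', P.Cov A D Y' ∧ Y' ≠ Y ∧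
        (∀ Z, P.Cov A D Z → Z = Y ∨ Z = Y') ∧
        (r Y' < r Y → ∀ x ∈ D, inner ℝ (zz Y) x ≤ 0) ∧ (r Y < r Y' → ∀ x ∈ D, 0 ≤ inner ℝ (zz Y) x) := by
      intro Y hY D hD
      have hYD : P.Cov A D Y := ⟨hY.cl, hY.le, hD.le, hY.dim⟩
      obtain ⟨Y', h1, h2, h3⟩ := other_cov hA hD.cl (by rw [hD.dim, hY.dim]) hYD
      obtain ⟨c, hc⟩ := exists_ratio hY.cl hD (zz_self Y hY)
      have hY'B := h1.mono hD.ge
      refine ⟨Y', h1, h2, h3, fun h x hx => ?_, fun h x hx => ?_⟩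
      · obtain ⟨w, hw, hw0⟩ := (negcov Y Y' hY'B).1 h
        rw [hc w (h1.ge hw)] at hw0
        rw [hc x hx]
        have g1 := gs_nonneg (P := P) Y (hD.cl.sub (h1.ge hw))
        have g2 := gs_nonneg (P := P) Y (hD.cl.sub hx)
        have : c < 0 := by
          by_contra hcon
          push Not at hcon
          have := mul_nonneg hcon g1
          linarith
        nlinarith
      · obtain ⟨w, hw, hw0⟩ := (poscov Y Y' hY'B).1 h
        rw [hc w (h1.ge hw)] at hw0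
        rw [hc x hx]
        have g1 := gs_nonneg (P := P) Y (hD.cl.sub (h1.ge hw))
        have g2 := gs_nonneg (P := P) Y (hD.cl.sub hx)
        have : 0 < c := by
          by_contra hcon
          push Not at hcon
          have := mul_nonneg (neg_nonneg.2 hcon) g1
          linarith
        exact mul_nonneg this.le g2
    -- the class of a cover
    have cls : ∀ Y ∈ T, ∀ X, X ∈ P.NN Y B (zz Y) ↔ X ∈ P.NN A B z ∧ P.Cov A X Y ∧
        ∀ Y', P.Cov A X Y' → r Y' ≤ r Y := by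
      intro Y hYT X
      obtain ⟨hY, hYneg⟩ := (memT Y).1 hYT
      rw [hNN, mem_NN]
      constructor
      · rintro ⟨h1, h2, h3, h4⟩
        have key : ∀ Y', P.Cov A X Y' → r Y' ≤ r Y := by
          intro Y' hY'
          by_contra hcon
          push Not at hcon
          obtain ⟨x, hx, hx0⟩ := (poscov Y Y' (hY'.mono h3)).1 hcon
          obtain ⟨D, hD, hYD, hDX, hdD, x', hx', hx'0⟩ := cover_up hY.cl h1 h2 (zz_self Y hY)
            ⟨x, hY'.ge hx, hx0⟩
          have hDc : P.Cov Y X D := ⟨hD, hYD, hDX, hdD⟩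
          obtain ⟨x'', hx'', hx''0⟩ := h4 D hDc
          obtain ⟨Z, hZ1, hZ2, hZ3, hZ4, hZ5⟩ := sgn Y hY D (hDc.mono h3)
          have hZB : P.Cov A B Z := hZ1.mono (hDX.trans h3)
          rcases lt_trichotomy (r Z) (r Y) with h | h | h
          · linarith [hZ4 h x' hx']
          · exact hZ2 (hrinj _ _ hZB hY h)
          · linarith [hZ5 h x'' hx'']
        exact ⟨⟨h1, hY.le.trans h2, h3, fun Y' hY' => lt_of_le_of_lt (key Y' hY') hYneg⟩,
          ⟨hY.cl, hY.le, h2, hY.dim⟩, key⟩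
      · rintro ⟨⟨h1, h2, h3, h4⟩, h5, h6⟩
        refine ⟨h1, h5.ge, h3, fun D hD => ?_⟩
        obtain ⟨Z, hZ1, hZ2, hZ3, hZ4, hZ5⟩ := sgn Y hY D (hD.mono h3)
        have hZB : P.Cov A B Z := hZ1.mono (hD.ge.trans h3)
        have hlt : r Z < r Y := lt_of_le_of_ne (h6 Z (hZ1.mono hD.ge))
          (fun h => hZ2 (hrinj _ _ hZB hY h))
        obtain ⟨x, hx, hx0⟩ := (negcov Y Z hZB).1 hlt
        exact ⟨x, hZ1.ge hx, hx0⟩
    -- the top cover of a closed set
    have top_ex : ∀ X ∈ P.NN A B z, X ≠ A → ∃ Y ∈ T, P.Cov A X Y ∧ ∀ Y', P.Cov A X Y' → r Y' ≤ r Y := by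
      intro X hX hXA
      obtain ⟨h1, h2, h3, h4⟩ := (hNN X).1 hX
      set U : Finset (Finset W) := P.V.powerset.filter (fun Y => P.Cov A X Y) with hU
      have memU : ∀ Y, Y ∈ U ↔ P.Cov A X Y := by
        intro Y
        rw [hU, Finset.mem_filter, Finset.mem_powerset]
        exact ⟨fun h => h.2, fun h => ⟨h.cl.sub, h⟩⟩
      obtain ⟨Y0, hY0, _⟩ := hneg_of X hX hXA
      obtain ⟨Y, hYU, hmax⟩ := U.exists_max_image r ⟨Y0, (memU Y0).2 hY0⟩
      rw [memU] at hYU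
      exact ⟨Y, (memT Y).2 ⟨hYU.mono h3, h4 Y hYU⟩, hYU, fun Y' hY' => hmax Y' ((memU Y').2 hY')⟩
    -- decomposition
    have hdec : (P.NN A B z).erase A = T.biUnion (fun Y => P.NN Y B (zz Y)) := by
      ext X
      rw [Finset.mem_erase, Finset.mem_biUnion]
      constructor
      · rintro ⟨hXA, hX⟩
        obtain ⟨Y, hY, h1, h2⟩ := top_ex X hX hXA
        exact ⟨Y, hY, (cls Y hY X).2 ⟨hX, h1, h2⟩⟩
      · rintro ⟨Y, hY, hX⟩
        obtain ⟨h1, h2, h3⟩ := (cls Y hY X).1 hX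
        refine ⟨?_, h1⟩
        rintro rfl
        exact not_cov_self h2
    have hdis : (T : Set (Finset W)).PairwiseDisjoint (fun Y => P.NN Y B (zz Y)) := by
      intro Y hY Y' hY' hYY
      rw [Function.onFun, Finset.disjoint_left]
      intro X hX hX'
      obtain ⟨h1, h2, h3⟩ := (cls Y hY X).1 hX
      obtain ⟨h1', h2', h3'⟩ := (cls Y' hY' X).1 hX'
      apply hYY
      exact hrinj Y Y' ((memT Y).1 hY).1 ((memT Y').1 hY').1 (le_antisymm (h3' Y h2) (h3 Y' h2'))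
    -- the minimal cover
    have hTne : T.Nonempty := by
      obtain ⟨Y, hY, hYn⟩ := hex
      exact ⟨Y, (memT Y).2 ⟨hY, (hrneg Y hY).2 hYn⟩⟩
    obtain ⟨Y0, hY0, hmin⟩ := T.exists_min_image r hTne
    have hY0c := ((memT Y0).1 hY0).1
    have hY0n := ((memT Y0).1 hY0).2
    have hmin' : ∀ Y, P.Cov A B Y → r Y0 ≤ r Y := by
      intro Y hY
      rcases lt_or_ge (r Y) 0 with h | h
      · exact hmin Y ((memT Y).2 ⟨hY, h⟩)
      · linarith
    have hgen : ∀ Y, P.Cov A B Y → ∀ D, P.Cov Y B D → ∃ x ∈ D, inner ℝ (zz Y) x ≠ 0 := by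
      intro Y hY D hD
      obtain ⟨Z, hZ1, hZ2, hZ3, hZ4, hZ5⟩ := sgn Y hY D hD
      have hZB : P.Cov A B Z := hZ1.mono hD.ge
      rcases lt_trichotomy (r Z) (r Y) with h | h | h
      · obtain ⟨x, hx, hx0⟩ := (negcov Y Z hZB).1 h
        exact ⟨x, hZ1.ge hx, hx0.ne⟩
      · exact absurd (hrinj _ _ hZB hY h) hZ2
      · obtain ⟨x, hx, hx0⟩ := (poscov Y Z hZB).1 h
        exact ⟨x, hZ1.ge hx, hx0.ne'⟩
    have hterm : ∀ Y ∈ T, ∑ X ∈ P.NN Y B (zz Y), (-1 : ℤ) ^ dm X =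
        if Y = Y0 then -(-1) ^ dm A else 0 := by
      intro Y hYT
      have hY := ((memT Y).1 hYT).1
      obtain ⟨g1, g2⟩ := ih Y B (zz Y) hY.cl hB hY.ge (by rw [hd, hY.dim]; ring) (zz_self Y hY)
        (hgen Y hY)
      by_cases hYY : Y = Y0
      · rw [if_pos hYY]
        rw [g2, hY.dim, pow_succ]
        · ring
        · rintro ⟨D, hD, x, hx, hx0⟩
          obtain ⟨Z, hZ1, hZ2, hZ3, hZ4, hZ5⟩ := sgn Y hY D hD
          have hZB : P.Cov A B Z := hZ1.mono hD.ge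
          have hlt : r Y < r Z := lt_of_le_of_ne (by rw [hYY]; exact hmin' Z hZB)
            (fun h => hZ2 (hrinj _ _ hZB hY h.symm))
          linarith [hZ5 hlt x hx]
      · rw [if_neg hYY]
        apply g1
        have hlt : r Y0 < r Y := lt_of_le_of_ne (hmin' Y hY) (fun h => hYY (hrinj _ _ hY0c hY h).symm)
        obtain ⟨x, hx, hx0⟩ := (negcov Y Y0 hY0c).1 hlt
        obtain ⟨D, hD, hYD, hDB, hdD, x', hx', hx'0⟩ := cover_up hY.cl hB hY.ge
          (y := -(zz Y)) (fun a ha => by rw [inner_neg_left, zz_self Y hY a ha, neg_zero])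
          ⟨x, hY0c.ge hx, by rw [inner_neg_left]; linarith⟩
        rw [inner_neg_left] at hx'0
        exact ⟨D, ⟨hD, hYD, hDB, hdD⟩, x', hx', by linarith⟩
    rw [← Finset.add_sum_erase _ _ hAmem, hdec, Finset.sum_biUnion hdis, Finset.sum_congr rfl hterm,
      Finset.sum_ite_eq' T Y0, if_pos hY0]
    ring

/-- Euler's relation for intervals. -/
theorem euler {A B : Finset W} (hA : P.Cl A) (hB : P.Cl B) (hAB : A ⊆ B) (hne : A ≠ B) :
    ∑ X ∈ P.NN A B (-(P.gs A)), (-1 : ℤ) ^ dm X = 0 := by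
  have hlt := dm_lt hA hB hAB hne
  have h := NN_sum (P := P) (dm B - dm A) A B (-(P.gs A)) hA hB hAB (by omega)
    (fun a ha => by rw [inner_neg_left, gs_zero ha, neg_zero])
    (fun Y hY => by
      obtain ⟨x, hx, hxA⟩ := hY.exists_nm hA
      refine ⟨x, hx, ?_⟩
      rw [inner_neg_left]
      have := gs_pos hA (hY.cl.sub hx) hxA
      linarith)
  apply h.1
  obtain ⟨Y, hY, hAY, hYB, hdY⟩ := exists_cover hA hB hAB hne
  have hYc : P.Cov A B Y := ⟨hY, hAY, hYB, hdY⟩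
  obtain ⟨x, hx, hxA⟩ := hYc.exists_nm hA
  refine ⟨Y, hYc, x, hx, ?_⟩
  rw [inner_neg_left]
  have := gs_pos hA (hY.sub hx) hxA
  linarith

theorem mem_NN_gs {A B X : Finset W} (hA : P.Cl A) : X ∈ P.NN A B (-(P.gs A)) ↔
    P.Cl X ∧ A ⊆ X ∧ X ⊆ B := by
  rw [mem_NN]
  constructor
  · rintro ⟨h1, h2, h3, _⟩; exact ⟨h1, h2, h3⟩
  · rintro ⟨h1, h2, h3⟩
    refine ⟨h1, h2, h3, fun Y hY => ?_⟩
    obtain ⟨x, hx, hxA⟩ := hY.exists_nm hA
    refine ⟨x, hx, ?_⟩
    rw [inner_neg_left]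
    have := gs_pos hA (hY.cl.sub hx) hxA
    linarith

end CP
end Pool.Agent.Helper715
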