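import Pool.Agent.helper529_fat.Proj

set_option autoImplicit false
set_option linter.unusedSectionVars false
set_option linter.unusedVariables false

/-!
# Facets of a projection that keeps the vertices and the edges
-/

namespace Pool.Agent.Helper715

open Finset

variable {U : Type*} [NormedAddCommGroup U] [InnerProductSpace ℝ U] [FiniteDimensional ℝ U]
variable {W : Type*} [NormedAddCommGroup W] [InnerProductSpace ℝ W] [FiniteDimensional ℝ W]

namespace CP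

variable {D : CP W}

theorem exists_up {A B : Finset W} (hA : D.Cl A) (hB : D.Cl B) (hAB : A ⊆ B) {k : ℕ}
    (hk : dm A + 1 = k) (hlt : dm A < dm B) : ∃ X, X ∈ D.fs A B k := by
  obtain ⟨X, h1, h2, h3, h4⟩ := exists_cover hA hB hAB (by rintro rfl; exact lt_irrefl _ hlt)
  exact ⟨X, mem_fs.2 ⟨h1, h2, h3, by omega⟩⟩

/-- a function on the 2-faces of a facet which does not change across the edges at the vertices of a
connected set is constant on the 2-faces that meet the set -/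
theorem const_faces {F : Finset W} (hF : D.Cl F) (dF : dm F = 4) {S : Finset W → Prop}
    {σ : Finset W → ZMod 2}
    (hconn : ∀ a ∈ D.fs D.bot F 1, ∀ b ∈ D.fs D.bot F 1, S a → S b →
      Relation.ReflTransGen (fun x y => D.Adj D.bot F x y ∧ S x ∧ S y) a b)
    (hσ : ∀ a ∈ D.fs D.bot F 1, S a → ∀ e ∈ D.fs a F 2, ∀ f ∈ D.fs e F 3, ∀ f' ∈ D.fs e F 3,
      σ f = σ f')
    {a b f f' : Finset W} (ha : a ∈ D.fs D.bot F 1) (hb : b ∈ D.fs D.bot F 1) (Sa : S a) (Sb : S b)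
    (hf : f ∈ D.fs a F 3) (hf' : f' ∈ D.fs b F 3) : σ f = σ f' := by
  have step1 : ∀ a ∈ D.fs D.bot F 1, S a → ∀ f ∈ D.fs a F 3, ∀ f' ∈ D.fs a F 3, σ f = σ f' := by
    intro a ha Sa f hf f' hf'
    obtain ⟨e, he⟩ := exists_up (k := 2) (fs_cl ha) (fs_cl hf) (fs_le hf) (by rw [fs_dm ha])
      (by rw [fs_dm ha, fs_dm hf]; norm_num)
    obtain ⟨e', he'⟩ := exists_up (k := 2) (fs_cl ha) (fs_cl hf') (fs_le hf') (by rw [fs_dm ha])
      (by rw [fs_dm ha, fs_dm hf']; norm_num)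
    have hc := conn (P := D) (fs_cl ha) hF (X := e) (Y := e')
      ⟨fs_cl he, fs_le he, (fs_ge he).trans (fs_ge hf), by rw [fs_dm he, fs_dm ha]⟩
      ⟨fs_cl he', fs_le he', (fs_ge he').trans (fs_ge hf'), by rw [fs_dm he', fs_dm ha]⟩
    have key : ∀ z, Relation.ReflTransGen (D.Adj a F) e z →
        ∀ f'' ∈ D.fs z F 3, σ f = σ f'' := by
      intro z hz
      induction hz with
      | refl =>
        intro f'' hf''
        exact hσ a ha Sa e (mem_fs.2 ⟨fs_cl he, fs_le he, (fs_ge he).trans (fs_ge hf), fs_dm he⟩) f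
          (mem_fs.2 ⟨fs_cl hf, fs_ge he, fs_ge hf, fs_dm hf⟩) f'' hf''
      | @tail x z _ hxz ih =>
        intro f'' hf''
        obtain ⟨hx, hz, E, hE, hxE, hzE, hEF, dE⟩ := hxz
        rw [fs_dm ha] at dE
        rw [ih E (mem_fs.2 ⟨hE, hxE, hEF, dE⟩)]
        refine hσ a ha Sa z (mem_fs.2 ⟨hz.cl, hz.le, hz.ge, ?_⟩) E
          (mem_fs.2 ⟨hE, hzE, hEF, dE⟩) f'' hf''
        rw [hz.dim, fs_dm ha]
    exact key e' hc f' (mem_fs.2 ⟨fs_cl hf', fs_ge he', fs_ge hf', fs_dm hf'⟩)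
  have key : ∀ z, Relation.ReflTransGen (fun x y => D.Adj D.bot F x y ∧ S x ∧ S y) a z →
      ∀ f'' ∈ D.fs z F 3, σ f = σ f'' := by
    intro z hz
    induction hz with
    | refl => exact step1 a ha Sa f hf
    | @tail x z _ hxz ih =>
      intro f'' hf''
      obtain ⟨⟨hx, hz, E, hE, hxE, hzE, hEF, dE⟩, Sx, Sz⟩ := hxz
      rw [dm_bot] at dE
      obtain ⟨f0, hf0⟩ := exists_up (k := 3) hE hF hEF (by rw [dE]) (by rw [dE, dF]; norm_num)
      rw [ih f0 (mem_fs.2 ⟨fs_cl hf0, hxE.trans (fs_le hf0), fs_ge hf0, fs_dm hf0⟩)]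
      refine step1 z (mem_fs.2 ⟨hz.cl, hz.le, hz.ge, ?_⟩) Sz f0
        (mem_fs.2 ⟨fs_cl hf0, hzE.trans (fs_le hf0), fs_ge hf0, fs_dm hf0⟩) f'' hf''
      rw [hz.dim, dm_bot]
  exact key b (hconn a ha b hb Sa Sb) f' hf'

theorem conn' {F : Finset W} (hF : D.Cl F) {a b : Finset W} (ha : a ∈ D.fs D.bot F 1)
    (hb : b ∈ D.fs D.bot F 1) : Relation.ReflTransGen (D.Adj D.bot F) a b :=
  conn (P := D) bot_cl hF ⟨fs_cl ha, fs_le ha, fs_ge ha, by rw [fs_dm ha, dm_bot]⟩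
    ⟨fs_cl hb, fs_le hb, fs_ge hb, by rw [fs_dm hb, dm_bot]⟩

theorem eq_of_sum_two {s : Finset (Finset W)} (hs : s.card = 2) {σ : Finset W → ZMod 2}
    (h : ∑ f ∈ s, σ f = 0) : ∀ f ∈ s, ∀ f' ∈ s, σ f = σ f' := by
  classical
  obtain ⟨p, q, hpq, rfl⟩ := Finset.card_eq_two.1 hs
  rw [Finset.sum_pair hpq] at h
  have h1 := zmod2_eq_of_add h
  intro f hf f' hf'
  rw [Finset.mem_insert, Finset.mem_singleton] at hf hf'
  rcases hf with rfl | rfl <;> rcases hf' with rfl | rfl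
  · rfl
  · exact h1
  · exact h1.symm
  · rfl

open scoped Classical in
theorem sum_above {F a : Finset W} (k : ℕ) (ha : D.Cl a) (Z : Finset W → ZMod 2) :
    ∑ e ∈ D.fs D.bot F k, (if a ⊆ e then (1 : ZMod 2) else 0) * Z e = ∑ e ∈ D.fs a F k, Z e := by
  have h1 : D.fs a F k = (D.fs D.bot F k).filter (fun e => a ⊆ e) := by
    ext e
    rw [Finset.mem_filter, mem_fs, mem_fs]
    constructor
    · rintro ⟨g1, g2, g3, g4⟩
      exact ⟨⟨g1, bot_le g1, g3, g4⟩, g2⟩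
    · rintro ⟨⟨g1, g2, g3, g4⟩, g5⟩
      exact ⟨g1, g5, g3, g4⟩
  rw [h1, Finset.sum_filter]
  apply Finset.sum_congr rfl
  intro e _
  split_ifs <;> simp

open scoped Classical in
theorem sum_below {F e : Finset W} (k : ℕ) (he : D.Cl e) (heF : e ⊆ F) (Z : Finset W → ZMod 2) :
    ∑ a ∈ D.fs D.bot F k, (if a ⊆ e then (1 : ZMod 2) else 0) * Z a =
      ∑ a ∈ D.fs D.bot e k, Z a := by
  have h1 : D.fs D.bot e k = (D.fs D.bot F k).filter (fun a => a ⊆ e) := by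
    ext a
    rw [Finset.mem_filter, mem_fs, mem_fs]
    constructor
    · rintro ⟨g1, g2, g3, g4⟩
      exact ⟨⟨g1, g2, g3.trans heF, g4⟩, g3⟩
    · rintro ⟨⟨g1, g2, g3, g4⟩, g5⟩
      exact ⟨g1, g2, g5, g4⟩
  rw [h1, Finset.sum_filter]
  apply Finset.sum_congr rfl
  intro e _
  split_ifs <;> simp

/-- extension by zero -/
noncomputable def exz {s : Finset (Finset W)} (x : ↥s → ZMod 2) (f : Finset W) : ZMod 2 := by
  classical exact if h : f ∈ s then x ⟨f, h⟩ else 0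

theorem exz_eq {s : Finset (Finset W)} (x : ↥s → ZMod 2) {f : Finset W} (h : f ∈ s) :
    exz x f = x ⟨f, h⟩ := by
  classical
  rw [exz, dif_pos h]

theorem sum_exz {s : Finset (Finset W)} (x : ↥s → ZMod 2) (g : Finset W → ZMod 2) :
    ∑ f : ↥s, g f.1 * x f = ∑ f ∈ s, g f * exz x f := by
  classical
  rw [← Finset.sum_coe_sort s (fun f => g f * exz x f)]
  apply Finset.sum_congr rfl
  intro f _
  rw [exz_eq x f.2]

theorem ker_le_one {s t : Type*} [Fintype s] [Fintype t] (M : Matrix s t (ZMod 2))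
    (h : ∀ x : t → ZMod 2, M.mulVec x = 0 → ∀ a b, x a = x b) :
    Module.finrank (ZMod 2) (LinearMap.ker M.mulVecLin) ≤ 1 := by
  classical
  have h1 : LinearMap.ker M.mulVecLin ≤ Submodule.span (ZMod 2) {(fun _ => (1 : ZMod 2) : t → ZMod 2)} := by
    intro x hx
    rw [LinearMap.mem_ker, Matrix.mulVecLin_apply] at hx
    rw [Submodule.mem_span_singleton]
    by_cases hne : Nonempty t
    · obtain ⟨a⟩ := hne
      refine ⟨x a, ?_⟩
      ext b
      rw [Pi.smul_apply, smul_eq_mul, mul_one]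
      exact h x hx a b
    · refine ⟨0, ?_⟩
      ext b
      exact absurd ⟨b⟩ hne
  exact (Submodule.finrank_mono h1).trans ((finrank_span_le_card _).trans (by simp))

/-- even edge sets of a 3-polytope are boundaries -/
theorem exists_bdry {F : Finset W} (hF : D.Cl F) (dF : dm F = 4) {Z : Finset W → ZMod 2}
    (hZ : ∀ a ∈ D.fs D.bot F 1, ∑ e ∈ D.fs a F 2, Z e = 0) :
    ∃ σ : Finset W → ZMod 2, ∀ e ∈ D.fs D.bot F 2, Z e = ∑ f ∈ D.fs e F 3, σ f := by
  classical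
  set Vt := D.fs D.bot F 1 with hVt
  set Et := D.fs D.bot F 2 with hEt
  set Ft := D.fs D.bot F 3 with hFt
  let M1 : Matrix ↥Vt ↥Et (ZMod 2) := Matrix.of fun a e => if a.1 ⊆ e.1 then 1 else 0
  let M2 : Matrix ↥Et ↥Ft (ZMod 2) := Matrix.of fun e f => if e.1 ⊆ f.1 then 1 else 0
  have m1 : ∀ (x : ↥Et → ZMod 2) (a : ↥Vt), M1.mulVec x a = ∑ e ∈ D.fs a.1 F 2, exz x e := by
    intro x a
    rw [← sum_above 2 (fs_cl a.2) (exz x), ← sum_exz x (fun e => if a.1 ⊆ e then 1 else 0)]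
    rfl
  have m2 : ∀ (x : ↥Ft → ZMod 2) (e : ↥Et), M2.mulVec x e = ∑ f ∈ D.fs e.1 F 3, exz x f := by
    intro x e
    rw [← sum_above 3 (fs_cl e.2) (exz x), ← sum_exz x (fun f => if e.1 ⊆ f then 1 else 0)]
    rfl
  have m1t : ∀ (x : ↥Vt → ZMod 2) (e : ↥Et), M1.transpose.mulVec x e =
      ∑ a ∈ D.fs D.bot e.1 1, exz x a := by
    intro x e
    rw [← sum_below 1 (fs_cl e.2) (fs_ge e.2) (exz x),
      ← sum_exz x (fun a => if a ⊆ e.1 then 1 else 0)]
    rfl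
  -- the kernels
  have k2 : Module.finrank (ZMod 2) (LinearMap.ker M2.mulVecLin) ≤ 1 := by
    apply ker_le_one
    intro x hx
    have hx' : ∀ e ∈ Et, ∑ f ∈ D.fs e F 3, exz x f = 0 := by
      intro e he
      rw [← m2 x ⟨e, he⟩, hx]; rfl
    intro f f'
    obtain ⟨a, ha⟩ := exists_atom (fs_cl f.2) (by rw [fs_dm f.2]; norm_num)
    obtain ⟨b, hb⟩ := exists_atom (fs_cl f'.2) (by rw [fs_dm f'.2]; norm_num)
    rw [← exz_eq x f.2, ← exz_eq x f'.2]
    refine const_faces hF dF (S := fun _ => True) (σ := exz x) ?_ ?_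
      (a := a) (b := b) (fs_mono (Finset.Subset.refl _) (fs_ge f.2) ha)
      (fs_mono (Finset.Subset.refl _) (fs_ge f'.2) hb) trivial trivial
      (mem_fs.2 ⟨fs_cl f.2, fs_ge ha, fs_ge f.2, fs_dm f.2⟩)
      (mem_fs.2 ⟨fs_cl f'.2, fs_ge hb, fs_ge f'.2, fs_dm f'.2⟩)
    · intro a ha b hb _ _
      exact rtg_mono (fun p q hpq => ⟨hpq, trivial, trivial⟩) (conn' hF ha hb)
    · intro a ha _ e he
      have he' : e ∈ Et := mem_fs.2 ⟨fs_cl he, bot_le (fs_cl he), fs_ge he, fs_dm he⟩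
      apply eq_of_sum_two _ (hx' e he')
      have := euler2 (fs_cl he) hF (fs_ge he) (by rw [dF, fs_dm he])
      rwa [fs_dm he] at this
  have k1 : Module.finrank (ZMod 2) (LinearMap.ker M1.transpose.mulVecLin) ≤ 1 := by
    apply ker_le_one
    intro x hx
    have hx' : ∀ e ∈ Et, ∑ a ∈ D.fs D.bot e 1, exz x a = 0 := by
      intro e he
      rw [← m1t x ⟨e, he⟩, hx]; rfl
    intro a b
    rw [← exz_eq x a.2, ← exz_eq x b.2]
    have key : ∀ z, Relation.ReflTransGen (D.Adj D.bot F) a.1 z → exz x a.1 = exz x z := by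
      intro z hz
      induction hz with
      | refl => rfl
      | @tail p q _ hpq ih =>
        rw [ih]
        obtain ⟨hp, hq, E, hE, hpE, hqE, hEF, dE⟩ := hpq
        rw [dm_bot] at dE
        have hE' : E ∈ Et := mem_fs.2 ⟨hE, bot_le hE, hEF, dE⟩
        exact eq_of_sum_two (card_ends hE dE) (hx' E hE') p
          (fs_atom hp.cl hpE (by rw [hp.dim, dm_bot])) q
          (fs_atom hq.cl hqE (by rw [hq.dim, dm_bot]))
    exact key b.1 (conn' hF a.2 b.2)
  -- ranks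
  have r1 := LinearMap.finrank_range_add_finrank_ker M1.mulVecLin
  have r1t := LinearMap.finrank_range_add_finrank_ker M1.transpose.mulVecLin
  have r2 := LinearMap.finrank_range_add_finrank_ker M2.mulVecLin
  rw [Module.finrank_fintype_fun_eq_card, Fintype.card_coe] at r1 r1t r2
  have ht : Module.finrank (ZMod 2) (LinearMap.range M1.transpose.mulVecLin) =
      Module.finrank (ZMod 2) (LinearMap.range M1.mulVecLin) := Matrix.rank_transpose M1
  have he := euler4 (P := D) bot_cl hF (bot_le hF) (by rw [dF, dm_bot])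
  rw [dm_bot] at he
  have he' : Vt.card + Ft.card = Et.card + 2 := he
  have hle : LinearMap.range M2.mulVecLin ≤ LinearMap.ker M1.mulVecLin := by
    rintro _ ⟨x, rfl⟩
    rw [LinearMap.mem_ker, Matrix.mulVecLin_apply, Matrix.mulVecLin_apply, Matrix.mulVec_mulVec]
    have : M1 * M2 = 0 := by
      ext a f
      rw [Matrix.mul_apply, Matrix.zero_apply]
      have e1 : ∑ e : ↥Et, M1 a e * M2 e f = ∑ e ∈ D.fs a.1 F 2, (if e ⊆ f.1 then (1 : ZMod 2) else 0) := by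
        rw [← sum_above 2 (fs_cl a.2) (fun e => if e ⊆ f.1 then (1 : ZMod 2) else 0)]
        exact Finset.sum_coe_sort Et
          (fun e => (if a.1 ⊆ e then (1 : ZMod 2) else 0) * (if e ⊆ f.1 then (1 : ZMod 2) else 0))
      rw [e1, Finset.sum_boole]
      have e2 : (D.fs a.1 F 2).filter (fun e => e ⊆ f.1) = D.fs a.1 f.1 2 := by
        ext e
        rw [Finset.mem_filter, mem_fs, mem_fs]
        constructor
        · rintro ⟨⟨g1, g2, g3, g4⟩, g5⟩
          exact ⟨g1, g2, g5, g4⟩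
        · rintro ⟨g1, g2, g3, g4⟩
          exact ⟨⟨g1, g2, g3.trans (fs_ge f.2), g4⟩, g3⟩
      rw [e2]
      by_cases haf : a.1 ⊆ f.1
      · rw [card_two (fs_cl a.2) (fs_cl f.2) haf (fs_dm a.2) (fs_dm f.2)]
        rfl
      · have : D.fs a.1 f.1 2 = ∅ := by
          rw [Finset.eq_empty_iff_forall_notMem]
          intro e he
          exact haf ((fs_le he).trans (fs_ge he))
        rw [this, Finset.card_empty, Nat.cast_zero]
    rw [this, Matrix.zero_mulVec]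
  have heq : LinearMap.range M2.mulVecLin = LinearMap.ker M1.mulVecLin :=
    Submodule.eq_of_le_of_finrank_le hle (by omega)
  have hZ' : (fun e : ↥Et => Z e.1) ∈ LinearMap.ker M1.mulVecLin := by
    rw [LinearMap.mem_ker, Matrix.mulVecLin_apply]
    ext a
    rw [m1, Pi.zero_apply, ← hZ a.1 a.2]
    apply Finset.sum_congr rfl
    intro e he
    exact exz_eq (s := Et) (fun e : ↥Et => Z e.1)
      (mem_fs.2 ⟨fs_cl he, bot_le (fs_cl he), fs_ge he, fs_dm he⟩)
  rw [← heq] at hZ'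
  obtain ⟨x, hx⟩ := hZ'
  refine ⟨exz x, fun e he => ?_⟩
  rw [← m2 x ⟨e, he⟩]
  rw [Matrix.mulVecLin_apply] at hx
  rw [hx]

variable {C : CP U} {T : U →ₗ[ℝ] W}

/-- the 2-faces of the pull-back of a facet are pull-backs of 2-faces -/
theorem Prj.two_bwd (h : Prj C D T) {F : Finset W} (hF : D.Cl F) (dF : dm F = 4) {G : Finset U}
    (hG : G ∈ C.fs C.bot (pb C T F) 3) : ∃ g ∈ D.fs D.bot F 3, pb C T g = G := by
  classical
  by_contra hno
  push Not at hno
  have hFC := h.pb_cl hF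
  obtain ⟨σ, hσ⟩ := exists_bdry hF dF (Z := fun e => if pb C T e ⊆ G then 1 else 0) (by
    intro a ha
    rw [Finset.sum_boole]
    by_cases haG : pb C T a ⊆ G
    · have e1 : ((D.fs a F 2).filter (fun e => pb C T e ⊆ G)).card = (C.fs (pb C T a) G 2).card := by
        apply Finset.card_bij (fun e _ => pb C T e)
        · intro e he
          rw [Finset.mem_filter] at he
          have h1 := h.edges.1 e (fs_top (fs_cl he.1) (bot_le (fs_cl he.1)) (fs_dm he.1))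
          exact mem_fs.2 ⟨fs_cl h1, pb_mono (fs_le he.1), he.2, fs_dm h1⟩
        · intro e he e' he' hh
          rw [Finset.mem_filter] at he he'
          exact h.pb_inj (fs_cl he.1) (fs_cl he'.1) hh
        · intro c hc
          obtain ⟨e, he, rfl⟩ := h.edges.2 c (fs_top (fs_cl hc) (bot_le (fs_cl hc)) (fs_dm hc))
          refine ⟨e, Finset.mem_filter.2 ⟨mem_fs.2 ⟨fs_cl he, (h.pb_sub_iff (fs_cl ha)).1 (fs_le hc),
            (h.pb_sub_iff (fs_cl he)).1 ((fs_ge hc).trans (fs_ge hG)), fs_dm he⟩, fs_ge hc⟩, rfl⟩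
      have h1 := h.atoms.1 a (fs_mono (Finset.Subset.refl _) hF.sub ha)
      rw [e1, card_two (fs_cl h1) (fs_cl hG) haG (fs_dm h1) (fs_dm hG)]
      rfl
    · have : (D.fs a F 2).filter (fun e => pb C T e ⊆ G) = ∅ := by
        rw [Finset.eq_empty_iff_forall_notMem]
        intro e he
        rw [Finset.mem_filter] at he
        exact haG ((pb_mono (fs_le he.1)).trans he.2)
      rw [this, Finset.card_empty, Nat.cast_zero])
  have hex : ∀ f ∈ D.fs D.bot F 3, ∃ a ∈ D.fs D.bot f 1, ¬ pb C T a ⊆ G := by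
    intro f hf
    by_contra hcon
    push Not at hcon
    apply hno f hf
    have hfV := fs_mono (P := D) (Finset.Subset.refl D.bot) hF.sub hf
    have h1 : pb C T f ⊆ G := by
      apply sub_of_atoms (h.pb_cl (fs_cl hf)) (fs_cl hG)
      intro c hc
      obtain ⟨a, ha, rfl⟩ := h.atoms.2 c (fs_mono (Finset.Subset.refl _) (h.pb_cl (fs_cl hf)).sub hc)
      exact hcon a (mem_fs.2 ⟨fs_cl ha, fs_le ha, (h.pb_sub_iff (fs_cl ha)).1 (fs_ge hc), fs_dm ha⟩)
    exact eq_of_dm_le (h.pb_cl (fs_cl hf)) (fs_cl hG) h1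
      (by rw [fs_dm hG, fs_dm (h.two_fwd hfV)])
  have hcard2 : ∀ e ∈ D.fs D.bot F 2, (D.fs e F 3).card = 2 := by
    intro e he
    have := euler2 (fs_cl he) hF (fs_ge he) (by rw [dF, fs_dm he])
    rwa [fs_dm he] at this
  have hall : ∀ f ∈ D.fs D.bot F 3, ∀ f' ∈ D.fs D.bot F 3, σ f = σ f' := by
    intro f hf f' hf'
    obtain ⟨a, ha, Sa⟩ := hex f hf
    obtain ⟨b, hb, Sb⟩ := hex f' hf'
    refine const_faces hF dF (S := fun a => ¬ pb C T a ⊆ G) (σ := σ) ?_ ?_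
      (a := a) (b := b) (fs_mono (Finset.Subset.refl _) (fs_ge hf) ha)
      (fs_mono (Finset.Subset.refl _) (fs_ge hf') hb) Sa Sb
      (mem_fs.2 ⟨fs_cl hf, fs_ge ha, fs_ge hf, fs_dm hf⟩)
      (mem_fs.2 ⟨fs_cl hf', fs_ge hb, fs_ge hf', fs_dm hf'⟩)
    · intro a ha b hb Sa Sb
      have haC := h.atoms.1 a (fs_mono (Finset.Subset.refl _) hF.sub ha)
      have hbC := h.atoms.1 b (fs_mono (Finset.Subset.refl _) hF.sub hb)
      have hpos : ∀ c : Finset U, C.Cl c → ¬ c ⊆ G → ∃ x ∈ c, 0 < inner ℝ (C.gs G) x := by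
        intro c hc hcG
        obtain ⟨x, hx, hxG⟩ := Finset.not_subset.1 hcG
        exact ⟨x, hx, gs_pos (fs_cl hG) (hc.sub hx) hxG⟩
      have hneg : ∀ c : Finset U, (∃ x ∈ c, 0 < inner ℝ (C.gs G) x) → ¬ c ⊆ G := by
        rintro c ⟨x, hx, hx0⟩ hcG
        rw [gs_zero (hcG hx)] at hx0
        exact lt_irrefl _ hx0
      have hc := conn_pos (P := C) bot_cl hFC (y := C.gs G) (inner_bot _) (X := pb C T a)
        (Y := pb C T b) ⟨fs_cl haC, fs_le haC, pb_mono (fs_ge ha), by rw [fs_dm haC, dm_bot]⟩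
        ⟨fs_cl hbC, fs_le hbC, pb_mono (fs_ge hb), by rw [fs_dm hbC, dm_bot]⟩
        (hpos _ (fs_cl haC) Sa) (hpos _ (fs_cl hbC) Sb)
      have key : ∀ z, Relation.ReflTransGen (fun Z Z' => C.Adj C.bot (pb C T F) Z Z' ∧
          (∃ x ∈ Z, 0 < inner ℝ (C.gs G) x) ∧ (∃ x ∈ Z', 0 < inner ℝ (C.gs G) x)) (pb C T a) z →
          ∃ c ∈ D.fs D.bot F 1, pb C T c = z ∧ Relation.ReflTransGen
            (fun x y => D.Adj D.bot F x y ∧ ¬ pb C T x ⊆ G ∧ ¬ pb C T y ⊆ G) a c := by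
        intro z hz
        induction hz with
        | refl => exact ⟨a, ha, rfl, Relation.ReflTransGen.refl⟩
        | @tail p q _ hpq ih =>
          obtain ⟨c, hc, rfl, hac⟩ := ih
          obtain ⟨⟨hp, hq, E, hE, hpE, hqE, hEF, dE⟩, Sp, Sq⟩ := hpq
          rw [dm_bot] at dE
          obtain ⟨d, hd, rfl⟩ := h.atoms.2 q (fs_atom hq.cl hq.cl.sub (by rw [hq.dim, dm_bot]))
          obtain ⟨E', hE', rfl⟩ := h.edges.2 E (fs_atom hE hE.sub dE)
          have hdF := (h.pb_sub_iff (fs_cl hd)).1 hq.ge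
          refine ⟨d, mem_fs.2 ⟨fs_cl hd, fs_le hd, hdF, fs_dm hd⟩, rfl, hac.tail ?_⟩
          refine ⟨⟨⟨fs_cl hc, fs_le hc, fs_ge hc, by rw [fs_dm hc, dm_bot]⟩,
            ⟨fs_cl hd, fs_le hd, hdF, by rw [fs_dm hd, dm_bot]⟩, E', fs_cl hE',
            (h.pb_sub_iff (fs_cl hc)).1 hpE, (h.pb_sub_iff (fs_cl hd)).1 hqE,
            (h.pb_sub_iff (fs_cl hE')).1 hEF, by rw [fs_dm hE', dm_bot]⟩, hneg _ Sp, hneg _ Sq⟩
      obtain ⟨c, hcF, hcb, hac⟩ := key _ hc
      have : c = b := h.pb_inj (fs_cl hcF) (fs_cl hb) hcb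
      rw [← this]
      exact hac
    · intro a ha Sa e he
      have he' : e ∈ D.fs D.bot F 2 := mem_fs.2 ⟨fs_cl he, bot_le (fs_cl he), fs_ge he, fs_dm he⟩
      apply eq_of_sum_two (hcard2 e he')
      rw [← hσ e he', if_neg]
      exact fun hh => Sa ((pb_mono (fs_le he)).trans hh)
  obtain ⟨v, hv⟩ := exists_atom (fs_cl hG) (by rw [fs_dm hG]; norm_num)
  obtain ⟨c, hc⟩ := exists_up (k := 2) (fs_cl hv) (fs_cl hG) (fs_ge hv) (by rw [fs_dm hv])
    (by rw [fs_dm hv, fs_dm hG]; norm_num)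
  obtain ⟨e, he, rfl⟩ := h.edges.2 c (fs_top (fs_cl hc) (bot_le (fs_cl hc)) (fs_dm hc))
  have heF := (h.pb_sub_iff (fs_cl he)).1 ((fs_ge hc).trans (fs_ge hG))
  have he' : e ∈ D.fs D.bot F 2 := mem_fs.2 ⟨fs_cl he, fs_le he, heF, fs_dm he⟩
  have h1 := hσ e he'
  rw [if_pos (fs_ge hc)] at h1
  obtain ⟨p, q, hpq, hs⟩ := Finset.card_eq_two.1 (hcard2 e he')
  have hp : p ∈ D.fs e F 3 := by rw [hs]; simp
  have hq : q ∈ D.fs e F 3 := by rw [hs]; simp
  rw [hs, Finset.sum_pair hpq, hall p (mem_fs.2 ⟨fs_cl hp, bot_le (fs_cl hp), fs_ge hp, fs_dm hp⟩) q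
    (mem_fs.2 ⟨fs_cl hq, bot_le (fs_cl hq), fs_ge hq, fs_dm hq⟩), zmod2_add_self] at h1
  exact one_ne_zero h1

/-- facets are simple -/
theorem Prj.facet_deg (h : Prj C D T) (hs : C.Smp) {F a : Finset W} (hF : D.Cl F) (dF : dm F = 4)
    (ha : a ∈ D.fs D.bot F 1) : (D.fs a F 2).card = 3 := by
  classical
  have haV := fs_mono (P := D) (Finset.Subset.refl D.bot) hF.sub ha
  have haC := h.atoms.1 a haV
  have hFC := h.pb_cl hF
  have hsub : C.fs (pb C T a) (pb C T F) 2 ⊆ C.fs (pb C T a) C.V 2 :=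
    fs_mono (Finset.Subset.refl _) hFC.sub
  have h1 := hs.pairs (fs_cl haC) (fs_dm haC) hsub
  rw [h.card_edges (fs_cl ha) hF] at h1
  have h2 : (C.fs (pb C T a) C.V 3).filter
      (fun G => C.fs (pb C T a) G 2 ⊆ C.fs (pb C T a) (pb C T F) 2) ⊆
      (D.fs a F 3).image (pb C T) := by
    intro G hG
    rw [Finset.mem_filter] at hG
    obtain ⟨p, q, hpq, hpqs⟩ := Finset.card_eq_two.1
      (card_two (fs_cl haC) (fs_cl hG.1) (fs_le hG.1) (fs_dm haC) (fs_dm hG.1))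
    have hp : p ∈ C.fs (pb C T a) G 2 := by rw [hpqs]; simp
    have hq : q ∈ C.fs (pb C T a) G 2 := by rw [hpqs]; simp
    have hp' := hG.2 hp
    have hq' := hG.2 hq
    obtain ⟨x, hx, hxp⟩ := Finset.not_subset.1
      (not_sub_of_ne (fs_cl hq) (fs_cl hp) (by rw [fs_dm hp, fs_dm hq]) hpq.symm)
    have hGF : G ⊆ pb C T F := cover_sub (fs_cl hp) (fs_cl hG.1) hFC (fs_ge hp) (fs_ge hp')
      (by rw [fs_dm hG.1, fs_dm hp]) (fs_ge hq hx) hxp (fs_ge hq' hx)
    obtain ⟨g, hg, rfl⟩ := h.two_bwd hF dF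
      (mem_fs.2 ⟨fs_cl hG.1, bot_le (fs_cl hG.1), hGF, fs_dm hG.1⟩)
    exact Finset.mem_image_of_mem _ (mem_fs.2 ⟨fs_cl hg,
      (h.pb_sub_iff (fs_cl ha)).1 (fs_le hG.1), fs_ge hg, fs_dm hg⟩)
  have h3 := (Finset.card_le_card h2).trans Finset.card_image_le
  rw [h1] at h3
  have h4 := euler3 (fs_cl ha) hF (fs_ge ha) (by rw [dF, fs_dm ha])
  rw [fs_dm ha] at h4
  have h5 := card_cov_ge (fs_cl ha) hF (fs_ge ha)
  rw [fs_dm ha, dF] at h5
  have h4' : (D.fs a F 2).card = (D.fs a F 3).card := h4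
  have h5' : 3 ≤ (D.fs a F 2).card := h5
  rw [← h4'] at h3
  have h6 : (D.fs a F 2).card ≤ 3 := by
    by_contra hcon
    push Not at hcon
    obtain ⟨k, hk⟩ : ∃ k, (D.fs a F 2).card = k + 4 := ⟨(D.fs a F 2).card - 4, by omega⟩
    rw [hk, Nat.choose_two_right] at h3
    have e1 : (k + 4) * (k + 4 - 1) = 2 * (k + 4) + (k * k + 5 * k + 4) := by
      have : k + 4 - 1 = k + 3 := rfl
      rw [this]; ring
    rw [e1] at h3
    omega
  omega

/-- the number of 2-faces at a vertex -/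
theorem Prj.link (h : Prj C D T) (hs : C.Smp) (hD : Module.finrank ℝ W = 5) {a : Finset W}
    (ha : a ∈ D.fs D.bot D.V 1) :
    (D.fs a D.V 3).card + 6 = 3 * (D.fs a D.V 2).card := by
  have dV : dm D.V = 5 := by rw [dm_top, hD]
  have h4 := euler4 (fs_cl ha) (P := D) top_cl (fs_ge ha) (by rw [dV, fs_dm ha])
  rw [fs_dm ha] at h4
  have h4' : (D.fs a D.V 2).card + (D.fs a D.V 4).card = (D.fs a D.V 3).card + 2 := h4
  have d := double_count (P := D) (A := a) (B := D.V) 3 4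
  have e1 : ∀ g ∈ D.fs a D.V 3, (D.fs g D.V 4).card = 2 := by
    intro g hg
    have := euler2 (fs_cl hg) (P := D) top_cl (fs_ge hg) (by rw [dV, fs_dm hg])
    rwa [fs_dm hg] at this
  have e2 : ∀ F ∈ D.fs a D.V 4, (D.fs a F 3).card = 3 := by
    intro F hF
    have h1 := euler3 (fs_cl ha) (fs_cl hF) (fs_le hF) (by rw [fs_dm hF, fs_dm ha])
    rw [fs_dm ha] at h1
    have h1' : (D.fs a F 2).card = (D.fs a F 3).card := h1
    rw [← h1']
    exact h.facet_deg hs (fs_cl hF) (fs_dm hF) (fs_atom (fs_cl ha) (fs_le hF) (fs_dm ha))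
  rw [Finset.sum_congr rfl e1, Finset.sum_congr rfl e2, Finset.sum_const, Finset.sum_const,
    smul_eq_mul, smul_eq_mul] at d
  omega

end CP
end Pool.Agent.Helper715
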