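import Pool.Agent.helper529_fat.Facet

set_option autoImplicit false
set_option linter.unusedSectionVars false
set_option linter.unusedVariables false

/-!
# The main inequality, for cone pairs
-/

namespace Pool.Agent.Helper715

open Finset

variable {U : Type*} [NormedAddCommGroup U] [InnerProductSpace ℝ U] [FiniteDimensional ℝ U]
variable {W : Type*} [NormedAddCommGroup W] [InnerProductSpace ℝ W] [FiniteDimensional ℝ W]

namespace CP

variable {C : CP U} {D : CP W} {T : U →ₗ[ℝ] W}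

open scoped Classical in
/-- the 2-faces that are not pull-backs -/
noncomputable def lost (C : CP U) (D : CP W) (T : U →ₗ[ℝ] W) : Finset (Finset U) :=
  (C.fs C.bot C.V 3).filter (fun t => ∀ g ∈ D.fs D.bot D.V 3, pb C T g ≠ t)

open scoped Classical in
/-- the triangles that are not pull-backs -/
noncomputable def lostTri (C : CP U) (D : CP W) (T : U →ₗ[ℝ] W) : Finset (Finset U) :=
  (lost C D T).filter (fun t => (C.fs C.bot t 1).card = 3)

theorem mem_lostTri {t : Finset U} : t ∈ lostTri C D T ↔ t ∈ C.fs C.bot C.V 3 ∧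
    (∀ g ∈ D.fs D.bot D.V 3, pb C T g ≠ t) ∧ (C.fs C.bot t 1).card = 3 := by
  classical
  rw [lostTri, Finset.mem_filter, lost, Finset.mem_filter, and_assoc]

theorem Prj.incid (h : Prj C D T) (hs : C.Smp) (hD : Module.finrank ℝ W = 5) :
    ∑ g ∈ D.fs D.bot D.V 3, (D.fs D.bot g 1).card + 6 * (D.fs D.bot D.V 1).card =
      6 * (D.fs D.bot D.V 2).card := by
  have h1 := double_count (P := D) (A := D.bot) (B := D.V) 1 3
  have h2 := double_count (P := D) (A := D.bot) (B := D.V) 1 2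
  have h3 : ∑ Y ∈ D.fs D.bot D.V 2, (D.fs D.bot Y 1).card = 2 * (D.fs D.bot D.V 2).card := by
    rw [Finset.sum_congr rfl (fun Y hY => card_ends (fs_cl hY) (fs_dm hY)), Finset.sum_const,
      smul_eq_mul, mul_comm]
  have h4 : ∑ a ∈ D.fs D.bot D.V 1, ((D.fs a D.V 3).card + 6) =
      ∑ a ∈ D.fs D.bot D.V 1, 3 * (D.fs a D.V 2).card :=
    Finset.sum_congr rfl (fun a ha => h.link hs hD ha)
  rw [Finset.sum_add_distrib, ← Finset.mul_sum, h1, h2, h3, Finset.sum_const, smul_eq_mul] at h4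
  omega

theorem Prj.euler (hD : Module.finrank ℝ W = 5) :
    (D.fs D.bot D.V 1).card + (D.fs D.bot D.V 3).card =
      (D.fs D.bot D.V 2).card + (D.fs D.bot D.V 4).card := by
  have h := euler5 (P := D) bot_cl top_cl (bot_le top_cl) (by rw [dm_top, hD, dm_bot])
  rw [dm_bot] at h
  exact h

theorem Prj.split (h : Prj C D T) :
    ∑ G ∈ C.fs C.bot C.V 3, (C.fs C.bot G 1).card =
      ∑ g ∈ D.fs D.bot D.V 3, (D.fs D.bot g 1).card + ∑ G ∈ lost C D T, (C.fs C.bot G 1).card ∧
    (C.fs C.bot C.V 3).card = (D.fs D.bot D.V 3).card + (lost C D T).card := by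
  classical
  have hinj : Set.InjOn (pb C T) (D.fs D.bot D.V 3 : Set (Finset W)) := by
    intro a ha a' ha' hh
    have ha : a ∈ D.fs D.bot D.V 3 := ha
    have ha' : a' ∈ D.fs D.bot D.V 3 := ha'
    exact h.pb_inj (fs_cl ha) (fs_cl ha') hh
  have h1 : (C.fs C.bot C.V 3) = (D.fs D.bot D.V 3).image (pb C T) ∪ lost C D T := by
    ext G
    rw [Finset.mem_union, Finset.mem_image, lost, Finset.mem_filter]
    constructor
    · intro hG
      by_cases hh : ∃ g ∈ D.fs D.bot D.V 3, pb C T g = G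
      · exact Or.inl hh
      · push Not at hh
        exact Or.inr ⟨hG, hh⟩
    · rintro (⟨g, hg, rfl⟩ | ⟨h1, _⟩)
      · exact h.two_fwd hg
      · exact h1
  have h2 : Disjoint ((D.fs D.bot D.V 3).image (pb C T)) (lost C D T) := by
    rw [Finset.disjoint_left]
    intro G hG hG'
    rw [Finset.mem_image] at hG
    rw [lost, Finset.mem_filter] at hG'
    obtain ⟨g, hg, rfl⟩ := hG
    exact hG'.2 g hg rfl
  constructor
  · rw [h1, Finset.sum_union h2, Finset.sum_image hinj]
    congr 1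
    exact Finset.sum_congr rfl (fun g hg => h.card_atoms (fs_cl hg))
  · rw [h1, Finset.card_union_of_disjoint h2, Finset.card_image_of_injOn hinj]

theorem lost_sum : 4 * (lost C D T).card ≤
    ∑ G ∈ lost C D T, (C.fs C.bot G 1).card + (lostTri C D T).card := by
  classical
  rw [lostTri, Finset.card_filter, ← Finset.sum_add_distrib, mul_comm, ← smul_eq_mul,
    ← Finset.sum_const]
  apply Finset.sum_le_sum
  intro G hG
  rw [lost, Finset.mem_filter] at hG
  have h1 := card_cov_ge bot_cl (fs_cl hG.1) (fs_le hG.1)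
  rw [dm_bot, fs_dm hG.1] at h1
  have h1' : 3 ≤ (C.fs C.bot G 1).card := h1
  split_ifs with h2
  · omega
  · omega

theorem Prj.main (h : Prj C D T) (hs : C.Smp) (hD : Module.finrank ℝ W = 5)
    (hU : 2 ≤ Module.finrank ℝ U) :
    (D.fs D.bot D.V 2).card + (Module.finrank ℝ U - 1) ^ 2 ≤
      4 * (D.fs D.bot D.V 4).card + 2 * (D.fs D.bot D.V 1).card + (lostTri C D T).card := by
  have h1 := hs.orient hU
  have h2 := h.split
  have h3 := h.incid hs hD
  have h4 := Prj.euler (D := D) hD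
  have h5 := lost_sum (C := C) (D := D) (T := T)
  have h6 := h.c1
  omega

/-- a vertex of maximal degree is adjacent to all vertices -/
theorem star_onto {P : CP U} {a b : Finset U} (ha : a ∈ P.fs P.bot P.V 1)
    (hb : b ∈ P.fs P.bot P.V 1) (hc : (P.fs a P.V 2).card + 1 = (P.fs P.bot P.V 1).card)
    (hne : a ≠ b) : ∃ D, P.Cl D ∧ dm D = 2 ∧ a ⊆ D ∧ b ⊆ D := by
  classical
  have h1 : ∀ e ∈ P.fs a P.V 2, ∃ w ∈ P.fs P.bot e 1, a ≠ w := fun e he =>
    other_end (fs_cl ha) (fs_dm ha) he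
  choose! f hf1 hf2 using h1
  have hinj : Set.InjOn f (P.fs a P.V 2 : Set (Finset U)) := by
    intro e he e' he' hee
    have he : e ∈ P.fs a P.V 2 := he
    have he' : e' ∈ P.fs a P.V 2 := he'
    have g1 := hf1 e he
    have g2 := hf1 e' he'
    exact edge_uniq (fs_cl ha) (fs_dm ha) (fs_cl g1) (fs_dm g1) (hf2 e he) (fs_cl he) (fs_dm he)
      (fs_le he) (fs_ge g1) (fs_cl he') (fs_dm he') (fs_le he') (by rw [hee]; exact fs_ge g2)
  have himg : (P.fs a P.V 2).image f = (P.fs P.bot P.V 1).erase a := by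
    apply Finset.eq_of_subset_of_card_le
    · intro w hw
      rw [Finset.mem_image] at hw
      obtain ⟨e, he, rfl⟩ := hw
      rw [Finset.mem_erase]
      exact ⟨(hf2 e he).symm, fs_mono (Finset.Subset.refl _) (fs_ge he) (hf1 e he)⟩
    · rw [Finset.card_image_of_injOn hinj, Finset.card_erase_of_mem ha]
      omega
  have hb' : b ∈ (P.fs P.bot P.V 1).erase a := Finset.mem_erase.2 ⟨hne.symm, hb⟩
  rw [← himg, Finset.mem_image] at hb'
  obtain ⟨e, he, rfl⟩ := hb'
  exact ⟨e, fs_cl he, fs_dm he, fs_le he, fs_ge (hf1 e he)⟩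

/-- the least number of facets -/
theorem facets_ge {P : CP W} : Module.finrank ℝ W ≤ (P.fs P.bot P.V (Module.finrank ℝ W - 1)).card ∨
    Module.finrank ℝ W = 0 := by
  classical
  rcases Nat.eq_zero_or_pos (Module.finrank ℝ W) with h0 | h0
  · exact Or.inr h0
  left
  have h1 := card_cov_ge (P := P.swap) bot_cl top_cl (bot_le top_cl)
  rw [dm_bot, dm_top, Nat.sub_zero] at h1
  refine h1.trans ?_
  apply Finset.card_le_card_of_injOn (fun B => perp P.V B)
  · intro B hB
    have hB : B ∈ P.swap.fs P.swap.bot P.swap.V 1 := hB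
    have h2 := Cl_perp (P := P.swap) (fs_cl hB).sub
    have h3 := dm_add (P := P.swap) (fs_cl hB)
    rw [fs_dm hB] at h3
    have h4 : dm (perp P.V B) = Module.finrank ℝ W - 1 := by
      have : dm (perp P.swap.G B) = Module.finrank ℝ W - 1 := by omega
      exact this
    exact fs_atom h2 h2.sub h4
  · intro B hB B' hB' hh
    have hB : B ∈ P.swap.fs P.swap.bot P.swap.V 1 := hB
    have hB' : B' ∈ P.swap.fs P.swap.bot P.swap.V 1 := hB'
    have e1 : perp P.swap.V (perp P.swap.G B) = B := fs_cl hB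
    have e2 : perp P.swap.V (perp P.swap.G B') = B' := fs_cl hB'
    rw [← e1, ← e2]
    have : perp P.swap.G B = perp P.swap.G B' := hh
    rw [this]

theorem verts_ge {P : CP W} : Module.finrank ℝ W ≤ (P.fs P.bot P.V 1).card := by
  have h1 := card_cov_ge (P := P) bot_cl top_cl (bot_le top_cl)
  rw [dm_bot, dm_top, Nat.sub_zero] at h1
  exact h1

theorem Prj.finrank_le (h : Prj C D T) : Module.finrank ℝ W ≤ Module.finrank ℝ U := by
  have := h.pb_dm (top_cl (P := D))
  rw [h.pb_top, dm_top, dm_top] at this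
  exact this

/-- without simplex faces the polytope is not a simplex -/
theorem Prj.not_simplex (h : Prj C D T) (hs : C.Smp) (hD : Module.finrank ℝ W = 5) {m : ℕ}
    (hm : m ≤ 2) (hno : ∀ B, C.Cl B → dm B = m + 3 → (C.fs C.bot B 1).card ≠ m + 3) :
    10 < (D.fs D.bot D.V 1).card + (D.fs D.bot D.V 4).card := by
  have h1 := verts_ge (P := C)
  have h2 := h.finrank_le
  have h3 := facets_ge (P := D)
  rw [hD] at h2 h3
  have h3' : 5 ≤ (D.fs D.bot D.V 4).card := by
    rcases h3 with h3 | h3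
    · exact h3
    · omega
  have h4 := h.c0
  by_contra hcon
  push Not at hcon
  have hU : Module.finrank ℝ U = 5 := by omega
  have hc : (C.fs C.bot C.V 1).card = 5 := by omega
  obtain ⟨S, hS, hSc⟩ := Finset.exists_subset_card_eq
    (show m + 3 ≤ (C.fs C.bot C.V 1).card by omega)
  obtain ⟨B, g1, g2, g3⟩ := hs.clique hS (by rw [← Finset.card_pos, hSc]; omega) (by
    intro a ha b hb hab
    apply star_onto (hS ha) (hS hb) _ hab
    have := hs a (fs_cl (hS ha)) (fs_dm (hS ha))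
    omega)
  rw [hSc] at g2
  exact hno B g1 g2 (by rw [g3, hSc])

theorem fat_arith (f0 f1 f2 f3 t n m : ℕ) (h1 : f1 + n ^ 2 ≤ 4 * f3 + 2 * f0 + t)
    (h2 : 3 * t ≤ m * f1) (h3 : f0 + f2 = f1 + f3) (h4 : n + 1 ≤ f0) (hn : 4 ≤ n) (hf3 : 5 ≤ f3)
    (hE : 2 * f1 = n * f0) (hm : m ≤ 2) (h5 : 10 < f0 + f3) :
    (3 - (m : ℝ)) * ((f1 : ℝ) + f2 - 20) < (27 - (m : ℝ)) * ((f0 : ℝ) + f3 - 10) := by
  have h1' : (f1 : ℝ) + (n : ℝ) ^ 2 ≤ 4 * f3 + 2 * f0 + t := by exact_mod_cast h1
  have h2' : 3 * (t : ℝ) ≤ m * f1 := by exact_mod_cast h2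
  have h3' : (f0 : ℝ) + f2 = f1 + f3 := by exact_mod_cast h3
  have h4' : (n : ℝ) + 1 ≤ f0 := by exact_mod_cast h4
  have hf3' : (5 : ℝ) ≤ f3 := by exact_mod_cast hf3
  have hf2 : (f2 : ℝ) = f1 + f3 - f0 := by linarith
  rcases Nat.eq_or_lt_of_le hn with hn4 | hn5
  · subst hn4
    have hE' : (f1 : ℝ) = 2 * f0 := by
      have : (2 : ℝ) * f1 = 4 * f0 := by exact_mod_cast hE
      linarith
    have h5' : (11 : ℝ) ≤ f0 + f3 := by exact_mod_cast h5
    have h6 : (5 : ℝ) ≤ f0 := by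
      have : 5 ≤ f0 := by omega
      exact_mod_cast this
    rw [hf2, hE']
    interval_cases m <;> norm_num <;> linarith
  · have hn5' : (5 : ℝ) ≤ n := by exact_mod_cast hn5
    have hn25 : (25 : ℝ) ≤ (n : ℝ) ^ 2 := by nlinarith
    rw [hf2]
    interval_cases m
    · norm_num at h2' ⊢; linarith
    · norm_num at h2' ⊢; linarith
    · norm_num at h2' ⊢; linarith

theorem Prj.fat (h : Prj C D T) (hs : C.Smp) (hD : Module.finrank ℝ W = 5) {m : ℕ}
    (hm : m ≤ 2) (h10 : 10 < (D.fs D.bot D.V 1).card + (D.fs D.bot D.V 4).card)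
    (ht : 3 * (lostTri C D T).card ≤ m * (D.fs D.bot D.V 2).card) :
    (3 - (m : ℝ)) * (((D.fs D.bot D.V 2).card : ℝ) + (D.fs D.bot D.V 3).card - 20) <
      (27 - (m : ℝ)) * (((D.fs D.bot D.V 1).card : ℝ) + (D.fs D.bot D.V 4).card - 10) := by
  have h2 := h.finrank_le
  rw [hD] at h2
  obtain ⟨n, hn⟩ : ∃ n, Module.finrank ℝ U = n + 1 := ⟨Module.finrank ℝ U - 1, by omega⟩
  have h1 := h.main hs hD (by omega)
  rw [hn, Nat.add_sub_cancel] at h1
  have h3 := facets_ge (P := D)
  rw [hD] at h3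
  have h3' : 5 ≤ (D.fs D.bot D.V 4).card := by
    rcases h3 with h3 | h3
    · exact h3
    · omega
  have h4 := verts_ge (P := C)
  have hE := hs.two_edges
  rw [hn, h.c0, h.c1] at hE
  rw [h.c0] at h4
  refine fat_arith _ _ _ _ _ n m h1 ht (Prj.euler (D := D) hD) (by omega) (by omega) h3' ?_ hm h10
  have : (n + 1) * (D.fs D.bot D.V 1).card = n * (D.fs D.bot D.V 1).card +
    (D.fs D.bot D.V 1).card := by ring
  omega

end CP
end Pool.Agent.Helper715
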