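import Pool.Agent.helper529_fat.Miss

set_option autoImplicit false
set_option linter.unusedSectionVars false
set_option linter.unusedVariables false

/-!
# The main inequality for all projections that keep the vertices and the edges
-/

namespace Pool.Agent.Helper715

open Finset

variable {U : Type*} [NormedAddCommGroup U] [InnerProductSpace ℝ U] [FiniteDimensional ℝ U]
variable {W : Type*} [NormedAddCommGroup W] [InnerProductSpace ℝ W] [FiniteDimensional ℝ W]

namespace CP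

variable {C : CP U} {D : CP W} {T : U →ₗ[ℝ] W}

theorem choose_aux {δ m : ℕ} (h3 : 3 ≤ δ) (h : δ.choose 2 ≤ δ + m) : 2 * δ ≤ 6 + m := by
  have h1 : ((δ.choose 2 : ℕ) : ℝ) ≤ (δ : ℝ) + m := by exact_mod_cast h
  rw [Nat.cast_choose_two] at h1
  have h2 : (0 : ℝ) ≤ ((δ : ℝ) - 3) * ((δ : ℝ) - 4) := by
    rcases Nat.eq_or_lt_of_le h3 with h4 | h4
    · rw [← h4]; norm_num
    · have h5 : (4 : ℝ) ≤ (δ : ℝ) := by exact_mod_cast h4
      exact mul_nonneg (by linarith) (by linarith)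
  have h6 : (2 : ℝ) * δ ≤ 6 + m := by nlinarith
  exact_mod_cast h6

/-- the degrees in the facets -/
theorem Prj.facet_miss (h : Prj C D T) {F a : Finset W} (hF : D.Cl F) (dF : dm F = 4)
    (ha : a ∈ D.fs D.bot F 1) :
    2 * (D.fs a F 2).card ≤ 6 + (miss C (pb C T a) (C.fs (pb C T a) (pb C T F) 2)).card := by
  classical
  have haV := fs_mono (P := D) (Finset.Subset.refl D.bot) hF.sub ha
  have haC := h.atoms.1 a haV
  have hFC := h.pb_cl hF
  have h1 := pairs_gen (P := C) (fs_cl haC) (fs_dm haC) (U := C.fs (pb C T a) (pb C T F) 2)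
  rw [h.card_edges (fs_cl ha) hF] at h1
  have h2 : (C.fs (pb C T a) C.V 3).filter
      (fun G => C.fs (pb C T a) G 2 ⊆ C.fs (pb C T a) (pb C T F) 2) ⊆
      (D.fs a F 3).image (pb C T) := by
    intro G hG
    rw [Finset.mem_filter] at hG
    obtain ⟨p, q, hpq, hpqs⟩ := Finset.card_eq_two.1
      (card_two (fs_cl haC) (fs_cl hG.1) (fs_le hG.1) (fs_dm haC) (fs_dm hG.1))
    have hp : p ∈ C.fs (pb C T a) G 2 := by rw [hpqs]; simp
    have hq : q ∈ C.fs (pb C T a) G 2 := by rw [hpqs]; simp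
    have hp' := hG.2 hp
    have hq' := hG.2 hq
    obtain ⟨x, hx, hxp⟩ := Finset.not_subset.1
      (not_sub_of_ne (fs_cl hq) (fs_cl hp) (by rw [fs_dm hp, fs_dm hq]) hpq.symm)
    have hGF : G ⊆ pb C T F := cover_sub (fs_cl hp) (fs_cl hG.1) hFC (fs_ge hp) (fs_ge hp')
      (by rw [fs_dm hG.1, fs_dm hp]) (fs_ge hq hx) hxp (fs_ge hq' hx)
    obtain ⟨g, hg, rfl⟩ := h.two_bwd hF dF
      (mem_fs.2 ⟨fs_cl hG.1, bot_le (fs_cl hG.1), hGF, fs_dm hG.1⟩)
    exact Finset.mem_image_of_mem _ (mem_fs.2 ⟨fs_cl hg,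
      (h.pb_sub_iff (fs_cl ha)).1 (fs_le hG.1), fs_ge hg, fs_dm hg⟩)
  have h3 := (Finset.card_le_card h2).trans Finset.card_image_le
  have h4 := euler3 (fs_cl ha) hF (fs_ge ha) (by rw [dF, fs_dm ha])
  rw [fs_dm ha] at h4
  have h5 := card_cov_ge (fs_cl ha) hF (fs_ge ha)
  rw [fs_dm ha, dF] at h5
  have h4' : (D.fs a F 2).card = (D.fs a F 3).card := h4
  have h5' : 3 ≤ (D.fs a F 2).card := h5
  apply choose_aux h5'
  omega

theorem Prj.miss_facets_disj (h : Prj C D T) {a F F' : Finset W} (ha : a ∈ D.fs D.bot D.V 1)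
    (hF : F ∈ D.fs a D.V 4) (hF' : F' ∈ D.fs a D.V 4) (hne : F ≠ F') :
    Disjoint (miss C (pb C T a) (C.fs (pb C T a) (pb C T F) 2))
      (miss C (pb C T a) (C.fs (pb C T a) (pb C T F') 2)) := by
  classical
  rw [Finset.disjoint_left]
  intro s hs hs'
  rw [mem_miss] at hs hs'
  obtain ⟨p, q, hpq, rfl⟩ := Finset.card_eq_two.1 hs.1.2
  have hp := hs.1.1 (Finset.mem_insert_self p {q})
  have hq := hs.1.1 (Finset.mem_insert_of_mem (Finset.mem_singleton_self q))
  have hp' := hs'.1.1 (Finset.mem_insert_self p {q})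
  have hq' := hs'.1.1 (Finset.mem_insert_of_mem (Finset.mem_singleton_self q))
  obtain ⟨e, he, rfl⟩ := h.edges.2 p (fs_top (fs_cl hp) (bot_le (fs_cl hp)) (fs_dm hp))
  obtain ⟨e', he', rfl⟩ := h.edges.2 q (fs_top (fs_cl hq) (bot_le (fs_cl hq)) (fs_dm hq))
  have hee : e ≠ e' := fun hh => hpq (by rw [hh])
  have hI : D.Cl (F ∩ F') := Cl_inter (fs_cl hF) (fs_cl hF')
  have heI : e ⊆ F ∩ F' := Finset.subset_inter ((h.pb_sub_iff (fs_cl he)).1 (fs_ge hp))
    ((h.pb_sub_iff (fs_cl he)).1 (fs_ge hp'))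
  have heI' : e' ⊆ F ∩ F' := Finset.subset_inter ((h.pb_sub_iff (fs_cl he')).1 (fs_ge hq))
    ((h.pb_sub_iff (fs_cl he')).1 (fs_ge hq'))
  have d1 : dm (F ∩ F') < 4 := by
    rw [← fs_dm hF]
    apply dm_lt hI (fs_cl hF) Finset.inter_subset_left
    intro hh
    have h2 : F ⊆ F' := by rw [← hh]; exact Finset.inter_subset_right
    exact hne (eq_of_dm_le (fs_cl hF) (fs_cl hF') h2 (by rw [fs_dm hF, fs_dm hF']))
  have d2 : 2 < dm (F ∩ F') := by
    rw [← fs_dm he]
    apply dm_lt (fs_cl he) hI heI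
    intro hh
    rw [← hh] at heI'
    exact not_sub_of_ne (fs_cl he') (fs_cl he) (by rw [fs_dm he, fs_dm he']) hee.symm heI'
  have hI3 : F ∩ F' ∈ D.fs D.bot D.V 3 := fs_atom hI hI.sub (by omega)
  have hI3C := h.two_fwd hI3
  have haI : pb C T a ⊆ pb C T (F ∩ F') := (fs_le hp).trans (pb_mono heI)
  have haC := h.atoms.1 a ha
  apply hs.2 (pb C T (F ∩ F')) (fs_top (fs_cl hI3C) haI (fs_dm hI3C))
  symm
  apply Finset.eq_of_subset_of_card_le
  · intro z hz
    rw [Finset.mem_insert, Finset.mem_singleton] at hz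
    rcases hz with rfl | rfl
    · exact mem_fs.2 ⟨fs_cl hp, fs_le hp, pb_mono heI, fs_dm hp⟩
    · exact mem_fs.2 ⟨fs_cl hq, fs_le hq, pb_mono heI', fs_dm hq⟩
  · rw [card_two (fs_cl haC) (fs_cl hI3C) haI (fs_dm haC) (fs_dm hI3C), Finset.card_pair hpq]

theorem Prj.link_gen (h : Prj C D T) (hD : Module.finrank ℝ W = 5) {a : Finset W}
    (ha : a ∈ D.fs D.bot D.V 1) :
    6 * (D.fs a D.V 2).card ≤ 2 * (D.fs a D.V 3).card + 12 +
      (miss C (pb C T a) (C.fs (pb C T a) C.V 2)).card := by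
  classical
  have dV : dm D.V = 5 := by rw [dm_top, hD]
  have h4 := euler4 (fs_cl ha) (P := D) top_cl (fs_ge ha) (by rw [dV, fs_dm ha])
  rw [fs_dm ha] at h4
  have h4' : (D.fs a D.V 2).card + (D.fs a D.V 4).card = (D.fs a D.V 3).card + 2 := h4
  have d := double_count (P := D) (A := a) (B := D.V) 3 4
  have e1 : ∀ g ∈ D.fs a D.V 3, (D.fs g D.V 4).card = 2 := by
    intro g hg
    have := euler2 (fs_cl hg) (P := D) top_cl (fs_ge hg) (by rw [dV, fs_dm hg])
    rwa [fs_dm hg] at this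
  have e2 : ∀ F ∈ D.fs a D.V 4, 2 * (D.fs a F 3).card ≤
      6 + (miss C (pb C T a) (C.fs (pb C T a) (pb C T F) 2)).card := by
    intro F hF
    have h1 := euler3 (fs_cl ha) (fs_cl hF) (fs_le hF) (by rw [fs_dm hF, fs_dm ha])
    rw [fs_dm ha] at h1
    have h1' : (D.fs a F 2).card = (D.fs a F 3).card := h1
    rw [← h1']
    exact h.facet_miss (fs_cl hF) (fs_dm hF) (fs_atom (fs_cl ha) (fs_le hF) (fs_dm ha))
  have e3 := Finset.sum_le_sum e2
  rw [← Finset.mul_sum, ← d, Finset.sum_congr rfl e1, Finset.sum_const, smul_eq_mul,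
    Finset.sum_add_distrib, Finset.sum_const, smul_eq_mul, ← Finset.card_biUnion] at e3
  · have e4 : ((D.fs a D.V 4).biUnion (fun F =>
        miss C (pb C T a) (C.fs (pb C T a) (pb C T F) 2))).card ≤
        (miss C (pb C T a) (C.fs (pb C T a) C.V 2)).card := by
      apply Finset.card_le_card
      intro s hs
      rw [Finset.mem_biUnion] at hs
      obtain ⟨F, hF, hs⟩ := hs
      exact miss_mono (fs_mono (Finset.Subset.refl _) (h.pb_cl (fs_cl hF)).sub) hs
    omega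
  · intro F hF F' hF' hne
    exact h.miss_facets_disj ha hF hF' hne

theorem Prj.incid_low (h : Prj C D T) (hD : Module.finrank ℝ W = 5) :
    12 * (D.fs D.bot D.V 2).card ≤ 2 * ∑ g ∈ D.fs D.bot D.V 3, (D.fs D.bot g 1).card +
      12 * (D.fs D.bot D.V 1).card + mu C := by
  classical
  have h1 := double_count (P := D) (A := D.bot) (B := D.V) 1 3
  have h2 := sum_deg (P := D)
  have h4 := Finset.sum_le_sum (fun a ha => h.link_gen hD (a := a) ha)
  have h5 : mu C = ∑ a ∈ D.fs D.bot D.V 1, (miss C (pb C T a) (C.fs (pb C T a) C.V 2)).card := by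
    have himg : C.fs C.bot C.V 1 = (D.fs D.bot D.V 1).image (pb C T) := by
      ext c
      rw [Finset.mem_image]
      constructor
      · intro hc
        exact h.atoms.2 c hc
      · rintro ⟨a, ha, rfl⟩
        exact h.atoms.1 a ha
    rw [mu, himg, Finset.sum_image]
    intro a ha a' ha' hh
    have ha : a ∈ D.fs D.bot D.V 1 := ha
    have ha' : a' ∈ D.fs D.bot D.V 1 := ha'
    exact h.pb_inj (fs_cl ha) (fs_cl ha') hh
  rw [h5, ← h1]
  rw [← Finset.mul_sum, h2, Finset.sum_add_distrib, Finset.sum_add_distrib, ← Finset.mul_sum,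
    Finset.sum_const, smul_eq_mul] at h4
  linarith

theorem Prj.main_gen (h : Prj C D T) (hD : Module.finrank ℝ W = 5)
    (hU : 2 ≤ Module.finrank ℝ U) :
    2 * (D.fs D.bot D.V 2).card + 2 * (Module.finrank ℝ U - 1) ^ 2 ≤
      8 * (D.fs D.bot D.V 4).card + 4 * (D.fs D.bot D.V 1).card + 3 * mu C +
        2 * (lostTri C D T).card := by
  have h1 := orient_gen (P := C) hU
  have h2 := h.split
  have h3 := h.incid_low hD
  have h4 := Prj.euler (D := D) hD
  have h5 := lost_sum (C := C) (D := D) (T := T)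
  have h6 := h.c1
  omega

theorem edges_le {P : CP W} : (P.fs P.bot P.V 2).card ≤ (P.fs P.bot P.V 1).card.choose 2 := by
  classical
  rw [← Finset.card_powersetCard]
  apply Finset.card_le_card_of_injOn (fun e => P.fs P.bot e 1)
  · intro e he
    have he : e ∈ P.fs P.bot P.V 2 := he
    rw [Finset.mem_coe, Finset.mem_powersetCard]
    exact ⟨fs_mono (Finset.Subset.refl _) (fs_cl he).sub, card_ends (fs_cl he) (fs_dm he)⟩
  · intro e he e' he' hh
    have he : e ∈ P.fs P.bot P.V 2 := he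
    have he' : e' ∈ P.fs P.bot P.V 2 := he'
    have hh : P.fs P.bot e 1 = P.fs P.bot e' 1 := hh
    apply Finset.Subset.antisymm
    · apply sub_of_atoms (fs_cl he) (fs_cl he')
      intro v hv
      rw [hh] at hv
      exact fs_ge hv
    · apply sub_of_atoms (fs_cl he') (fs_cl he)
      intro v hv
      rw [← hh] at hv
      exact fs_ge hv

theorem fat_arith2 (f0 f1 f2 f3 μ t n : ℕ) (θ : ℝ)
    (h1 : 2 * f1 + 2 * n ^ 2 ≤ 8 * f3 + 4 * f0 + 3 * μ + 2 * t)
    (h2 : 3 * (μ : ℝ) + 2 * (t : ℝ) ≤ θ * f1) (hθ0 : 0 ≤ θ) (hθ2 : θ < 2)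
    (h3 : f0 + f2 = f1 + f3) (h4 : n + 1 ≤ f0) (hn : 5 ≤ n) (hf3 : 5 ≤ f3)
    (hf1 : f1 ≤ f0.choose 2) :
    (2 - θ) * ((f1 : ℝ) + f2 - 20) < (18 - θ) * ((f0 : ℝ) + f3 - 10) := by
  have h1' : 2 * (f1 : ℝ) + 2 * (n : ℝ) ^ 2 ≤ 8 * f3 + 4 * f0 + 3 * μ + 2 * t := by
    exact_mod_cast h1
  have h3' : (f0 : ℝ) + f2 = f1 + f3 := by exact_mod_cast h3
  have h4' : (n : ℝ) + 1 ≤ f0 := by exact_mod_cast h4
  have hf3' : (5 : ℝ) ≤ f3 := by exact_mod_cast hf3
  have hn' : (5 : ℝ) ≤ n := by exact_mod_cast hn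
  have hf2 : (f2 : ℝ) = f1 + f3 - f0 := by linarith
  have hf1' : (f1 : ℝ) ≤ (f0 : ℝ) * (f0 - 1) / 2 := by
    rw [← Nat.cast_choose_two]; exact_mod_cast hf1
  rw [hf2]
  -- the general estimate
  have key : (2 - θ) * (f1 : ℝ) ≤ 8 * f3 + 4 * f0 - 2 * (n : ℝ) ^ 2 := by linarith
  have gen : 0 < (f0 : ℝ) * (12 - 2 * θ) + 4 * (n : ℝ) ^ 2 - 140 - 10 * θ →
      (2 - θ) * ((f1 : ℝ) + (f1 + f3 - f0) - 20) < (18 - θ) * ((f0 : ℝ) + f3 - 10) := by
    intro hpos
    nlinarith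
  rcases Nat.lt_or_ge 5 n with hn6 | hn5
  · apply gen
    have hn6' : (6 : ℝ) ≤ n := by exact_mod_cast hn6
    have hf7 : (7 : ℝ) ≤ f0 := by linarith
    have e1 : (7 : ℝ) * (12 - 2 * θ) ≤ (f0 : ℝ) * (12 - 2 * θ) :=
      mul_le_mul_of_nonneg_right hf7 (by linarith)
    have e2 : (36 : ℝ) ≤ (n : ℝ) ^ 2 := by nlinarith
    linarith
  · have hn5' : n = 5 := by omega
    subst hn5'
    rcases Nat.lt_or_ge 7 f0 with hf8 | hf7
    · apply gen
      have hf8' : (8 : ℝ) ≤ f0 := by exact_mod_cast hf8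
      have e1 : (8 : ℝ) * (12 - 2 * θ) ≤ (f0 : ℝ) * (12 - 2 * θ) :=
        mul_le_mul_of_nonneg_right hf8' (by linarith)
      push_cast
      linarith
    · have hcase : f0 = 6 ∨ f0 = 7 := by omega
      rcases hcase with rfl | rfl
      · rcases lt_or_ge θ (16 / 11) with hθ | hθ
        · apply gen
          push_cast
          linarith
        · push_cast at hf1' ⊢
          have e1 : (2 - θ) * (f1 : ℝ) ≤ (2 - θ) * 15 :=
            mul_le_mul_of_nonneg_left (by linarith) (by linarith)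
          nlinarith
      · rcases lt_or_ge θ (11 / 6) with hθ | hθ
        · apply gen
          push_cast
          linarith
        · push_cast at hf1' ⊢
          have e1 : (2 - θ) * (f1 : ℝ) ≤ (2 - θ) * 21 :=
            mul_le_mul_of_nonneg_left (by linarith) (by linarith)
          nlinarith

theorem Prj.fat_gen (h : Prj C D T) (hD : Module.finrank ℝ W = 5) (hU : 6 ≤ Module.finrank ℝ U) :
    10 < (D.fs D.bot D.V 1).card + (D.fs D.bot D.V 4).card ∧
    ∀ θ : ℝ, 0 ≤ θ → θ < 2 →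
      3 * (mu C : ℝ) + 2 * ((lostTri C D T).card : ℝ) ≤ θ * ((D.fs D.bot D.V 2).card : ℝ) →
    (2 - θ) * (((D.fs D.bot D.V 2).card : ℝ) + (D.fs D.bot D.V 3).card - 20) <
      (18 - θ) * (((D.fs D.bot D.V 1).card : ℝ) + (D.fs D.bot D.V 4).card - 10) := by
  obtain ⟨n, hn⟩ : ∃ n, Module.finrank ℝ U = n + 1 := ⟨Module.finrank ℝ U - 1, by omega⟩
  have h1 := h.main_gen hD (by omega)
  rw [hn, Nat.add_sub_cancel] at h1
  have h3 := facets_ge (P := D)
  rw [hD] at h3
  have h3' : 5 ≤ (D.fs D.bot D.V 4).card := by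
    rcases h3 with h3 | h3
    · exact h3
    · omega
  have h4 := verts_ge (P := C)
  rw [h.c0] at h4
  refine ⟨by omega, ?_⟩
  intro θ hθ0 hθ2 hθ
  exact fat_arith2 _ _ _ _ _ _ n θ h1 hθ hθ0 hθ2 (Prj.euler (D := D) hD) (by omega) (by omega) h3'
    edges_le

/-- simple polytopes have no missing pairs -/
theorem Smp.mu_zero (hs : C.Smp) : mu C = 0 := by
  classical
  rw [mu]
  apply Finset.sum_eq_zero
  intro v hv
  have h1 := faces_gen (P := C) (fs_cl hv) (fs_dm hv)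
  have h2 := hs.faces2 (fs_cl hv) (fs_dm hv)
  omega

end CP
end Pool.Agent.Helper715
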