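import Pool.Agent.helper529_fat.Main

set_option autoImplicit false
set_option linter.unusedSectionVars false
set_option linter.unusedVariables false

/-!
# Pairs of edges that span no 2-face, and the orientation inequality for all polytopes
-/

namespace Pool.Agent.Helper715

open Finset

variable {W : Type*} [NormedAddCommGroup W] [InnerProductSpace ℝ W] [FiniteDimensional ℝ W]

namespace CP

variable {P : CP W}

open scoped Classical in
/-- the pairs of edges in `U` (edges at `v`) that do not lie in a common 2-face -/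
noncomputable def miss (P : CP W) (v : Finset W) (U : Finset (Finset W)) :
    Finset (Finset (Finset W)) :=
  (Finset.powersetCard 2 U).filter (fun s => ∀ F ∈ P.fs v P.V 3, P.fs v F 2 ≠ s)

theorem mem_miss {v : Finset W} {U : Finset (Finset W)} {s : Finset (Finset W)} :
    s ∈ miss P v U ↔ (s ⊆ U ∧ s.card = 2) ∧ ∀ F ∈ P.fs v P.V 3, P.fs v F 2 ≠ s := by
  classical
  rw [miss, Finset.mem_filter, Finset.mem_powersetCard]

theorem miss_mono {v : Finset W} {U U' : Finset (Finset W)} (h : U ⊆ U') :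
    miss P v U ⊆ miss P v U' := by
  intro s hs
  rw [mem_miss] at hs ⊢
  exact ⟨⟨hs.1.1.trans h, hs.1.2⟩, hs.2⟩

theorem miss_disj {v : Finset W} {U U' : Finset (Finset W)} (h : Disjoint U U') :
    Disjoint (miss P v U) (miss P v U') := by
  classical
  rw [Finset.disjoint_left]
  intro s hs hs'
  rw [mem_miss] at hs hs'
  obtain ⟨a, b, hab, rfl⟩ := Finset.card_eq_two.1 hs.1.2
  exact Finset.disjoint_left.1 h (hs.1.1 (Finset.mem_insert_self _ _))
    (hs'.1.1 (Finset.mem_insert_self _ _))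

/-- a 2-face is determined by its two edges at a vertex -/
theorem edges_inj {v F F' : Finset W} (hv : P.Cl v) (hd : dm v = 1) (hF : F ∈ P.fs v P.V 3)
    (hF' : F' ∈ P.fs v P.V 3) (hFF : P.fs v F 2 = P.fs v F' 2) : F = F' := by
  classical
  have h1 := card_two hv (fs_cl hF) (fs_le hF) hd (fs_dm hF)
  obtain ⟨a, b, hab, hc⟩ := Finset.card_eq_two.1 h1
  have ha : a ∈ P.fs v F 2 := by rw [hc]; simp
  have hb : b ∈ P.fs v F 2 := by rw [hc]; simp
  have ha' : a ∈ P.fs v F' 2 := by rw [← hFF]; exact ha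
  have hb' : b ∈ P.fs v F' 2 := by rw [← hFF]; exact hb
  refine uniqF (A := a) (B := b) (fs_cl ha) (fs_cl hF) (fs_cl hF') (fs_ge ha) (fs_ge ha')
    (fs_ge hb) (fs_ge hb') ?_ ?_ ?_
  · exact not_sub_of_ne (fs_cl hb) (fs_cl ha) (by rw [fs_dm ha, fs_dm hb]) (Ne.symm hab)
  · rw [fs_dm hF, fs_dm ha]
  · rw [fs_dm hF', fs_dm ha]

open scoped Classical in
theorem pairs_gen {v : Finset W} (hv : P.Cl v) (hd : dm v = 1) {U : Finset (Finset W)} :
    ((P.fs v P.V 3).filter (fun F => P.fs v F 2 ⊆ U)).card + (miss P v U).card =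
      U.card.choose 2 := by
  have hinj : Set.InjOn (fun F => P.fs v F 2)
      (((P.fs v P.V 3).filter (fun F => P.fs v F 2 ⊆ U) : Finset (Finset W)) : Set (Finset W)) := by
    intro F hF F' hF' hh
    have hF : F ∈ (P.fs v P.V 3).filter (fun F => P.fs v F 2 ⊆ U) := hF
    have hF' : F' ∈ (P.fs v P.V 3).filter (fun F => P.fs v F 2 ⊆ U) := hF'
    exact edges_inj hv hd (Finset.mem_filter.1 hF).1 (Finset.mem_filter.1 hF').1 hh
  have h1 : Finset.powersetCard 2 U =
      ((P.fs v P.V 3).filter (fun F => P.fs v F 2 ⊆ U)).image (fun F => P.fs v F 2) ∪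
        miss P v U := by
    ext s
    rw [Finset.mem_union, Finset.mem_image, mem_miss, Finset.mem_powersetCard]
    constructor
    · intro hs
      by_cases hh : ∃ F ∈ P.fs v P.V 3, P.fs v F 2 = s
      · obtain ⟨F, hF, rfl⟩ := hh
        exact Or.inl ⟨F, Finset.mem_filter.2 ⟨hF, hs.1⟩, rfl⟩
      · push Not at hh
        exact Or.inr ⟨hs, hh⟩
    · rintro (⟨F, hF, rfl⟩ | hh)
      · rw [Finset.mem_filter] at hF
        exact ⟨hF.2, card_two hv (fs_cl hF.1) (fs_le hF.1) hd (fs_dm hF.1)⟩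
      · exact hh.1
  have h2 : Disjoint (((P.fs v P.V 3).filter (fun F => P.fs v F 2 ⊆ U)).image
      (fun F => P.fs v F 2)) (miss P v U) := by
    rw [Finset.disjoint_left]
    intro s hs hs'
    rw [Finset.mem_image] at hs
    rw [mem_miss] at hs'
    obtain ⟨F, hF, rfl⟩ := hs
    exact hs'.2 F (Finset.mem_filter.1 hF).1 rfl
  rw [← Finset.card_powersetCard 2 U, h1, Finset.card_union_of_disjoint h2,
    Finset.card_image_of_injOn hinj]

theorem faces_gen {v : Finset W} (hv : P.Cl v) (hd : dm v = 1) :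
    (P.fs v P.V 3).card + (miss P v (P.fs v P.V 2)).card = (P.fs v P.V 2).card.choose 2 := by
  classical
  have h := pairs_gen (P := P) hv hd (U := P.fs v P.V 2)
  rw [Finset.filter_true_of_mem] at h
  · exact h
  · intro F hF
    exact fs_mono (Finset.Subset.refl _) (fs_cl hF).sub

/-- the number of pairs of edges with a common vertex and without a common 2-face -/
noncomputable def mu (P : CP W) : ℕ := ∑ v ∈ P.fs P.bot P.V 1, (miss P v (P.fs v P.V 2)).card

theorem sum_deg : ∑ v ∈ P.fs P.bot P.V 1, (P.fs v P.V 2).card = 2 * (P.fs P.bot P.V 2).card := by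
  have h1 := double_count (P := P) (A := P.bot) (B := P.V) 1 2
  rw [h1, Finset.sum_congr rfl (fun Y hY => card_ends (fs_cl hY) (fs_dm hY)), Finset.sum_const,
    smul_eq_mul, mul_comm]

theorem incid_gen : ∑ F ∈ P.fs P.bot P.V 3, (P.fs P.bot F 1).card + mu P =
    ∑ v ∈ P.fs P.bot P.V 1, (P.fs v P.V 2).card.choose 2 := by
  have h1 := double_count (P := P) (A := P.bot) (B := P.V) 1 3
  rw [← h1, mu, ← Finset.sum_add_distrib]
  exact Finset.sum_congr rfl (fun v hv => faces_gen (fs_cl hv) (fs_dm hv))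

variable {y : W} {r : Finset W → ℝ}

theorem Gen.count' (h : Gen P y r) :
    ∑ v ∈ P.fs P.bot P.V 1, ((up' P y r v).card.choose 2) ≤ (P.fs P.bot P.V 3).card +
      ∑ v ∈ P.fs P.bot P.V 1, (miss P v (up' P y r v)).card := by
  classical
  have h1 : ∀ v ∈ P.fs P.bot P.V 1, (up' P y r v).card.choose 2 =
      ((P.fs v P.V 3).filter (fun F => P.fs v F 2 ⊆ up' P y r v)).card +
        (miss P v (up' P y r v)).card := fun v hv =>
    (pairs_gen (fs_cl hv) (fs_dm hv)).symm
  rw [Finset.sum_congr rfl h1, Finset.sum_add_distrib, ← Finset.card_biUnion]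
  · apply Nat.add_le_add_right
    apply Finset.card_le_card
    intro F hF
    rw [Finset.mem_biUnion] at hF
    obtain ⟨v, hv, hF⟩ := hF
    rw [Finset.mem_filter] at hF
    exact fs_atom (fs_cl hF.1) (fs_cl hF.1).sub (fs_dm hF.1)
  · intro v hv w hw hvw
    have hv : v ∈ P.fs P.bot P.V 1 := hv
    have hw : w ∈ P.fs P.bot P.V 1 := hw
    rw [Function.onFun, Finset.disjoint_left]
    intro F hF hF'
    rw [Finset.mem_filter] at hF hF'
    have hFa := fs_atom (fs_cl hF.1) (fs_cl hF.1).sub (fs_dm hF.1)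
    have hvF := fs_atom (fs_cl hv) (fs_le hF.1) (fs_dm hv)
    have hwF := fs_atom (fs_cl hw) (fs_le hF'.1) (fs_dm hw)
    have g1 := h.above hFa hvF hF.2 hwF (Ne.symm hvw)
    have g2 := h.above hFa hwF hF'.2 hvF hvw
    linarith

theorem Gen.disj (h : Gen P y r) {v : Finset W} (hv : v ∈ P.fs P.bot P.V 1) :
    Disjoint (up' P y r v) (up' P (-y) (-r) v) := by
  rw [Finset.disjoint_left]
  intro e he he'
  have he0 := up'_sub he
  obtain ⟨w, hw, hne⟩ := other_end (fs_cl hv) (fs_dm hv) he0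
  have hea : e ∈ P.fs P.bot P.V 2 := fs_atom (fs_cl he0) (fs_cl he0).sub (fs_dm he0)
  have hv' : v ∈ P.fs P.bot e 1 := fs_atom (fs_cl hv) (fs_le he0) (fs_dm hv)
  have h1 := (h.mem_up hea hv' hw hne).1 he
  have h2 := (h.neg.mem_up hea hv' hw hne).1 he'
  rw [Pi.neg_apply, Pi.neg_apply] at h2
  linarith

theorem Gen.miss_le (h : Gen P y r) {v : Finset W} (hv : v ∈ P.fs P.bot P.V 1) :
    (miss P v (up' P y r v)).card + (miss P v (up' P (-y) (-r) v)).card ≤
      (miss P v (P.fs v P.V 2)).card := by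
  classical
  rw [← Finset.card_union_of_disjoint (miss_disj (h.disj hv))]
  apply Finset.card_le_card
  apply Finset.union_subset
  · exact miss_mono up'_sub
  · exact miss_mono up'_sub

theorem orient_gen (hN : 2 ≤ Module.finrank ℝ W) :
    ∑ F ∈ P.fs P.bot P.V 3, (P.fs P.bot F 1).card + (Module.finrank ℝ W - 1) ^ 2 ≤
      4 * (P.fs P.bot P.V 3).card + (P.fs P.bot P.V 2).card + mu P := by
  classical
  obtain ⟨y, r, h⟩ := exists_gen (P := P)
  obtain ⟨n, hn⟩ : ∃ n, Module.finrank ℝ W = n + 1 := ⟨Module.finrank ℝ W - 1, by omega⟩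
  have hpart : ∀ v ∈ P.fs P.bot P.V 1,
      (up' P y r v).card + (up' P (-y) (-r) v).card = (P.fs v P.V 2).card := fun v hv => h.part hv
  have hdeg : ∀ v ∈ P.fs P.bot P.V 1, n ≤ (P.fs v P.V 2).card := by
    intro v hv
    have := card_cov_ge (fs_cl hv) (P := P) top_cl (fs_ge hv)
    rw [dm_top, fs_dm hv, hn, Nat.add_sub_cancel] at this
    exact this
  have c1 := h.count'
  have c2 := h.neg.count'
  have hM : ∑ v ∈ P.fs P.bot P.V 1, (miss P v (up' P y r v)).card +
      ∑ v ∈ P.fs P.bot P.V 1, (miss P v (up' P (-y) (-r) v)).card ≤ mu P := by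
    rw [← Finset.sum_add_distrib, mu]
    exact Finset.sum_le_sum (fun v hv => h.miss_le hv)
  have hE := sum_deg (P := P)
  have hI := incid_gen (P := P)
  rw [hn, Nat.add_sub_cancel]
  have hne : (P.fs P.bot P.V 1).Nonempty := by
    obtain ⟨C, hC, h1, h2, h3⟩ := exists_cover bot_cl (P := P) top_cl (bot_le top_cl) (by
      intro hh
      have h1 := dm_top (P := P)
      rw [← hh, dm_bot] at h1
      omega)
    rw [dm_bot] at h3
    exact ⟨C, mem_fs.2 ⟨hC, h1, h2, h3⟩⟩
  obtain ⟨p, hp, hpm⟩ := Finset.exists_max_image (P.fs P.bot P.V 1) r hne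
  obtain ⟨q, hq, hqm⟩ := Finset.exists_min_image (P.fs P.bot P.V 1) r hne
  have hp0 : up' P y r p = ∅ := by
    rw [Finset.eq_empty_iff_forall_notMem]
    intro e he
    have he' := up'_sub he
    obtain ⟨w, hw, hne⟩ := other_end (fs_cl hp) (fs_dm hp) he'
    have hea : e ∈ P.fs P.bot P.V 2 := fs_atom (fs_cl he') (fs_cl he').sub (fs_dm he')
    have h1 := (h.mem_up hea (fs_atom (fs_cl hp) (fs_le he') (fs_dm hp)) hw hne).1 he
    have h2 := hpm w (fs_mono (P := P) (Finset.Subset.refl P.bot) (fs_cl he').sub hw)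
    linarith
  have hq0 : up' P (-y) (-r) q = ∅ := by
    rw [Finset.eq_empty_iff_forall_notMem]
    intro e he
    have he' := up'_sub he
    obtain ⟨w, hw, hne⟩ := other_end (fs_cl hq) (fs_dm hq) he'
    have hea : e ∈ P.fs P.bot P.V 2 := fs_atom (fs_cl he') (fs_cl he').sub (fs_dm he')
    have h1 := (h.neg.mem_up hea (fs_atom (fs_cl hq) (fs_le he') (fs_dm hq)) hw hne).1 he
    have h2 := hqm w (fs_mono (P := P) (Finset.Subset.refl P.bot) (fs_cl he').sub hw)
    rw [Pi.neg_apply, Pi.neg_apply] at h1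
    linarith
  have hpp := hpart p hp
  have hqq := hpart q hq
  rw [hp0, Finset.card_empty, zero_add] at hpp
  rw [hq0, Finset.card_empty, add_zero] at hqq
  have hdp := hdeg p hp
  have hdq := hdeg q hq
  have hpq : p ≠ q := by
    rintro rfl
    rw [hp0, Finset.card_empty] at hqq
    omega
  -- the sum of the squares
  have hsq : 2 * (n : ℝ) ^ 2 ≤ ∑ v ∈ P.fs P.bot P.V 1,
      (((up' P y r v).card : ℝ) - ((up' P (-y) (-r) v).card : ℝ)) ^ 2 := by
    have h1 : 2 * (n : ℝ) ^ 2 ≤ ∑ v ∈ ({p, q} : Finset (Finset W)),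
        (((up' P y r v).card : ℝ) - ((up' P (-y) (-r) v).card : ℝ)) ^ 2 := by
      rw [Finset.sum_pair hpq, hp0, hq0, hpp, hqq, Finset.card_empty]
      have e1 : (n : ℝ) ≤ ((P.fs p P.V 2).card : ℝ) := by exact_mod_cast hdp
      have e2 : (n : ℝ) ≤ ((P.fs q P.V 2).card : ℝ) := by exact_mod_cast hdq
      have e0 : (0 : ℝ) ≤ (n : ℝ) := Nat.cast_nonneg n
      push_cast
      nlinarith
    refine h1.trans ?_
    apply Finset.sum_le_sum_of_subset_of_nonneg
    · intro x hx
      rw [Finset.mem_insert, Finset.mem_singleton] at hx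
      rcases hx with rfl | rfl
      · exact hp
      · exact hq
    · intro v _ _
      positivity
  have hsum : ∑ v ∈ P.fs P.bot P.V 1, (4 * (((up' P y r v).card.choose 2 : ℝ) +
      ((up' P (-y) (-r) v).card.choose 2 : ℝ))) =
      ∑ v ∈ P.fs P.bot P.V 1, (2 * (((P.fs v P.V 2).card.choose 2 : ℕ) : ℝ) -
        ((P.fs v P.V 2).card : ℝ)) +
      ∑ v ∈ P.fs P.bot P.V 1,
      (((up' P y r v).card : ℝ) - ((up' P (-y) (-r) v).card : ℝ)) ^ 2 := by
    rw [← Finset.sum_add_distrib]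
    apply Finset.sum_congr rfl
    intro v hv
    rw [arith1 _ _ _ (hpart v hv), Nat.cast_choose_two]
    ring
  rw [← Finset.mul_sum, Finset.sum_add_distrib, Finset.sum_sub_distrib, ← Finset.mul_sum] at hsum
  have c1' : (∑ v ∈ P.fs P.bot P.V 1, ((up' P y r v).card.choose 2 : ℝ)) ≤
      ((P.fs P.bot P.V 3).card : ℝ) +
        ((∑ v ∈ P.fs P.bot P.V 1, (miss P v (up' P y r v)).card : ℕ) : ℝ) := by exact_mod_cast c1
  have c2' : (∑ v ∈ P.fs P.bot P.V 1, ((up' P (-y) (-r) v).card.choose 2 : ℝ)) ≤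
      ((P.fs P.bot P.V 3).card : ℝ) +
        ((∑ v ∈ P.fs P.bot P.V 1, (miss P v (up' P (-y) (-r) v)).card : ℕ) : ℝ) := by
    exact_mod_cast c2
  have hM' : ((∑ v ∈ P.fs P.bot P.V 1, (miss P v (up' P y r v)).card : ℕ) : ℝ) +
      ((∑ v ∈ P.fs P.bot P.V 1, (miss P v (up' P (-y) (-r) v)).card : ℕ) : ℝ) ≤ (mu P : ℝ) := by
    exact_mod_cast hM
  have hE' : (∑ v ∈ P.fs P.bot P.V 1, ((P.fs v P.V 2).card : ℝ)) =
      2 * ((P.fs P.bot P.V 2).card : ℝ) := by exact_mod_cast hE
  have hI' : ((∑ F ∈ P.fs P.bot P.V 3, (P.fs P.bot F 1).card : ℕ) : ℝ) + (mu P : ℝ) =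
      ∑ v ∈ P.fs P.bot P.V 1, (((P.fs v P.V 2).card.choose 2 : ℕ) : ℝ) := by exact_mod_cast hI
  have hgoal : ((∑ F ∈ P.fs P.bot P.V 3, (P.fs P.bot F 1).card : ℕ) : ℝ) + (n : ℝ) ^ 2 ≤
      4 * ((P.fs P.bot P.V 3).card : ℝ) + ((P.fs P.bot P.V 2).card : ℝ) + (mu P : ℝ) := by
    linarith
  exact_mod_cast hgoal

end CP
end Pool.Agent.Helper715
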