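import Pool.Agent.helper529_fat.Simple

set_option autoImplicit false
set_option linter.unusedSectionVars false
set_option linter.unusedVariables false

/-!
# Linear orientations of simple polytopes and the number of two-dimensional faces
-/

namespace Pool.Agent.Helper715

open Finset

variable {W : Type*} [NormedAddCommGroup W] [InnerProductSpace ℝ W] [FiniteDimensional ℝ W]

namespace CP

variable {P : CP W}

/-- a vertex function coming from a linear functional, with pairwise distinct values -/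
structure Gen (P : CP W) (y : W) (r : Finset W → ℝ) : Prop where
  ev : ∀ a ∈ P.fs P.bot P.V 1, ∀ x ∈ a, inner ℝ y x = r a * inner ℝ (P.gs P.bot) x
  inj : ∀ a ∈ P.fs P.bot P.V 1, ∀ b ∈ P.fs P.bot P.V 1, r a = r b → a = b

theorem exists_gen : ∃ y r, Gen P y r := by
  classical
  obtain ⟨y, ρ, h1, h2⟩ := exists_generic (P := P)
  refine ⟨y, fun A => if h : P.Cl A ∧ dm A = 1 then ρ ⟨A, h⟩ else 0, ?_, ?_⟩
  · intro a ha x hx
    rw [mem_fs] at ha
    rw [dif_pos ⟨ha.1, ha.2.2.2⟩]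
    exact h1 ⟨a, ha.1, ha.2.2.2⟩ x hx
  · intro a ha b hb hab
    rw [mem_fs] at ha hb
    simp only [dif_pos (⟨ha.1, ha.2.2.2⟩ : P.Cl a ∧ dm a = 1),
      dif_pos (⟨hb.1, hb.2.2.2⟩ : P.Cl b ∧ dm b = 1)] at hab
    exact congrArg Subtype.val (h2 hab)

variable {y : W} {r : Finset W → ℝ}

theorem Gen.neg (h : Gen P y r) : Gen P (-y) (-r) where
  ev := by
    intro a ha x hx
    rw [inner_neg_left, h.ev a ha x hx, Pi.neg_apply]
    ring
  inj := by
    intro a ha b hb hab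
    rw [Pi.neg_apply, Pi.neg_apply, neg_inj] at hab
    exact h.inj a ha b hb hab

open scoped Classical in
/-- the edges at `v` on which the functional increases -/
noncomputable def up' (P : CP W) (y : W) (r : Finset W → ℝ) (v : Finset W) : Finset (Finset W) :=
  (P.fs v P.V 2).filter (fun e => ∃ x ∈ e, 0 < inner ℝ (y - r v • P.gs P.bot) x)

theorem up'_sub {v : Finset W} : up' P y r v ⊆ P.fs v P.V 2 := by
  classical
  exact Finset.filter_subset _ _

theorem Gen.eval (h : Gen P y r) {v a : Finset W} (ha : a ∈ P.fs P.bot P.V 1) {x : W}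
    (hx : x ∈ a) : inner ℝ (y - r v • P.gs P.bot) x = (r a - r v) * inner ℝ (P.gs P.bot) x := by
  rw [inner_sub_left, real_inner_smul_left, h.ev a ha x hx]
  ring

theorem exists_rep' {a : Finset W} (ha : a ∈ P.fs P.bot P.V 1) :
    ∃ x ∈ a, 0 < inner ℝ (P.gs P.bot) x := by
  rw [mem_fs] at ha
  obtain ⟨x, hx, hxb⟩ := exists_rep (⟨a, ha.1, ha.2.2.2⟩ : P.Lev 1)
  exact ⟨x, hx, gs_pos bot_cl (ha.1.sub hx) hxb⟩

theorem Gen.pos (h : Gen P y r) {v w : Finset W} (hw : w ∈ P.fs P.bot P.V 1) (hlt : r v < r w) :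
    ∃ x ∈ w, 0 < inner ℝ (y - r v • P.gs P.bot) x := by
  obtain ⟨x, hx, hx0⟩ := exists_rep' hw
  refine ⟨x, hx, ?_⟩
  rw [h.eval hw hx]
  exact mul_pos (by linarith) hx0

theorem Gen.zero (h : Gen P y r) {v : Finset W} (hv : v ∈ P.fs P.bot P.V 1) :
    ∀ x ∈ v, inner ℝ (y - r v • P.gs P.bot) x = 0 := by
  intro x hx
  rw [h.eval hv hx, sub_self, zero_mul]

theorem Gen.nonneg_on (h : Gen P y r) {v e : Finset W} (hv : v ∈ P.fs P.bot P.V 1)
    (he : e ∈ P.fs v P.V 2) (hpos : ∃ x ∈ e, 0 < inner ℝ (y - r v • P.gs P.bot) x) :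
    ∀ x ∈ e, 0 ≤ inner ℝ (y - r v • P.gs P.bot) x := by
  obtain ⟨c, hc⟩ := exists_ratio (P := P) (fs_cl hv) (B := P.V) (X := e)
    ⟨fs_cl he, fs_le he, (fs_cl he).sub, by rw [fs_dm he, fs_dm hv]⟩ (h.zero hv)
  obtain ⟨x, hx, hxp⟩ := hpos
  have h1 := gs_nonneg (P := P) v ((fs_cl he).sub hx)
  have hc0 : 0 ≤ c := by
    by_contra hcon
    push Not at hcon
    rw [hc x hx] at hxp
    have := mul_nonneg (neg_nonneg.2 hcon.le) h1
    linarith
  intro x' hx'
  rw [hc x' hx']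
  exact mul_nonneg hc0 (gs_nonneg (P := P) v ((fs_cl he).sub hx'))

theorem Gen.mem_up (h : Gen P y r) {v w e : Finset W} (he : e ∈ P.fs P.bot P.V 2)
    (hv : v ∈ P.fs P.bot e 1) (hw : w ∈ P.fs P.bot e 1) (hne : v ≠ w) :
    e ∈ up' P y r v ↔ r v < r w := by
  classical
  have hv' := fs_mono (P := P) (Finset.Subset.refl P.bot) (fs_cl he).sub hv
  have hw' := fs_mono (P := P) (Finset.Subset.refl P.bot) (fs_cl he).sub hw
  have hev : e ∈ P.fs v P.V 2 := fs_top (fs_cl he) (fs_ge hv) (fs_dm he)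
  constructor
  · intro hh
    rw [up', Finset.mem_filter] at hh
    by_contra hcon
    push Not at hcon
    have hlt : r w < r v := lt_of_le_of_ne hcon (fun hh => hne (h.inj w hw' v hv' hh).symm)
    obtain ⟨x, hx, hx0⟩ := h.neg.pos (v := v) hw' (by simpa using hlt)
    have h1 := h.nonneg_on hv' hev hh.2 x (fs_ge hw hx)
    have h2 : (-y - (-r) v • P.gs P.bot) = -(y - r v • P.gs P.bot) := by
      rw [Pi.neg_apply, neg_smul]; abel
    rw [h2, inner_neg_left] at hx0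
    linarith
  · intro hh
    rw [up', Finset.mem_filter]
    obtain ⟨x, hx, hx0⟩ := h.pos (v := v) hw' hh
    exact ⟨hev, x, fs_ge hw hx, hx0⟩

/-- the other end of an edge -/
theorem other_end {v e : Finset W} (hv : P.Cl v) (hd : dm v = 1) (he : e ∈ P.fs v P.V 2) :
    ∃ w ∈ P.fs P.bot e 1, v ≠ w := by
  have h1 := card_ends (fs_cl he) (fs_dm he)
  obtain ⟨w, hw, hne⟩ := Finset.exists_mem_ne (show 1 < (P.fs P.bot e 1).card by omega) v
  exact ⟨w, hw, hne.symm⟩

theorem Gen.part (h : Gen P y r) {v : Finset W} (hv : v ∈ P.fs P.bot P.V 1) :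
    (up' P y r v).card + (up' P (-y) (-r) v).card = (P.fs v P.V 2).card := by
  classical
  have key : ∀ e ∈ P.fs v P.V 2, (e ∈ up' P (-y) (-r) v ↔ e ∉ up' P y r v) := by
    intro e he
    obtain ⟨w, hw, hne⟩ := other_end (fs_cl hv) (fs_dm hv) he
    have he' : e ∈ P.fs P.bot P.V 2 := fs_atom (fs_cl he) (fs_cl he).sub (fs_dm he)
    have hv' : v ∈ P.fs P.bot e 1 := fs_atom (fs_cl hv) (fs_le he) (fs_dm hv)
    have hw' := fs_mono (P := P) (Finset.Subset.refl P.bot) (fs_cl he).sub hw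
    rw [h.mem_up he' hv' hw hne, h.neg.mem_up he' hv' hw hne, Pi.neg_apply, Pi.neg_apply,
      neg_lt_neg_iff, not_lt]
    constructor
    · exact fun hh => hh.le
    · exact fun hh => lt_of_le_of_ne hh (fun hq => hne (h.inj w hw' v hv hq).symm)
  have h1 : up' P (-y) (-r) v = P.fs v P.V 2 \ up' P y r v := by
    ext e
    rw [Finset.mem_sdiff]
    constructor
    · intro he
      have h2 := up'_sub he
      exact ⟨h2, (key e h2).1 he⟩
    · rintro ⟨h2, h3⟩
      exact (key e h2).2 h3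
  rw [h1, Finset.card_sdiff_of_subset up'_sub]
  have := Finset.card_le_card (up'_sub (P := P) (y := y) (r := r) (v := v))
  omega

theorem Gen.above (h : Gen P y r) {v F c : Finset W} (hF : F ∈ P.fs P.bot P.V 3)
    (hv : v ∈ P.fs P.bot F 1) (hup : P.fs v F 2 ⊆ up' P y r v) (hc : c ∈ P.fs P.bot F 1)
    (hcv : c ≠ v) : r v < r c := by
  classical
  have hv' := fs_mono (P := P) (Finset.Subset.refl P.bot) (fs_cl hF).sub hv
  have hc' := fs_mono (P := P) (Finset.Subset.refl P.bot) (fs_cl hF).sub hc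
  by_contra hcon
  push Not at hcon
  have hlt : r c < r v := lt_of_le_of_ne hcon (fun hh => hcv (h.inj c hc' v hv' hh))
  obtain ⟨x, hx, hx0⟩ := h.neg.pos (v := v) hc' (by simpa using hlt)
  obtain ⟨C, hC, hvC, hCf, hdC, x', hx', hx'p⟩ := cover_up (P := P) (fs_cl hv) (fs_cl hF) (fs_ge hv)
    (h.neg.zero hv') ⟨x, fs_ge hc hx, hx0⟩
  rw [fs_dm hv] at hdC
  have h1 : C ∈ P.fs v F 2 := mem_fs.2 ⟨hC, hvC, hCf, hdC⟩
  have h2 := hup h1
  rw [up', Finset.mem_filter] at h2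
  have h3 := h.nonneg_on hv' h2.1 h2.2 x' hx'
  have h2 : (-y - (-r) v • P.gs P.bot) = -(y - r v • P.gs P.bot) := by
    rw [Pi.neg_apply, neg_smul]; abel
  rw [h2, inner_neg_left] at hx'p
  linarith

theorem Gen.count (h : Gen P y r) (hs : P.Smp) :
    ∑ v ∈ P.fs P.bot P.V 1, ((up' P y r v).card.choose 2) ≤ (P.fs P.bot P.V 3).card := by
  classical
  have h1 : ∀ v ∈ P.fs P.bot P.V 1, (up' P y r v).card.choose 2 =
      ((P.fs v P.V 3).filter (fun F => P.fs v F 2 ⊆ up' P y r v)).card := fun v hv =>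
    (hs.pairs (fs_cl hv) (fs_dm hv) up'_sub).symm
  rw [Finset.sum_congr rfl h1, ← Finset.card_biUnion]
  · apply Finset.card_le_card
    intro F hF
    rw [Finset.mem_biUnion] at hF
    obtain ⟨v, hv, hF⟩ := hF
    rw [Finset.mem_filter] at hF
    exact fs_atom (fs_cl hF.1) (fs_cl hF.1).sub (fs_dm hF.1)
  · intro v hv w hw hvw
    have hv : v ∈ P.fs P.bot P.V 1 := hv
    have hw : w ∈ P.fs P.bot P.V 1 := hw
    rw [Function.onFun, Finset.disjoint_left]
    intro F hF hF'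
    rw [Finset.mem_filter] at hF hF'
    have hFa := fs_atom (fs_cl hF.1) (fs_cl hF.1).sub (fs_dm hF.1)
    have hvF := fs_atom (fs_cl hv) (fs_le hF.1) (fs_dm hv)
    have hwF := fs_atom (fs_cl hw) (fs_le hF'.1) (fs_dm hw)
    have g1 := h.above hFa hvF hF.2 hwF (Ne.symm hvw)
    have g2 := h.above hFa hwF hF'.2 hvF hvw
    linarith

theorem arith1 (u d n : ℕ) (h : u + d = n) :
    4 * ((u.choose 2 : ℝ) + (d.choose 2 : ℝ)) = (n : ℝ) ^ 2 - 2 * n + ((u : ℝ) - d) ^ 2 := by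
  rw [Nat.cast_choose_two, Nat.cast_choose_two, ← h, Nat.cast_add]
  ring

theorem Smp.orient (hs : P.Smp) (hN : 2 ≤ Module.finrank ℝ W) :
    ∑ F ∈ P.fs P.bot P.V 3, (P.fs P.bot F 1).card + (Module.finrank ℝ W - 1) ^ 2 ≤
      4 * (P.fs P.bot P.V 3).card + (P.fs P.bot P.V 2).card := by
  classical
  obtain ⟨y, r, h⟩ := exists_gen (P := P)
  obtain ⟨n, hn⟩ : ∃ n, Module.finrank ℝ W = n + 1 := ⟨Module.finrank ℝ W - 1, by omega⟩
  have hdeg : ∀ v ∈ P.fs P.bot P.V 1, (P.fs v P.V 2).card = n := by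
    intro v hv
    have := hs v (fs_cl hv) (fs_dm hv)
    omega
  have hpart : ∀ v ∈ P.fs P.bot P.V 1,
      (up' P y r v).card + (up' P (-y) (-r) v).card = n := by
    intro v hv
    rw [h.part hv, hdeg v hv]
  have c1 := h.count hs
  have c2 := h.neg.count hs
  have hE := hs.two_edges
  have hI := hs.incid
  rw [hn] at hE hI ⊢
  rw [Nat.add_sub_cancel] at hI ⊢
  rw [hI]
  have hne : (P.fs P.bot P.V 1).Nonempty := by
    obtain ⟨C, hC, h1, h2, h3⟩ := exists_cover bot_cl (P := P) top_cl (bot_le top_cl) (by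
      intro hh
      have h1 := dm_top (P := P)
      rw [← hh, dm_bot] at h1
      omega)
    rw [dm_bot] at h3
    exact ⟨C, mem_fs.2 ⟨hC, h1, h2, h3⟩⟩
  obtain ⟨p, hp, hpm⟩ := Finset.exists_max_image (P.fs P.bot P.V 1) r hne
  obtain ⟨q, hq, hqm⟩ := Finset.exists_min_image (P.fs P.bot P.V 1) r hne
  have hp0 : up' P y r p = ∅ := by
    rw [Finset.eq_empty_iff_forall_notMem]
    intro e he
    have he' := up'_sub he
    obtain ⟨w, hw, hne⟩ := other_end (fs_cl hp) (fs_dm hp) he'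
    have hea : e ∈ P.fs P.bot P.V 2 := fs_atom (fs_cl he') (fs_cl he').sub (fs_dm he')
    have h1 := (h.mem_up hea (fs_atom (fs_cl hp) (fs_le he') (fs_dm hp)) hw hne).1 he
    have h2 := hpm w (fs_mono (P := P) (Finset.Subset.refl P.bot) (fs_cl he').sub hw)
    linarith
  have hq0 : up' P (-y) (-r) q = ∅ := by
    rw [Finset.eq_empty_iff_forall_notMem]
    intro e he
    have he' := up'_sub he
    obtain ⟨w, hw, hne⟩ := other_end (fs_cl hq) (fs_dm hq) he'
    have hea : e ∈ P.fs P.bot P.V 2 := fs_atom (fs_cl he') (fs_cl he').sub (fs_dm he')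
    have h1 := (h.neg.mem_up hea (fs_atom (fs_cl hq) (fs_le he') (fs_dm hq)) hw hne).1 he
    have h2 := hqm w (fs_mono (P := P) (Finset.Subset.refl P.bot) (fs_cl he').sub hw)
    rw [Pi.neg_apply, Pi.neg_apply] at h1
    linarith
  have hpp := hpart p hp
  have hqq := hpart q hq
  rw [hp0, Finset.card_empty, zero_add] at hpp
  rw [hq0, Finset.card_empty, add_zero] at hqq
  have hpq : p ≠ q := by
    rintro rfl
    rw [hp0, Finset.card_empty] at hqq
    omega
  -- the sum of the squares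
  have hsq : 2 * (n : ℝ) ^ 2 ≤ ∑ v ∈ P.fs P.bot P.V 1,
      (((up' P y r v).card : ℝ) - ((up' P (-y) (-r) v).card : ℝ)) ^ 2 := by
    have h1 : ∑ v ∈ ({p, q} : Finset (Finset W)),
        (((up' P y r v).card : ℝ) - ((up' P (-y) (-r) v).card : ℝ)) ^ 2 = 2 * (n : ℝ) ^ 2 := by
      rw [Finset.sum_pair hpq, hp0, hq0, hpp, hqq, Finset.card_empty]
      push_cast
      ring
    rw [← h1]
    apply Finset.sum_le_sum_of_subset_of_nonneg
    · intro x hx
      rw [Finset.mem_insert, Finset.mem_singleton] at hx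
      rcases hx with rfl | rfl
      · exact hp
      · exact hq
    · intro v _ _
      positivity
  have hsum : ∑ v ∈ P.fs P.bot P.V 1, (4 * (((up' P y r v).card.choose 2 : ℝ) +
      ((up' P (-y) (-r) v).card.choose 2 : ℝ))) = (P.fs P.bot P.V 1).card * ((n : ℝ) ^ 2 - 2 * n) +
      ∑ v ∈ P.fs P.bot P.V 1,
      (((up' P y r v).card : ℝ) - ((up' P (-y) (-r) v).card : ℝ)) ^ 2 := by
    rw [Finset.sum_congr rfl (fun v hv => arith1 _ _ n (hpart v hv)), Finset.sum_add_distrib,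
      Finset.sum_const, nsmul_eq_mul]
  rw [← Finset.mul_sum, Finset.sum_add_distrib] at hsum
  have c1' : (∑ v ∈ P.fs P.bot P.V 1, ((up' P y r v).card.choose 2 : ℝ)) ≤
      ((P.fs P.bot P.V 3).card : ℝ) := by exact_mod_cast c1
  have c2' : (∑ v ∈ P.fs P.bot P.V 1, ((up' P (-y) (-r) v).card.choose 2 : ℝ)) ≤
      ((P.fs P.bot P.V 3).card : ℝ) := by exact_mod_cast c2
  have hE' : 2 * ((P.fs P.bot P.V 2).card : ℝ) + ((P.fs P.bot P.V 1).card : ℝ) =
      ((n : ℝ) + 1) * ((P.fs P.bot P.V 1).card : ℝ) := by exact_mod_cast hE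
  have hgoal : ((P.fs P.bot P.V 1).card : ℝ) * (n.choose 2 : ℝ) + (n : ℝ) ^ 2 ≤
      4 * ((P.fs P.bot P.V 3).card : ℝ) + ((P.fs P.bot P.V 2).card : ℝ) := by
    rw [Nat.cast_choose_two]
    nlinarith
  exact_mod_cast hgoal

end CP
end Pool.Agent.Helper715
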