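import Pool.Agent.helper529_fat.Tri

set_option autoImplicit false
set_option linter.unusedSectionVars false
set_option linter.unusedVariables false

/-!
# Projections that keep the vertices and the edges
-/

namespace Pool.Agent.Helper715

open Finset

variable {U : Type*} [NormedAddCommGroup U] [InnerProductSpace ℝ U] [FiniteDimensional ℝ U]
variable {W : Type*} [NormedAddCommGroup W] [InnerProductSpace ℝ W] [FiniteDimensional ℝ W]

namespace CP

open scoped Classical in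
/-- the pull-back of a set of vertices -/
noncomputable def pb (C : CP U) (T : U →ₗ[ℝ] W) (A : Finset W) : Finset U :=
  C.V.filter (fun v => T v ∈ A)

/-- `T` maps the generators of `C` onto those of `D`, and keeps the numbers of vertices and edges -/
structure Prj (C : CP U) (D : CP W) (T : U →ₗ[ℝ] W) : Prop where
  maps : ∀ v ∈ C.V, T v ∈ D.V
  surj : ∀ w ∈ D.V, ∃ v ∈ C.V, T v = w
  nz : ∀ w ∈ D.V, w ≠ 0
  c0 : (C.fs C.bot C.V 1).card = (D.fs D.bot D.V 1).card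
  c1 : (C.fs C.bot C.V 2).card = (D.fs D.bot D.V 2).card

variable {C : CP U} {D : CP W} {T : U →ₗ[ℝ] W}

theorem mem_pb {A : Finset W} {v : U} : v ∈ pb C T A ↔ v ∈ C.V ∧ T v ∈ A := by
  classical
  rw [pb, Finset.mem_filter]

theorem pb_mono {A B : Finset W} (h : A ⊆ B) : pb C T A ⊆ pb C T B := by
  intro v hv
  rw [mem_pb] at hv ⊢
  exact ⟨hv.1, h hv.2⟩

/-- an atom below -/
theorem exists_atom {A : Finset W} (hA : D.Cl A) (hd : 1 ≤ dm A) :
    ∃ a, a ∈ D.fs D.bot A 1 := by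
  obtain ⟨X, h2, h3, h4, h5⟩ := exists_cover bot_cl hA (bot_le hA) (by
    rintro rfl
    rw [dm_bot] at hd
    omega)
  rw [dm_bot] at h5
  exact ⟨X, mem_fs.2 ⟨h2, h3, h4, h5⟩⟩

namespace Prj

variable (h : Prj C D T)
include h

theorem pb_cl {A : Finset W} (hA : D.Cl A) : C.Cl (pb C T A) := by
  refine Cl_filter (P := C) top_cl (z := LinearMap.adjoint T (D.gs A)) (fun v hv => ?_) (fun v => ?_)
  · rw [LinearMap.adjoint_inner_left]
    exact gs_nonneg A (h.maps v hv)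
  · rw [LinearMap.adjoint_inner_left, mem_pb]
    constructor
    · rintro ⟨h1, h2⟩
      exact ⟨h1, gs_zero h2⟩
    · rintro ⟨h1, h2⟩
      refine ⟨h1, ?_⟩
      by_contra hcon
      have := gs_pos hA (h.maps v h1) hcon
      linarith

theorem pb_sub_iff {A B : Finset W} (hA : D.Cl A) : pb C T A ⊆ pb C T B ↔ A ⊆ B := by
  constructor
  · intro hh w hw
    obtain ⟨v, hv, rfl⟩ := h.surj w (hA.sub hw)
    exact (mem_pb.1 (hh (mem_pb.2 ⟨hv, hw⟩))).2
  · exact pb_mono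

theorem pb_inj {A B : Finset W} (hA : D.Cl A) (hB : D.Cl B) (hh : pb C T A = pb C T B) : A = B :=
  Finset.Subset.antisymm ((h.pb_sub_iff hA).1 hh.le) ((h.pb_sub_iff hB).1 hh.ge)

theorem pb_top : pb C T D.V = C.V := by
  ext v
  rw [mem_pb]
  exact ⟨fun hh => hh.1, fun hh => ⟨hh, h.maps v hh⟩⟩

theorem pb_dm {A : Finset W} (hA : D.Cl A) : dm A ≤ dm (pb C T A) := by
  have h1 : Submodule.span ℝ (A : Set W) ≤ (Submodule.span ℝ (pb C T A : Set U)).map T := by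
    rw [Submodule.span_le]
    intro w hw
    obtain ⟨v, hv, rfl⟩ := h.surj w (hA.sub hw)
    exact Submodule.mem_map_of_mem (Submodule.subset_span (mem_pb.2 ⟨hv, hw⟩))
  exact (Submodule.finrank_mono h1).trans (Submodule.finrank_map_le T _)

theorem atom_eq {a a' : Finset W} (ha : a ∈ D.fs D.bot D.V 1) (ha' : a' ∈ D.fs D.bot D.V 1)
    {c : Finset U} (hc : c ∈ C.fs C.bot C.V 1) (h1 : c ⊆ pb C T a) (h2 : c ⊆ pb C T a') :
    a = a' := by
  obtain ⟨x, hx, _⟩ := exists_rep' hc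
  have k1 := (mem_pb.1 (h1 hx))
  have k2 := (mem_pb.1 (h2 hx)).2
  refine cover_eq bot_cl (fs_cl ha) (fs_cl ha') (fs_le ha) (fs_le ha') (by rw [fs_dm ha, dm_bot])
    (by rw [fs_dm ha', dm_bot]) k1.2 ?_ k2
  intro hh
  exact h.nz _ (h.maps x k1.1) (mem_bot hh)

theorem atoms_aux : ∃ α : Finset W → Finset U, (∀ a ∈ D.fs D.bot D.V 1, α a ∈ C.fs C.bot (pb C T a) 1) ∧
    ∀ c ∈ C.fs C.bot C.V 1, ∃ a ∈ D.fs D.bot D.V 1, α a = c := by
  classical
  have hex : ∀ a ∈ D.fs D.bot D.V 1, ∃ c, c ∈ C.fs C.bot (pb C T a) 1 := by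
    intro a ha
    have h1 := h.pb_dm (fs_cl ha)
    rw [fs_dm ha] at h1
    obtain ⟨X, h2, h3, h4, h5⟩ := exists_cover bot_cl (h.pb_cl (fs_cl ha))
      (bot_le (h.pb_cl (fs_cl ha))) (by
        intro hh
        rw [← hh, dm_bot] at h1
        omega)
    rw [dm_bot] at h5
    exact ⟨X, mem_fs.2 ⟨h2, h3, h4, h5⟩⟩
  choose! α hα using hex
  refine ⟨α, hα, ?_⟩
  have hα' : ∀ a ∈ D.fs D.bot D.V 1, α a ∈ C.fs C.bot C.V 1 := fun a ha =>
    fs_atom (fs_cl (hα a ha)) (fs_cl (hα a ha)).sub (fs_dm (hα a ha))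
  have hinj : Set.InjOn α (D.fs D.bot D.V 1 : Set (Finset W)) := by
    intro a ha a' ha' hh
    have ha : a ∈ D.fs D.bot D.V 1 := ha
    have ha' : a' ∈ D.fs D.bot D.V 1 := ha'
    exact h.atom_eq ha ha' (hα' a ha) (fs_ge (hα a ha))
      (by rw [show α a = α a' from hh]; exact fs_ge (hα a' ha'))
  have himg : (D.fs D.bot D.V 1).image α = C.fs C.bot C.V 1 := by
    apply Finset.eq_of_subset_of_card_le
    · intro c hc
      rw [Finset.mem_image] at hc
      obtain ⟨a, ha, rfl⟩ := hc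
      exact hα' a ha
    · rw [Finset.card_image_of_injOn hinj, h.c0]
  intro c hc
  rw [← himg, Finset.mem_image] at hc
  exact hc

theorem atoms : (∀ a ∈ D.fs D.bot D.V 1, pb C T a ∈ C.fs C.bot C.V 1) ∧
    ∀ c ∈ C.fs C.bot C.V 1, ∃ a ∈ D.fs D.bot D.V 1, pb C T a = c := by
  obtain ⟨α, h1, h2⟩ := h.atoms_aux
  have key : ∀ a ∈ D.fs D.bot D.V 1, pb C T a = α a := by
    intro a ha
    apply Finset.Subset.antisymm _ (fs_ge (h1 a ha))
    apply sub_of_atoms (h.pb_cl (fs_cl ha)) (fs_cl (h1 a ha))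
    intro c hc
    have hc' := fs_mono (Finset.Subset.refl _) (h.pb_cl (fs_cl ha)).sub hc
    obtain ⟨a', ha', rfl⟩ := h2 c hc'
    rw [h.atom_eq ha ha' hc' (fs_ge hc) (fs_ge (h1 a' ha'))]
  constructor
  · intro a ha
    rw [key a ha]
    exact fs_mono (Finset.Subset.refl _) (h.pb_cl (fs_cl ha)).sub (h1 a ha)
  · intro c hc
    obtain ⟨a, ha, rfl⟩ := h2 c hc
    exact ⟨a, ha, key a ha⟩

/-- the vertices of a pull-back -/
theorem card_atoms {A : Finset W} (hA : D.Cl A) :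
    (C.fs C.bot (pb C T A) 1).card = (D.fs D.bot A 1).card := by
  classical
  symm
  apply Finset.card_bij (fun a _ => pb C T a)
  · intro a ha
    have h1 := h.atoms.1 a (fs_mono (Finset.Subset.refl _) hA.sub ha)
    exact mem_fs.2 ⟨fs_cl h1, fs_le h1, pb_mono (fs_ge ha), fs_dm h1⟩
  · intro a ha a' ha' hh
    exact h.pb_inj (fs_cl ha) (fs_cl ha') hh
  · intro c hc
    obtain ⟨a, ha, rfl⟩ := h.atoms.2 c (fs_mono (Finset.Subset.refl _) (h.pb_cl hA).sub hc)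
    exact ⟨a, mem_fs.2 ⟨fs_cl ha, fs_le ha, (h.pb_sub_iff (fs_cl ha)).1 (fs_ge hc), fs_dm ha⟩, rfl⟩

theorem edge_fwd {e : Finset W} (he : e ∈ D.fs D.bot D.V 2) : pb C T e ∈ C.fs C.bot C.V 2 := by
  have h1 := h.card_atoms (fs_cl he)
  rw [card_ends (fs_cl he) (fs_dm he)] at h1
  have h2 := card_cov_ge bot_cl (h.pb_cl (fs_cl he)) (bot_le (h.pb_cl (fs_cl he)))
  rw [dm_bot] at h2
  have h3 := h.pb_dm (fs_cl he)
  rw [fs_dm he] at h3
  have e1 : 0 + 1 = 1 := rfl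
  rw [e1, h1] at h2
  exact fs_atom (h.pb_cl (fs_cl he)) (h.pb_cl (fs_cl he)).sub (by omega)

theorem edges : (∀ e ∈ D.fs D.bot D.V 2, pb C T e ∈ C.fs C.bot C.V 2) ∧
    ∀ c ∈ C.fs C.bot C.V 2, ∃ e ∈ D.fs D.bot D.V 2, pb C T e = c := by
  classical
  refine ⟨fun e he => h.edge_fwd he, ?_⟩
  have hinj : Set.InjOn (pb C T) (D.fs D.bot D.V 2 : Set (Finset W)) := by
    intro a ha a' ha' hh
    have ha : a ∈ D.fs D.bot D.V 2 := ha
    have ha' : a' ∈ D.fs D.bot D.V 2 := ha'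
    exact h.pb_inj (fs_cl ha) (fs_cl ha') hh
  have himg : (D.fs D.bot D.V 2).image (pb C T) = C.fs C.bot C.V 2 := by
    apply Finset.eq_of_subset_of_card_le
    · intro c hc
      rw [Finset.mem_image] at hc
      obtain ⟨a, ha, rfl⟩ := hc
      exact h.edge_fwd ha
    · rw [Finset.card_image_of_injOn hinj, h.c1]
  intro c hc
  rw [← himg, Finset.mem_image] at hc
  exact hc

/-- the edges at a vertex in a pull-back -/
theorem card_edges {a A : Finset W} (ha : D.Cl a) (hA : D.Cl A) :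
    (C.fs (pb C T a) (pb C T A) 2).card = (D.fs a A 2).card := by
  classical
  symm
  apply Finset.card_bij (fun a _ => pb C T a)
  · intro e he
    have h1 := h.edges.1 e (fs_top (fs_cl he) (bot_le (fs_cl he)) (fs_dm he))
    exact mem_fs.2 ⟨fs_cl h1, pb_mono (fs_le he), pb_mono (fs_ge he), fs_dm h1⟩
  · intro a ha a' ha' hh
    exact h.pb_inj (fs_cl ha) (fs_cl ha') hh
  · intro c hc
    obtain ⟨e, he, rfl⟩ := h.edges.2 c (fs_top (fs_cl hc) (bot_le (fs_cl hc)) (fs_dm hc))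
    exact ⟨e, mem_fs.2 ⟨fs_cl he, (h.pb_sub_iff ha).1 (fs_le hc),
      (h.pb_sub_iff (fs_cl he)).1 (fs_ge hc), fs_dm he⟩, rfl⟩

theorem two_fwd {g : Finset W} (hg : g ∈ D.fs D.bot D.V 3) : pb C T g ∈ C.fs C.bot C.V 3 := by
  have h3 := h.pb_dm (fs_cl hg)
  rw [fs_dm hg] at h3
  obtain ⟨a, ha⟩ := exists_atom (fs_cl hg) (by rw [fs_dm hg]; norm_num)
  have h1 := h.card_edges (fs_cl ha) (fs_cl hg)
  rw [card_two (fs_cl ha) (fs_cl hg) (fs_ge ha) (fs_dm ha) (fs_dm hg)] at h1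
  have ha' := h.atoms.1 a (fs_mono (Finset.Subset.refl _) (fs_cl hg).sub ha)
  have h2 := card_cov_ge (fs_cl ha') (h.pb_cl (fs_cl hg)) (pb_mono (fs_ge ha))
  rw [fs_dm ha', h1] at h2
  exact fs_atom (h.pb_cl (fs_cl hg)) (h.pb_cl (fs_cl hg)).sub (by omega)

end Prj

end CP
end Pool.Agent.Helper715
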