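import Pool.Agent.helper529_fat.Count

set_option autoImplicit false
set_option linter.unusedSectionVars false
set_option linter.unusedVariables false

/-!
# Simple cone pairs
-/

namespace Pool.Agent.Helper715

open Finset

variable {W : Type*} [NormedAddCommGroup W] [InnerProductSpace ℝ W] [FiniteDimensional ℝ W]

namespace CP

variable {P : CP W}

theorem fs_cl {A B X : Finset W} {k : ℕ} (h : X ∈ P.fs A B k) : P.Cl X := (mem_fs.1 h).1
theorem fs_le {A B X : Finset W} {k : ℕ} (h : X ∈ P.fs A B k) : A ⊆ X := (mem_fs.1 h).2.1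
theorem fs_ge {A B X : Finset W} {k : ℕ} (h : X ∈ P.fs A B k) : X ⊆ B := (mem_fs.1 h).2.2.1
theorem fs_dm {A B X : Finset W} {k : ℕ} (h : X ∈ P.fs A B k) : dm X = k := (mem_fs.1 h).2.2.2

theorem fs_mono {A A' B B' : Finset W} {k : ℕ} (hA : A' ⊆ A) (hB : B ⊆ B') :
    P.fs A B k ⊆ P.fs A' B' k := by
  intro X hX
  rw [mem_fs] at hX ⊢
  exact ⟨hX.1, hA.trans hX.2.1, hX.2.2.1.trans hB, hX.2.2.2⟩

theorem fs_top {A X : Finset W} {k : ℕ} (hX : P.Cl X) (hA : A ⊆ X) (hd : dm X = k) :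
    X ∈ P.fs A P.V k := mem_fs.2 ⟨hX, hA, hX.sub, hd⟩

theorem fs_atom {B X : Finset W} {k : ℕ} (hX : P.Cl X) (hB : X ⊆ B) (hd : dm X = k) :
    X ∈ P.fs P.bot B k := mem_fs.2 ⟨hX, bot_le hX, hB, hd⟩

/-- two closed sets over `A` that both contain `B` are equal -/
theorem uniqF {A B F F' : Finset W} (hA : P.Cl A) (hF : P.Cl F) (hF' : P.Cl F') (hAF : A ⊆ F)
    (hAF' : A ⊆ F') (hBF : B ⊆ F) (hBF' : B ⊆ F') (hBA : ¬ B ⊆ A) (dF : dm F = dm A + 1)
    (dF' : dm F' = dm A + 1) : F = F' := by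
  obtain ⟨b, hb, hbA⟩ := Finset.not_subset.1 hBA
  exact cover_eq hA hF hF' hAF hAF' dF dF' (hBF hb) hbA (hBF' hb)

theorem not_sub_of_ne {A B : Finset W} (hA : P.Cl A) (hB : P.Cl B) (hd : dm A = dm B)
    (hne : A ≠ B) : ¬ A ⊆ B := fun h => hne (eq_of_dm_le hA hB h hd.ge)

/-- every vertex lies in exactly `finrank W - 1` edges -/
def Smp (P : CP W) : Prop :=
  ∀ v, P.Cl v → dm v = 1 → (P.fs v P.V 2).card + 1 = Module.finrank ℝ W

theorem Smp.deg (h : P.Smp) {v B : Finset W} (hv : P.Cl v) (hd : dm v = 1) (hB : P.Cl B)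
    (hvB : v ⊆ B) : (P.fs v B 2).card + 1 = dm B := by
  have h1 := card_cov_ge hv hB hvB
  have h2 := card_cov_add hv hB top_cl hvB hB.sub
  have h3 := h v hv hd
  have e : dm v + 1 = 2 := by omega
  rw [e] at h1 h2
  rw [dm_top] at h2
  have h4 := dm_mono hvB
  have h5 := dm_mono (hB.sub)
  rw [dm_top] at h5
  omega

theorem Smp.ext (h : P.Smp) {v B e : Finset W} (hv : P.Cl v) (hd : dm v = 1) (hB : P.Cl B)
    (hvB : v ⊆ B) (he : e ∈ P.fs v P.V 2) (heB : ¬ e ⊆ B) :
    ∃ B', P.Cl B' ∧ B ⊆ B' ∧ e ⊆ B' ∧ dm B' = dm B + 1 := by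
  classical
  set S := P.fs B P.V (dm B + 1) with hS
  set O := (P.fs v P.V 2) \ (P.fs v B 2) with hO
  have e2 : dm v + 1 = 2 := by omega
  have hf : ∀ X ∈ S, ∃ o ∈ O, o ⊆ X := by
    intro X hX
    have h1 := card_cov_lt hv hB (fs_cl hX) hvB (fs_le hX) (by
      intro hh
      have := fs_dm hX
      rw [← hh] at this
      omega)
    rw [e2] at h1
    obtain ⟨o, ho, ho'⟩ := Finset.exists_mem_notMem_of_card_lt_card
      (show (P.fs v B 2).card < (P.fs v X 2).card by omega)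
    exact ⟨o, Finset.mem_sdiff.2 ⟨fs_mono (Finset.Subset.refl _) (fs_cl hX).sub ho, ho'⟩, fs_ge ho⟩
  choose! f hf1 hf2 using hf
  have hinj : Set.InjOn f (S : Set (Finset W)) := by
    intro X hX X' hX' hXX
    have hX : X ∈ S := hX
    have hX' : X' ∈ S := hX'
    have h1 := hf1 X hX
    rw [hO, Finset.mem_sdiff] at h1
    refine uniqF (B := f X) hB (fs_cl hX) (fs_cl hX') (fs_le hX) (fs_le hX') (hf2 X hX) ?_ ?_
      (fs_dm hX) (fs_dm hX')
    · rw [hXX]; exact hf2 X' hX'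
    · intro hh
      exact h1.2 (mem_fs.2 ⟨fs_cl h1.1, fs_le h1.1, hh, fs_dm h1.1⟩)
  have hcS := card_cov_ge hB (P := P) top_cl hB.sub
  rw [dm_top, ← hS] at hcS
  have hcO : O.card = (P.fs v P.V 2).card - (P.fs v B 2).card := by
    rw [hO, Finset.card_sdiff_of_subset (fs_mono (Finset.Subset.refl _) hB.sub)]
  have d1 := h.deg hv hd hB hvB
  have d2 := h v hv hd
  have himg : S.image f = O := by
    apply Finset.eq_of_subset_of_card_le
    · intro o ho
      rw [Finset.mem_image] at ho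
      obtain ⟨X, hX, rfl⟩ := ho
      exact hf1 X hX
    · rw [Finset.card_image_of_injOn hinj]
      omega
  have heO : e ∈ O := by
    rw [hO, Finset.mem_sdiff]
    exact ⟨he, fun hh => heB (fs_ge hh)⟩
  rw [← himg, Finset.mem_image] at heO
  obtain ⟨X, hX, rfl⟩ := heO
  exact ⟨X, fs_cl hX, fs_le hX, hf2 X hX, fs_dm hX⟩

theorem Smp.span_set (h : P.Smp) {v : Finset W} (hv : P.Cl v) (hd : dm v = 1)
    (E : Finset (Finset W)) (hE : E ⊆ P.fs v P.V 2) :
    ∃ B, P.Cl B ∧ v ⊆ B ∧ (∀ e ∈ E, e ⊆ B) ∧ dm B = E.card + 1 := by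
  classical
  induction E using Finset.induction_on with
  | empty => exact ⟨v, hv, Finset.Subset.refl _, by simp, by simp [hd]⟩
  | insert a E ha ih =>
    obtain ⟨B, hB, hvB, hEB, hdB⟩ := ih (fun x hx => hE (Finset.mem_insert_of_mem hx))
    have haE := hE (Finset.mem_insert_self a E)
    have haB : ¬ a ⊆ B := by
      intro hh
      have h1 : insert a E ⊆ P.fs v B 2 := by
        intro x hx
        have hx' := hE hx
        rw [Finset.mem_insert] at hx
        rw [mem_fs] at hx' ⊢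
        refine ⟨hx'.1, hx'.2.1, ?_, hx'.2.2.2⟩
        rcases hx with rfl | hx
        · exact hh
        · exact hEB x hx
      have h2 := Finset.card_le_card h1
      rw [Finset.card_insert_of_notMem ha] at h2
      have h3 := h.deg hv hd hB hvB
      omega
    obtain ⟨B', hB', h1, h2, h3⟩ := h.ext hv hd hB hvB haE haB
    refine ⟨B', hB', hvB.trans h1, ?_, ?_⟩
    · intro e he
      rw [Finset.mem_insert] at he
      rcases he with rfl | he
      · exact h2
      · exact (hEB e he).trans h1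
    · rw [h3, hdB, Finset.card_insert_of_notMem ha]

theorem Smp.span2 (h : P.Smp) {v e e' : Finset W} (hv : P.Cl v) (hd : dm v = 1)
    (he : e ∈ P.fs v P.V 2) (he' : e' ∈ P.fs v P.V 2) (hne : e ≠ e') :
    ∃ F ∈ P.fs v P.V 3, e ⊆ F ∧ e' ⊆ F := by
  have h1 : ¬ e' ⊆ e := not_sub_of_ne (fs_cl he') (fs_cl he) (by rw [fs_dm he, fs_dm he'])
    (Ne.symm hne)
  obtain ⟨F, hF, g1, g2, g3⟩ := h.ext hv hd (fs_cl he) (fs_le he) he' h1
  rw [fs_dm he] at g3
  exact ⟨F, fs_top hF ((fs_le he).trans g1) g3, g1, g2⟩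

open scoped Classical in
theorem Smp.pairs (h : P.Smp) {v : Finset W} (hv : P.Cl v) (hd : dm v = 1)
    {U : Finset (Finset W)} (hU : U ⊆ P.fs v P.V 2) :
    ((P.fs v P.V 3).filter (fun F => P.fs v F 2 ⊆ U)).card = U.card.choose 2 := by
  rw [← Finset.card_powersetCard 2 U]
  apply Finset.card_bij (fun F _ => P.fs v F 2)
  · intro F hF
    rw [Finset.mem_filter] at hF
    rw [Finset.mem_powersetCard]
    refine ⟨hF.2, ?_⟩
    have := h.deg hv hd (fs_cl hF.1) (fs_le hF.1)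
    rw [fs_dm hF.1] at this
    omega
  · intro F hF F' hF' hFF
    rw [Finset.mem_filter] at hF hF'
    have h1 := h.deg hv hd (fs_cl hF.1) (fs_le hF.1)
    rw [fs_dm hF.1] at h1
    obtain ⟨a, b, hab, hc⟩ := Finset.card_eq_two.1 (show (P.fs v F 2).card = 2 by omega)
    have ha : a ∈ P.fs v F 2 := by rw [hc]; simp
    have hb : b ∈ P.fs v F 2 := by rw [hc]; simp
    have ha' : a ∈ P.fs v F' 2 := by rw [← show P.fs v F 2 = P.fs v F' 2 from hFF]; exact ha
    have hb' : b ∈ P.fs v F' 2 := by rw [← show P.fs v F 2 = P.fs v F' 2 from hFF]; exact hb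
    refine uniqF (A := a) (B := b) (fs_cl ha) (fs_cl hF.1) (fs_cl hF'.1) (fs_ge ha) (fs_ge ha')
      (fs_ge hb) (fs_ge hb') ?_ ?_ ?_
    · exact not_sub_of_ne (fs_cl hb) (fs_cl ha) (by rw [fs_dm ha, fs_dm hb]) (Ne.symm hab)
    · rw [fs_dm hF.1, fs_dm ha]
    · rw [fs_dm hF'.1, fs_dm ha]
  · intro S hS
    rw [Finset.mem_powersetCard] at hS
    obtain ⟨a, b, hab, hc⟩ := Finset.card_eq_two.1 hS.2
    have ha : a ∈ P.fs v P.V 2 := hU (hS.1 (by rw [hc]; simp))
    have hb : b ∈ P.fs v P.V 2 := hU (hS.1 (by rw [hc]; simp))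
    obtain ⟨F, hF, g1, g2⟩ := h.span2 hv hd ha hb hab
    have h1 := h.deg hv hd (fs_cl hF) (fs_le hF)
    rw [fs_dm hF] at h1
    have h2 : S ⊆ P.fs v F 2 := by
      rw [hc]
      intro x hx
      rw [Finset.mem_insert, Finset.mem_singleton] at hx
      rcases hx with rfl | rfl
      · exact mem_fs.2 ⟨fs_cl ha, fs_le ha, g1, fs_dm ha⟩
      · exact mem_fs.2 ⟨fs_cl hb, fs_le hb, g2, fs_dm hb⟩
    have h3 : S = P.fs v F 2 := Finset.eq_of_subset_of_card_le h2 (by omega)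
    exact ⟨F, Finset.mem_filter.2 ⟨hF, by rw [← h3]; exact hS.1⟩, h3.symm⟩

theorem Smp.faces2 (h : P.Smp) {v : Finset W} (hv : P.Cl v) (hd : dm v = 1) :
    (P.fs v P.V 3).card = (P.fs v P.V 2).card.choose 2 := by
  classical
  rw [← h.pairs hv hd (Finset.Subset.refl _)]
  congr 1
  rw [Finset.filter_true_of_mem]
  intro F hF
  exact fs_mono (Finset.Subset.refl _) (fs_cl hF).sub

/-- an edge has two end points -/
theorem card_ends {e : Finset W} (he : P.Cl e) (hd : dm e = 2) : (P.fs P.bot e 1).card = 2 := by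
  have := euler2 bot_cl he (bot_le he) (by rw [hd, dm_bot])
  rwa [dm_bot] at this

/-- in a two-dimensional face every vertex has two edges -/
theorem card_two {v F : Finset W} (hv : P.Cl v) (hF : P.Cl F) (hvF : v ⊆ F) (h1 : dm v = 1)
    (h3 : dm F = 3) : (P.fs v F 2).card = 2 := by
  have := euler2 hv hF hvF (by rw [h3, h1])
  rwa [h1] at this

/-- in a two-dimensional face the numbers of vertices and edges agree -/
theorem card_polygon {F : Finset W} (hF : P.Cl F) (h3 : dm F = 3) :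
    (P.fs P.bot F 1).card = (P.fs P.bot F 2).card := by
  have := euler3 bot_cl hF (bot_le hF) (by rw [h3, dm_bot])
  rwa [dm_bot] at this

theorem Smp.two_edges (h : P.Smp) :
    2 * (P.fs P.bot P.V 2).card + (P.fs P.bot P.V 1).card =
      Module.finrank ℝ W * (P.fs P.bot P.V 1).card := by
  have h1 := double_count (P := P) (A := P.bot) (B := P.V) 1 2
  have h2 : ∑ Y ∈ P.fs P.bot P.V 2, (P.fs P.bot Y 1).card = 2 * (P.fs P.bot P.V 2).card := by
    rw [Finset.sum_congr rfl (fun Y hY => card_ends (fs_cl hY) (fs_dm hY)), Finset.sum_const,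
      smul_eq_mul, mul_comm]
  have h3 : ∑ X ∈ P.fs P.bot P.V 1, ((P.fs X P.V 2).card + 1) =
      Module.finrank ℝ W * (P.fs P.bot P.V 1).card := by
    rw [Finset.sum_congr rfl (fun X hX => h X (fs_cl hX) (fs_dm hX)), Finset.sum_const,
      smul_eq_mul, mul_comm]
  rw [Finset.sum_add_distrib, h1, h2, Finset.sum_const, smul_eq_mul, mul_one] at h3
  exact h3

theorem Smp.incid (h : P.Smp) :
    ∑ F ∈ P.fs P.bot P.V 3, (P.fs P.bot F 1).card =
      (P.fs P.bot P.V 1).card * (Module.finrank ℝ W - 1).choose 2 := by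
  have h1 := double_count (P := P) (A := P.bot) (B := P.V) 1 3
  rw [← h1, Finset.sum_congr rfl (fun X hX => ?_), Finset.sum_const, smul_eq_mul]
  rw [h.faces2 (fs_cl hX) (fs_dm hX)]
  have := h X (fs_cl hX) (fs_dm hX)
  rw [← this, Nat.add_sub_cancel]

end CP
end Pool.Agent.Helper715
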