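import Pool.Agent.helper529_fat.Orient

set_option autoImplicit false
set_option linter.unusedSectionVars false
set_option linter.unusedVariables false

/-!
# Triangles in simple polytopes: an edge in many triangles lies in a simplex face
-/

namespace Pool.Agent.Helper715

open Finset

variable {W : Type*} [NormedAddCommGroup W] [InnerProductSpace ℝ W] [FiniteDimensional ℝ W]

namespace CP

variable {P : CP W}

/-- the edge through two vertices lies in every closed set that contains them -/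
theorem edge_sub {a b D B : Finset W} (ha : P.Cl a) (da : dm a = 1) (hb : P.Cl b) (db : dm b = 1)
    (hne : a ≠ b) (hD : P.Cl D) (dD : dm D = 2) (haD : a ⊆ D) (hbD : b ⊆ D) (hB : P.Cl B)
    (haB : a ⊆ B) (hbB : b ⊆ B) : D ⊆ B := by
  obtain ⟨c, hc, hca⟩ := Finset.not_subset.1 (not_sub_of_ne hb ha (by rw [da, db]) hne.symm)
  exact cover_sub ha hD hB haD haB (by rw [dD, da]) (hbD hc) hca (hbB hc)

theorem edge_uniq {a b D B : Finset W} (ha : P.Cl a) (da : dm a = 1) (hb : P.Cl b) (db : dm b = 1)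
    (hne : a ≠ b) (hD : P.Cl D) (dD : dm D = 2) (haD : a ⊆ D) (hbD : b ⊆ D) (hB : P.Cl B)
    (dB : dm B = 2) (haB : a ⊆ B) (hbB : b ⊆ B) : D = B :=
  eq_of_dm_le hD hB (edge_sub ha da hb db hne hD dD haD hbD hB haB hbB) (by rw [dD, dB])

theorem three_atoms {D a b c : Finset W} (hD : P.Cl D) (dD : dm D = 2) (ha : a ∈ P.fs P.bot D 1)
    (hb : b ∈ P.fs P.bot D 1) (hc : c ∈ P.fs P.bot D 1) (hab : a ≠ b) (hac : a ≠ c) (hbc : b ≠ c) :
    False := by
  classical
  have h1 := card_ends hD dD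
  have h2 : ({a, b, c} : Finset (Finset W)) ⊆ P.fs P.bot D 1 := by
    intro x hx
    simp only [Finset.mem_insert, Finset.mem_singleton] at hx
    rcases hx with rfl | rfl | rfl
    · exact ha
    · exact hb
    · exact hc
  have h3 := Finset.card_le_card h2
  rw [Finset.card_eq_three.2 ⟨a, b, c, hab, hac, hbc, rfl⟩] at h3
  omega

/-- any two vertices of a triangle are joined by an edge of the triangle -/
theorem tri_adj {t a b : Finset W} (ht : P.Cl t) (dt : dm t = 3) (h3 : (P.fs P.bot t 1).card = 3)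
    (ha : a ∈ P.fs P.bot t 1) (hb : b ∈ P.fs P.bot t 1) (hne : a ≠ b) :
    ∃ D, P.Cl D ∧ dm D = 2 ∧ a ⊆ D ∧ b ⊆ D ∧ D ⊆ t := by
  classical
  have h1 : ∀ e ∈ P.fs a t 2, ∃ w ∈ P.fs P.bot e 1, a ≠ w := fun e he =>
    other_end (fs_cl ha) (fs_dm ha) (fs_top (fs_cl he) (fs_le he) (fs_dm he))
  choose! f hf1 hf2 using h1
  have hinj : Set.InjOn f (P.fs a t 2 : Set (Finset W)) := by
    intro e he e' he' hee
    have he : e ∈ P.fs a t 2 := he
    have he' : e' ∈ P.fs a t 2 := he'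
    have g1 := hf1 e he
    have g2 := hf1 e' he'
    exact edge_uniq (fs_cl ha) (fs_dm ha) (fs_cl g1) (fs_dm g1) (hf2 e he) (fs_cl he) (fs_dm he)
      (fs_le he) (fs_ge g1) (fs_cl he') (fs_dm he') (fs_le he') (by rw [hee]; exact fs_ge g2)
  have himg : (P.fs a t 2).image f = (P.fs P.bot t 1).erase a := by
    apply Finset.eq_of_subset_of_card_le
    · intro w hw
      rw [Finset.mem_image] at hw
      obtain ⟨e, he, rfl⟩ := hw
      rw [Finset.mem_erase]
      exact ⟨(hf2 e he).symm, fs_mono (Finset.Subset.refl _) (fs_ge he) (hf1 e he)⟩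
    · rw [Finset.card_image_of_injOn hinj, Finset.card_erase_of_mem ha, h3,
        card_two (fs_cl ha) ht (fs_ge ha) (fs_dm ha) dt]
  have hb' : b ∈ (P.fs P.bot t 1).erase a := Finset.mem_erase.2 ⟨hne.symm, hb⟩
  rw [← himg, Finset.mem_image] at hb'
  obtain ⟨e, he, rfl⟩ := hb'
  exact ⟨e, fs_cl he, fs_dm he, fs_le he, fs_ge (hf1 e he), fs_ge he⟩

/-- a set of pairwise adjacent vertices of a simple polytope spans a simplex face -/
theorem Smp.clique (hs : P.Smp) {S : Finset (Finset W)} (hS : S ⊆ P.fs P.bot P.V 1)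
    (hne : S.Nonempty) (hadj : ∀ a ∈ S, ∀ b ∈ S, a ≠ b →
      ∃ D, P.Cl D ∧ dm D = 2 ∧ a ⊆ D ∧ b ⊆ D) :
    ∃ B, P.Cl B ∧ dm B = S.card ∧ P.fs P.bot B 1 = S := by
  classical
  choose! ed h1 h2 h3 h4 using hadj
  have hcl : ∀ a ∈ S, P.Cl a := fun a ha => fs_cl (hS ha)
  have hdm : ∀ a ∈ S, dm a = 1 := fun a ha => fs_dm (hS ha)
  -- the star of a vertex
  have hstar : ∀ u ∈ S, ((S.erase u).image (ed u)).card = S.card - 1 ∧
      (S.erase u).image (ed u) ⊆ P.fs u P.V 2 := by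
    intro u hu
    constructor
    · rw [Finset.card_image_of_injOn, Finset.card_erase_of_mem hu]
      intro s hs' s' hs'' hss
      have hs' : s ∈ S.erase u := hs'
      have hs'' : s' ∈ S.erase u := hs''
      rw [Finset.mem_erase] at hs' hs''
      by_contra hcon
      refine three_atoms (a := u) (b := s) (c := s') (h1 u hu s hs'.2 hs'.1.symm)
        (h2 u hu s hs'.2 hs'.1.symm)
        (fs_atom (hcl u hu) (h3 u hu s hs'.2 hs'.1.symm) (hdm u hu))
        (fs_atom (hcl s hs'.2) (h4 u hu s hs'.2 hs'.1.symm) (hdm s hs'.2))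
        (fs_atom (hcl s' hs''.2) ?_ (hdm s' hs''.2)) hs'.1.symm hs''.1.symm hcon
      rw [show ed u s = ed u s' from hss]
      exact h4 u hu s' hs''.2 hs''.1.symm
    · intro e he
      rw [Finset.mem_image] at he
      obtain ⟨s, hs', rfl⟩ := he
      rw [Finset.mem_erase] at hs'
      exact fs_top (h1 u hu s hs'.2 hs'.1.symm) (h3 u hu s hs'.2 hs'.1.symm)
        (h2 u hu s hs'.2 hs'.1.symm)
  obtain ⟨v, hv⟩ := hne
  obtain ⟨B, hB, hvB, hEB, hdB⟩ := hs.span_set (hcl v hv) (hdm v hv) _ (hstar v hv).2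
  rw [(hstar v hv).1] at hdB
  have hc1 : 1 ≤ S.card := Finset.card_pos.2 ⟨v, hv⟩
  have hdB' : dm B = S.card := by omega
  have hSB : ∀ s ∈ S, s ⊆ B := by
    intro s hs'
    by_cases hsv : s = v
    · rw [hsv]; exact hvB
    · exact (h4 v hv s hs' (Ne.symm hsv)).trans
        (hEB _ (Finset.mem_image_of_mem _ (Finset.mem_erase.2 ⟨hsv, hs'⟩)))
  have hedge : ∀ u ∈ S, (S.erase u).image (ed u) = P.fs u B 2 := by
    intro u hu
    apply Finset.eq_of_subset_of_card_le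
    · intro e he
      have he' := (hstar u hu).2 he
      rw [Finset.mem_image] at he
      obtain ⟨s, hs', rfl⟩ := he
      rw [Finset.mem_erase] at hs'
      refine mem_fs.2 ⟨fs_cl he', fs_le he', ?_, fs_dm he'⟩
      exact edge_sub (hcl u hu) (hdm u hu) (hcl s hs'.2) (hdm s hs'.2) hs'.1.symm (fs_cl he')
        (fs_dm he') (fs_le he') (h4 u hu s hs'.2 hs'.1.symm) hB (hSB u hu) (hSB s hs'.2)
    · rw [(hstar u hu).1]
      have := hs.deg (hcl u hu) (hdm u hu) hB (hSB u hu)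
      omega
  refine ⟨B, hB, hdB', ?_⟩
  apply Finset.Subset.antisymm
  · intro z hz
    have hc := conn (P := P) bot_cl hB (X := v) (Y := z)
      ⟨hcl v hv, bot_le (hcl v hv), hvB, by rw [hdm v hv, dm_bot]⟩
      ⟨fs_cl hz, bot_le (fs_cl hz), fs_ge hz, by rw [fs_dm hz, dm_bot]⟩
    clear hz
    induction hc with
    | refl => exact hv
    | @tail b c _ hbc ih =>
      obtain ⟨hb, hc, D, hD, hbD, hcD, hDB, dD⟩ := hbc
      rw [dm_bot] at dD
      have hDm : D ∈ P.fs b B 2 := mem_fs.2 ⟨hD, hbD, hDB, dD⟩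
      rw [← hedge b ih, Finset.mem_image] at hDm
      obtain ⟨s, hs', hsD⟩ := hDm
      rw [Finset.mem_erase] at hs'
      have hsD' : s ⊆ D := by rw [← hsD]; exact h4 b ih s hs'.2 hs'.1.symm
      have dc : dm c = 1 := by rw [hc.dim, dm_bot]
      by_cases hcb : c = b
      · rw [hcb]; exact ih
      · by_cases hcs : c = s
        · rw [hcs]; exact hs'.2
        · exact (three_atoms hD dD (fs_atom (hcl b ih) hbD (hdm b ih))
            (fs_atom (hcl s hs'.2) hsD' (hdm s hs'.2)) (fs_atom hc.cl hcD dc) hs'.1.symm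
            (Ne.symm hcb) (Ne.symm hcs)).elim
  · intro s hs'
    exact fs_atom (hcl s hs') (hSB s hs') (hdm s hs')

/-- the third vertices of two triangles over one edge are adjacent -/
theorem Smp.adj_third (hs : P.Smp) {e v w t t' x x' : Finset W} (he : P.Cl e) (de : dm e = 2)
    (hv : v ∈ P.fs P.bot e 1) (hw : w ∈ P.fs P.bot e 1) (hvw : v ≠ w)
    (ht : P.Cl t) (dt : dm t = 3) (ht3 : (P.fs P.bot t 1).card = 3) (het : e ⊆ t)
    (ht' : P.Cl t') (dt' : dm t' = 3) (ht3' : (P.fs P.bot t' 1).card = 3) (het' : e ⊆ t')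
    (hx : x ∈ P.fs P.bot t 1) (hxv : x ≠ v) (hxw : x ≠ w)
    (hx' : x' ∈ P.fs P.bot t' 1) (hxv' : x' ≠ v) (hxw' : x' ≠ w) (hxx : x ≠ x') :
    ∃ D, P.Cl D ∧ dm D = 2 ∧ x ⊆ D ∧ x' ⊆ D := by
  classical
  have cv := fs_cl hv
  have cw := fs_cl hw
  have dv := fs_dm hv
  have dw := fs_dm hw
  have cx := fs_cl hx
  have cx' := fs_cl hx'
  have dx := fs_dm hx
  have dx' := fs_dm hx'
  have hvt : v ∈ P.fs P.bot t 1 := fs_atom cv ((fs_ge hv).trans het) dv
  have hwt : w ∈ P.fs P.bot t 1 := fs_atom cw ((fs_ge hw).trans het) dw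
  have hvt' : v ∈ P.fs P.bot t' 1 := fs_atom cv ((fs_ge hv).trans het') dv
  have hwt' : w ∈ P.fs P.bot t' 1 := fs_atom cw ((fs_ge hw).trans het') dw
  obtain ⟨a, ca, da, hva, hxa, _⟩ := tri_adj ht dt ht3 hvt hx hxv.symm
  obtain ⟨a', ca', da', hva', hxa', _⟩ := tri_adj ht' dt' ht3' hvt' hx' hxv'.symm
  obtain ⟨b, cb, db, hwb, hxb, _⟩ := tri_adj ht dt ht3 hwt hx hxw.symm
  obtain ⟨b', cb', db', hwb', hxb', _⟩ := tri_adj ht' dt' ht3' hwt' hx' hxw'.symm
  have haa : a ≠ a' := by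
    rintro rfl
    exact three_atoms ca da (fs_atom cv hva dv) (fs_atom cx hxa dx) (fs_atom cx' hxa' dx')
      hxv.symm hxv'.symm hxx
  have hbb : b ≠ b' := by
    rintro rfl
    exact three_atoms cb db (fs_atom cw hwb dw) (fs_atom cx hxb dx) (fs_atom cx' hxb' dx')
      hxw.symm hxw'.symm hxx
  have hea : e ≠ a := by
    rintro rfl
    exact three_atoms ca da hv hw (fs_atom cx hxa dx) hvw hxv.symm hxw.symm
  have hea' : e ≠ a' := by
    rintro rfl
    exact three_atoms ca' da' hv hw (fs_atom cx' hxa' dx') hvw hxv'.symm hxw'.symm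
  obtain ⟨H1, hH1, haH1, haH1'⟩ := hs.span2 cv dv (fs_top ca hva da) (fs_top ca' hva' da') haa
  obtain ⟨H2, hH2, hbH2, hbH2'⟩ := hs.span2 cw dw (fs_top cb hwb db) (fs_top cb' hwb' db') hbb
  have hne : H1 ≠ H2 := by
    intro hh
    have hwH : w ⊆ H1 := by rw [hh]; exact fs_le hH2
    have heH : e ⊆ H1 := edge_sub cv dv cw dw hvw he de (fs_ge hv) (fs_ge hw) (fs_cl hH1)
      (fs_le hH1) hwH
    have h1 := card_two cv (fs_cl hH1) (fs_le hH1) dv (fs_dm hH1)
    have h2 : ({e, a, a'} : Finset (Finset W)) ⊆ P.fs v H1 2 := by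
      intro z hz
      simp only [Finset.mem_insert, Finset.mem_singleton] at hz
      rcases hz with rfl | rfl | rfl
      · exact mem_fs.2 ⟨he, fs_ge hv, heH, de⟩
      · exact mem_fs.2 ⟨ca, hva, haH1, da⟩
      · exact mem_fs.2 ⟨ca', hva', haH1', da'⟩
    have h3 := Finset.card_le_card h2
    rw [Finset.card_eq_three.2 ⟨e, a, a', hea, hea', haa, rfl⟩] at h3
    omega
  have hD : P.Cl (H1 ∩ H2) := Cl_inter (fs_cl hH1) (fs_cl hH2)
  have hxD : x ⊆ H1 ∩ H2 := Finset.subset_inter (hxa.trans haH1) (hxb.trans hbH2)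
  have hxD' : x' ⊆ H1 ∩ H2 := Finset.subset_inter (hxa'.trans haH1') (hxb'.trans hbH2')
  have h1 : dm (H1 ∩ H2) < 3 := by
    rw [← fs_dm hH1]
    apply dm_lt hD (fs_cl hH1) Finset.inter_subset_left
    intro hh
    have h2 : H1 ⊆ H2 := by rw [← hh]; exact Finset.inter_subset_right
    exact hne (eq_of_dm_le (fs_cl hH1) (fs_cl hH2) h2 (by rw [fs_dm hH1, fs_dm hH2]))
  have h2 : 1 < dm (H1 ∩ H2) := by
    rw [← dx]
    apply dm_lt cx hD hxD
    intro hh
    rw [← hh] at hxD'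
    exact not_sub_of_ne cx' cx (by rw [dx, dx']) hxx.symm hxD'
  exact ⟨H1 ∩ H2, hD, by omega, hxD, hxD'⟩

/-- an edge in `k` triangles lies in a simplex face of dimension `k + 1` -/
theorem Smp.simplex (hs : P.Smp) {e : Finset W} (he : P.Cl e) (de : dm e = 2)
    {T : Finset (Finset W)} (hT : ∀ t ∈ T, P.Cl t ∧ dm t = 3 ∧ (P.fs P.bot t 1).card = 3 ∧ e ⊆ t) :
    ∃ B, P.Cl B ∧ dm B = T.card + 2 ∧ (P.fs P.bot B 1).card = T.card + 2 := by
  classical
  obtain ⟨v, w, hvw, hends⟩ := Finset.card_eq_two.1 (card_ends he de)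
  have hv : v ∈ P.fs P.bot e 1 := by rw [hends]; simp
  have hw : w ∈ P.fs P.bot e 1 := by rw [hends]; simp
  have hthird : ∀ t ∈ T, ∃ x ∈ P.fs P.bot t 1, x ∉ P.fs P.bot e 1 := by
    intro t ht
    obtain ⟨_, _, h3, _⟩ := hT t ht
    exact Finset.exists_mem_notMem_of_card_lt_card (by rw [h3, card_ends he de]; norm_num)
  choose! x hx1 hx2 using hthird
  have hxv : ∀ t ∈ T, x t ≠ v := fun t ht hh => hx2 t ht (by rw [hh]; exact hv)
  have hxw : ∀ t ∈ T, x t ≠ w := fun t ht hh => hx2 t ht (by rw [hh]; exact hw)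
  have hinj : Set.InjOn x (T : Set (Finset W)) := by
    intro t ht t' ht' htt
    have ht : t ∈ T := ht
    have ht' : t' ∈ T := ht'
    obtain ⟨h1, h2, h3, h4⟩ := hT t ht
    obtain ⟨h1', h2', h3', h4'⟩ := hT t' ht'
    refine uniqF (B := x t) he h1 h1' h4 h4' (fs_ge (hx1 t ht)) ?_ ?_ (by rw [h2, de])
      (by rw [h2', de])
    · rw [htt]; exact fs_ge (hx1 t' ht')
    · intro hh
      exact hx2 t ht (fs_atom (fs_cl (hx1 t ht)) hh (fs_dm (hx1 t ht)))
  have hwX : w ∉ T.image x := by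
    rw [Finset.mem_image]
    rintro ⟨t, ht, hh⟩
    exact hxw t ht hh
  have hvX : v ∉ insert w (T.image x) := by
    rw [Finset.mem_insert, Finset.mem_image]
    rintro (hh | ⟨t, ht, hh⟩)
    · exact hvw hh
    · exact hxv t ht hh
  have hcard : (insert v (insert w (T.image x))).card = T.card + 2 := by
    rw [Finset.card_insert_of_notMem hvX, Finset.card_insert_of_notMem hwX,
      Finset.card_image_of_injOn hinj]
  have hcase : ∀ a ∈ insert v (insert w (T.image x)), a = v ∨ a = w ∨ ∃ t ∈ T, a = x t := by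
    intro a ha
    rw [Finset.mem_insert, Finset.mem_insert, Finset.mem_image] at ha
    rcases ha with h | h | ⟨t, ht, hh⟩
    · exact Or.inl h
    · exact Or.inr (Or.inl h)
    · exact Or.inr (Or.inr ⟨t, ht, hh.symm⟩)
  have hadjT : ∀ t ∈ T, ∀ a ∈ P.fs P.bot t 1, ∀ b ∈ P.fs P.bot t 1, a ≠ b →
      ∃ D, P.Cl D ∧ dm D = 2 ∧ a ⊆ D ∧ b ⊆ D := by
    intro t ht a ha b hb hab
    obtain ⟨h1, h2, h3, h4⟩ := hT t ht
    obtain ⟨D, k1, k2, k3, k4, _⟩ := tri_adj h1 h2 h3 ha hb hab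
    exact ⟨D, k1, k2, k3, k4⟩
  have hvt : ∀ t ∈ T, v ∈ P.fs P.bot t 1 := fun t ht =>
    fs_mono (Finset.Subset.refl _) (hT t ht).2.2.2 hv
  have hwt : ∀ t ∈ T, w ∈ P.fs P.bot t 1 := fun t ht =>
    fs_mono (Finset.Subset.refl _) (hT t ht).2.2.2 hw
  obtain ⟨B, hB, dB, hBS⟩ := hs.clique (S := insert v (insert w (T.image x))) (by
      intro a ha
      rcases hcase a ha with rfl | rfl | ⟨t, ht, rfl⟩
      · exact fs_mono (Finset.Subset.refl _) he.sub hv
      · exact fs_mono (Finset.Subset.refl _) he.sub hw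
      · exact fs_mono (Finset.Subset.refl _) (hT t ht).1.sub (hx1 t ht))
    ⟨v, Finset.mem_insert_self _ _⟩ (by
      intro a ha b hb hab
      rcases hcase a ha with rfl | rfl | ⟨t, ht, rfl⟩ <;>
        rcases hcase b hb with rfl | rfl | ⟨t', ht', rfl⟩
      · exact absurd rfl hab
      · exact ⟨e, he, de, fs_ge hv, fs_ge hw⟩
      · exact hadjT t' ht' _ (hvt t' ht') _ (hx1 t' ht') hab
      · exact ⟨e, he, de, fs_ge hw, fs_ge hv⟩
      · exact absurd rfl hab
      · exact hadjT t' ht' _ (hwt t' ht') _ (hx1 t' ht') hab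
      · exact hadjT t ht _ (hx1 t ht) _ (hvt t ht) hab
      · exact hadjT t ht _ (hx1 t ht) _ (hwt t ht) hab
      · obtain ⟨h1, h2, h3, h4⟩ := hT t ht
        obtain ⟨h1', h2', h3', h4'⟩ := hT t' ht'
        exact hs.adj_third he de hv hw hvw h1 h2 h3 h4 h1' h2' h3' h4' (hx1 t ht) (hxv t ht)
          (hxw t ht) (hx1 t' ht') (hxv t' ht') (hxw t' ht') hab)
  refine ⟨B, hB, ?_, ?_⟩
  · rw [dB, hcard]
  · rw [hBS, hcard]

/-- counting triangles by edges -/
theorem tri_count {T : Finset (Finset W)} (hT : ∀ t ∈ T, P.Cl t ∧ dm t = 3 ∧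
    (P.fs P.bot t 1).card = 3) {m : ℕ} (hm : ∀ e ∈ P.fs P.bot P.V 2, ∀ T' : Finset (Finset W),
      T' ⊆ T → (∀ t ∈ T', e ⊆ t) → T'.card ≤ m) :
    3 * T.card ≤ m * (P.fs P.bot P.V 2).card := by
  classical
  have h := Finset.sum_card_bipartiteAbove_eq_sum_card_bipartiteBelow (s := P.fs P.bot P.V 2)
    (t := T) (fun X Y : Finset W => X ⊆ Y)
  have h1 : ∀ t ∈ T, (Finset.bipartiteBelow (fun X Y : Finset W => X ⊆ Y) (P.fs P.bot P.V 2) t).card
      = 3 := by
    intro t ht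
    obtain ⟨k1, k2, k3⟩ := hT t ht
    rw [← k3, card_polygon k1 k2]
    congr 1
    ext X
    rw [Finset.mem_bipartiteBelow, mem_fs, mem_fs]
    constructor
    · rintro ⟨⟨g1, g2, g3, g4⟩, g5⟩
      exact ⟨g1, g2, g5, g4⟩
    · rintro ⟨g1, g2, g3, g4⟩
      exact ⟨⟨g1, g2, g1.sub, g4⟩, g3⟩
  have h2 : ∀ e ∈ P.fs P.bot P.V 2,
      (Finset.bipartiteAbove (fun X Y : Finset W => X ⊆ Y) T e).card ≤ m := by
    intro e he
    apply hm e he
    · exact Finset.filter_subset _ _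
    · intro t ht
      rw [Finset.mem_bipartiteAbove] at ht
      exact ht.2
  have h3 := Finset.sum_le_sum h2
  have h4 : ∑ t ∈ T, (Finset.bipartiteBelow (fun X Y : Finset W => X ⊆ Y) (P.fs P.bot P.V 2) t).card
      = 3 * T.card := by
    rw [Finset.sum_congr rfl h1, Finset.sum_const, smul_eq_mul, mul_comm]
  rw [Finset.sum_const, smul_eq_mul] at h3
  calc 3 * T.card = _ := h4.symm
    _ = _ := h.symm
    _ ≤ _ := h3
    _ = _ := mul_comm _ _

/-- without simplex faces of dimension `m + 2` every edge lies in at most `m` triangles -/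
theorem Smp.no_simplex (hs : P.Smp) {m : ℕ}
    (hno : ∀ B, P.Cl B → dm B = m + 3 → (P.fs P.bot B 1).card ≠ m + 3)
    {e : Finset W} (he : P.Cl e) (de : dm e = 2)
    {T : Finset (Finset W)} (hT : ∀ t ∈ T, P.Cl t ∧ dm t = 3 ∧ (P.fs P.bot t 1).card = 3 ∧ e ⊆ t) :
    T.card ≤ m := by
  by_contra hcon
  push Not at hcon
  obtain ⟨T', hT', hc⟩ := Finset.exists_subset_card_eq (show m + 1 ≤ T.card from hcon)
  obtain ⟨B, h1, h2, h3⟩ := hs.simplex he de (T := T') (fun t ht => hT t (hT' ht))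
  rw [hc] at h2 h3
  exact hno B h1 h2 h3

end CP
end Pool.Agent.Helper715
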